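import Pool.Agent.Run7.h893.HO.Fam

/-!
# The polynomials of odd degree with symmetric rational roots
-/

set_option autoImplicit false

open Polynomial
open Pool.Agent.Y113 hiding Bm
open Pool.Agent.Y119.HZ
open Pool.Agent.Y119.HY (QD Jm hps QB cm)

namespace Run7.h893.HO

variable {m : ℕ}

/-- `(x + 1/2) ∏_j ((x + 1/2) ^ 2 - β_j ^ 2)` -/
noncomputable def QP (β : Fin m → ℚ) : ℚ[X] := (X + C (1 / 2)) * ∏ j, ((X + C (1 / 2)) ^ 2 - C (β j ^ 2))

/-- the exponents -/
def exps (β : Fin m → ℚ) : Option (Fin m ⊕ Fin m) → ℚ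
  | none => 1 / 2
  | some (Sum.inl j) => 1 / 2 + β j
  | some (Sum.inr j) => 1 / 2 - β j

lemma QP_eq (β : Fin m → ℚ) : QP β = QA (exps β) := by
  unfold QP QA
  rw [Fintype.prod_option, Fintype.prod_sum_type, ← Finset.prod_mul_distrib]
  congr 1
  refine Finset.prod_congr rfl fun j _ => ?_
  unfold exps
  rw [map_add, map_sub, map_pow]
  ring

lemma card_exps : Fintype.card (Option (Fin m ⊕ Fin m)) = 2 * m + 1 := by
  rw [Fintype.card_option, Fintype.card_sum, Fintype.card_fin]
  ring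

lemma exps_ne {β : Fin m → ℚ} (hβ : ∀ j, ∀ a : ℤ, β j ≠ a + 1 / 2) (i : Option (Fin m ⊕ Fin m)) (l : ℕ) :
    (l : ℚ) + exps β i ≠ 0 := by
  rcases i with _ | j | j
  · unfold exps
    positivity
  · unfold exps
    intro h
    apply hβ j (-(l : ℤ) - 1)
    push_cast
    linear_combination h
  · unfold exps
    intro h
    apply hβ j (l : ℤ)
    push_cast
    linear_combination -h

lemma QO_QP (hm : 1 ≤ m) {β : Fin m → ℚ} (hβ : ∀ j, ∀ a : ℤ, β j ≠ a + 1 / 2) : QO (2 * m + 1) (QP β) where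
  two := by omega
  odd := ⟨m, rfl⟩
  monic := by
    rw [QP_eq]
    exact monic_prod_of_monic _ _ fun i _ => monic_X_add_C _
  deg := by
    rw [QP_eq]
    unfold QA
    rw [natDegree_prod_of_monic _ _ fun i _ => monic_X_add_C _]
    simp only [natDegree_X_add_C]
    rw [Finset.sum_const, Finset.card_univ, card_exps, smul_eq_mul, mul_one]
  ne := by
    intro l
    rw [QP_eq]
    unfold QA
    rw [eval_prod]
    refine Finset.prod_ne_zero_iff.2 fun i _ => ?_
    rw [eval_add, eval_X, eval_C]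
    exact exps_ne hβ i l
  sym := by
    unfold QP
    rw [mul_comp, prod_comp]
    have e1 : (X + C (1 / 2) : ℚ[X]).comp (-(X + 1)) = -(X + C (1 / 2)) := by
      rw [add_comp, X_comp, C_comp]
      have : (C (1 / 2) : ℚ[X]) + C (1 / 2) = 1 := by
        rw [← map_add]
        norm_num
      linear_combination this
    have e2 : ∀ j, ((X + C (1 / 2)) ^ 2 - C (β j ^ 2) : ℚ[X]).comp (-(X + 1)) = (X + C (1 / 2)) ^ 2 - C (β j ^ 2) := by
      intro j
      rw [sub_comp, pow_comp, e1, C_comp, neg_sq]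
    simp only [e2]
    rw [e1, neg_mul]
  half := by
    have hmon : (QP β).Monic := by
      rw [QP_eq]
      exact monic_prod_of_monic _ _ fun i _ => monic_X_add_C _
    have hdeg : (QP β).natDegree = 2 * m + 1 := by
      rw [QP_eq]
      unfold QA
      rw [natDegree_prod_of_monic _ _ fun i _ => monic_X_add_C _]
      simp only [natDegree_X_add_C]
      rw [Finset.sum_const, Finset.card_univ, card_exps, smul_eq_mul, mul_one]
    have h1 : (QP β).nextCoeff = (QP β).coeff (2 * m + 1 - 1) := by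
      rw [nextCoeff_of_natDegree_pos (by rw [hdeg]; omega), hdeg]
    rw [← h1, QP_eq]
    unfold QA
    rw [Monic.nextCoeff_prod _ _ fun i _ => monic_X_add_C _]
    simp only [nextCoeff_X_add_C]
    rw [Fintype.sum_option, Fintype.sum_sum_type, ← Finset.sum_add_distrib]
    have : ∀ j, exps β (some (Sum.inl j)) + exps β (some (Sum.inr j)) = 1 := by
      intro j
      unfold exps
      ring
    simp only [this]
    rw [Finset.sum_const, Finset.card_univ, Fintype.card_fin]
    unfold exps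
    push_cast
    ring

/-- odd order -/
theorem fam_odd (hm : 1 ≤ m) {β : Fin m → ℚ} (hβ : ∀ j, ∀ a : ℤ, β j ≠ a + 1 / 2) :
    Fam (2 * m + 1) (QP β) (cm (J0m (2 * m + 1))) (Bz (cm (J0m (2 * m + 1))) (cm (J1m (2 * m + 1) (QP β)))) := by
  refine Fam.ofO (QO_QP hm hβ) fun i j => ?_
  have h1 := QO_QP hm hβ
  have h2 : ∀ i j, SDc (Hp (2 * m + 1) (QA (exps β)) i j) := fun i j => by
    unfold Hp
    rw [Matrix.of_apply]
    exact sdc_hps_g card_exps (exps_ne hβ) (by rw [← QP_eq]; exact h1.toQG) i j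
  rw [QP_eq]
  exact h2 i j

/-- even order -/
theorem fam_even (hm : 1 ≤ m) {β : Fin m → ℚ} (hβ : ∀ j, ∀ a : ℤ, β j ≠ a) :
    Fam (2 * m) (QB β) (cm (Jm (2 * m) (QB β))) (fun _ => cm (Jm (2 * m) (QB β))) := by
  have hβ' : ∀ j, ∀ l : ℕ, (l : ℚ) + β j ≠ 0 ∧ (l : ℚ) + -β j ≠ 0 := by
    intro j l
    constructor
    · intro h
      apply hβ j (-(l : ℤ))
      push_cast
      linear_combination h
    · intro h
      apply hβ j (l : ℤ)
      push_cast
      linear_combination -h
  exact Fam.ofD (QD_QB hm hβ') fun a b => Pool.Agent.Y119.HY.sdc_hps hβ' (QD_QB hm hβ') a b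

end Run7.h893.HO
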