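import Pool.Agent.Y119.HY.Main

/-!
# Local solutions at a singularity with a semisimple residue of rank one and half-integral exponent

The system `Y' = (N0 / z + N1 / (1 - z)) Y` with `N0 ^ 2 = - (p / 2) N0`, `p` odd.
-/

set_option autoImplicit false

open Filter Topology Matrix Pool.Agent.Y119.HY

namespace Run7.h893.HO

variable {n : ℕ}

section growth

attribute [local instance] Matrix.linftyOpNormedAddCommGroup Matrix.linftyOpNormedRing Matrix.linftyOpNormedAlgebra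

variable {N0 : Matrix (Fin n) (Fin n) ℂ}

lemma DD_cube {ν : ℂ} (h : N0 * N0 = ν • N0) (X : Matrix (Fin n) (Fin n) ℂ) :
    DD N0 (DD N0 (DD N0 X)) = ν ^ 2 • DD N0 X := by
  have e2 : DD N0 (DD N0 X) = ν • (X * N0) - (2 : ℂ) • (N0 * X * N0) + ν • (N0 * X) := by
    rw [DD_apply, DD_apply, sub_mul, mul_sub, Matrix.mul_assoc X, h, ← Matrix.mul_assoc N0 N0 X, h, mul_smul_comm,
      smul_mul_assoc, ← Matrix.mul_assoc N0 X N0, two_smul]
    abel
  rw [e2, DD_apply, DD_apply, add_mul, sub_mul, mul_add, mul_sub]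
  simp only [smul_mul_assoc, mul_smul_comm]
  have e3 : X * N0 * N0 = ν • (X * N0) := by rw [Matrix.mul_assoc, h, mul_smul_comm]
  have e4 : N0 * X * N0 * N0 = ν • (N0 * X * N0) := by rw [Matrix.mul_assoc, h, mul_smul_comm]
  have e5 : N0 * (N0 * X * N0) = ν • (N0 * X * N0) := by
    rw [← Matrix.mul_assoc, ← Matrix.mul_assoc, h, smul_mul_assoc, smul_mul_assoc]
  have e6 : N0 * (N0 * X) = ν • (N0 * X) := by rw [← Matrix.mul_assoc, h, smul_mul_assoc]
  have e7 : N0 * (X * N0) = N0 * X * N0 := by rw [Matrix.mul_assoc]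
  rw [e3, e4, e5, e6, e7]
  simp only [smul_sub, smul_smul]
  rw [sq]
  ext i j
  simp only [Matrix.add_apply, Matrix.sub_apply, Matrix.smul_apply, smul_eq_mul]
  ring

/-- the inverse of `κ + D` -/
noncomputable def RI (N0 : Matrix (Fin n) (Fin n) ℂ) (ν κ : ℂ) (Y : Matrix (Fin n) (Fin n) ℂ) :
    Matrix (Fin n) (Fin n) ℂ :=
  κ⁻¹ • Y - (κ ^ 2 - ν ^ 2)⁻¹ • DD N0 Y + (κ⁻¹ * (κ ^ 2 - ν ^ 2)⁻¹) • DD N0 (DD N0 Y)

lemma RI_right {ν κ : ℂ} (h : N0 * N0 = ν • N0) (hκ : κ ≠ 0) (hκν : κ ^ 2 - ν ^ 2 ≠ 0) (Y : Matrix (Fin n) (Fin n) ℂ) :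
    κ • RI N0 ν κ Y + DD N0 (RI N0 ν κ Y) = Y := by
  unfold RI
  rw [map_add, map_sub, map_smul, map_smul, map_smul, DD_cube h]
  ext i j
  simp only [Matrix.add_apply, Matrix.sub_apply, Matrix.smul_apply, smul_eq_mul]
  field_simp
  ring

lemma RI_left {ν κ : ℂ} (h : N0 * N0 = ν • N0) (hκ : κ ≠ 0) (hκν : κ ^ 2 - ν ^ 2 ≠ 0) (Y : Matrix (Fin n) (Fin n) ℂ) :
    RI N0 ν κ (κ • Y + DD N0 Y) = Y := by
  unfold RI
  simp only [map_add, map_smul, DD_cube h]
  ext i j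
  simp only [Matrix.add_apply, Matrix.sub_apply, Matrix.smul_apply, smul_eq_mul]
  field_simp
  ring

lemma half_bound {p : ℕ} (hp : Odd p) (k : ℕ) :
    ((k : ℝ) + 1) / 2 ≤ ‖((k : ℂ) + 1) ^ 2 - (-(p : ℂ) / 2) ^ 2‖ := by
  obtain ⟨m, rfl⟩ := hp
  have e1 : ((k : ℂ) + 1) ^ 2 - (-((2 * m + 1 : ℕ) : ℂ) / 2) ^ 2 =
      (((((2 * (k : ℤ) + 2 - (2 * m + 1) : ℤ)) : ℝ) * (2 * (k : ℝ) + 2 + (2 * m + 1)) / 4 : ℝ) : ℂ) := by
    push_cast
    ring
  rw [e1, Complex.norm_real, Real.norm_eq_abs, abs_div, abs_mul]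
  have h1 : (1 : ℝ) ≤ |(((2 * (k : ℤ) + 2 - (2 * m + 1) : ℤ)) : ℝ)| := by
    have h2 : (1 : ℤ) ≤ |2 * (k : ℤ) + 2 - (2 * m + 1)| := Int.one_le_abs (by omega)
    exact_mod_cast h2
  have h3 : |2 * (k : ℝ) + 2 + (2 * m + 1)| = 2 * (k : ℝ) + 2 + (2 * m + 1) := abs_of_nonneg (by positivity)
  have h4 : |(4 : ℝ)| = 4 := by norm_num
  rw [h3, h4]
  have hk : (0 : ℝ) ≤ k := Nat.cast_nonneg k
  have hm : (0 : ℝ) ≤ m := Nat.cast_nonneg m
  have h5 : 1 * (2 * (k : ℝ) + 2 + (2 * m + 1)) ≤ |(((2 * (k : ℤ) + 2 - (2 * m + 1) : ℤ)) : ℝ)| * (2 * (k : ℝ) + 2 + (2 * m + 1)) :=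
    mul_le_mul_of_nonneg_right h1 (by positivity)
  linarith

lemma half_ne {p : ℕ} (hp : Odd p) (k : ℕ) : ((k : ℂ) + 1) ^ 2 - (-(p : ℂ) / 2) ^ 2 ≠ 0 := by
  intro h0
  have h1 := half_bound hp k
  rw [h0, norm_zero] at h1
  have : (0 : ℝ) ≤ k := Nat.cast_nonneg k
  linarith

/-- existence -/
theorem exists_sol' {p : ℕ} (hp : Odd p) (h : N0 * N0 = (-(p : ℂ) / 2) • N0) (N1 : Matrix (Fin n) (Fin n) ℂ) :
    ∃ H, Sol N0 N1 H := by
  set H : ℕ → Matrix (Fin n) (Fin n) ℂ := fun k => Nat.rec (motive := fun _ => Matrix (Fin n) (Fin n) ℂ) 1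
    (fun k X => RI N0 (-(p : ℂ) / 2) ((k : ℂ) + 1) ((k : ℂ) • X + (X * N0 - N0 * X) + N1 * X)) k with hH
  refine ⟨H, rfl, fun k => ?_⟩
  have h1 : ((k : ℂ) + 1) ≠ 0 := by exact_mod_cast Nat.succ_ne_zero k
  have h2 : H (k + 1) = RI N0 (-(p : ℂ) / 2) ((k : ℂ) + 1) ((k : ℂ) • H k + (H k * N0 - N0 * H k) + N1 * H k) := rfl
  have h3 := RI_right h h1 (half_ne hp k) ((k : ℂ) • H k + (H k * N0 - N0 * H k) + N1 * H k)
  rw [← h2, DD_apply] at h3
  exact h3

lemma RI_norm {p : ℕ} (hp : Odd p) : ∃ K : ℝ, 0 ≤ K ∧ ∀ (k : ℕ) (Y : Matrix (Fin n) (Fin n) ℂ),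
    ‖RI N0 (-(p : ℂ) / 2) ((k : ℂ) + 1) Y‖ ≤ K / ((k : ℝ) + 1) * ‖Y‖ := by
  refine ⟨1 + 2 * (2 * ‖N0‖) + 2 * ((2 * ‖N0‖) * (2 * ‖N0‖)), by positivity, fun k Y => ?_⟩
  have hk : (1 : ℝ) ≤ (k : ℝ) + 1 := by linarith [Nat.cast_nonneg (α := ℝ) k]
  have h1 : ‖((k : ℂ) + 1)‖ = (k : ℝ) + 1 := by
    have : ((k : ℂ) + 1) = (((k : ℝ) + 1 : ℝ) : ℂ) := by push_cast; rfl
    rw [this, Complex.norm_real, Real.norm_of_nonneg (by linarith)]
  have hb := half_bound hp k
  have hinv : ‖(((k : ℂ) + 1) ^ 2 - (-(p : ℂ) / 2) ^ 2)⁻¹‖ ≤ 2 / ((k : ℝ) + 1) := by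
    rw [norm_inv, inv_eq_one_div, div_le_div_iff₀ (lt_of_lt_of_le (by positivity) hb) (by positivity)]
    linarith
  have hinv1 : ‖(((k : ℂ) + 1))⁻¹‖ ≤ 1 := by
    rw [norm_inv, h1]
    exact inv_le_one_of_one_le₀ hk
  have hinv2 : ‖(((k : ℂ) + 1))⁻¹‖ = 1 / ((k : ℝ) + 1) := by
    rw [norm_inv, h1, one_div]
  have hD1 := DD_norm (N0 := N0) Y
  have hD2 : ‖DD N0 (DD N0 Y)‖ ≤ (2 * ‖N0‖) * ((2 * ‖N0‖) * ‖Y‖) :=
    (DD_norm _).trans (mul_le_mul_of_nonneg_left hD1 (by positivity))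
  unfold RI
  have t1 : ‖(((k : ℂ) + 1))⁻¹ • Y‖ ≤ 1 / ((k : ℝ) + 1) * ‖Y‖ := by rw [norm_smul, hinv2]
  have t2 : ‖(((k : ℂ) + 1) ^ 2 - (-(p : ℂ) / 2) ^ 2)⁻¹ • DD N0 Y‖ ≤ 2 / ((k : ℝ) + 1) * ((2 * ‖N0‖) * ‖Y‖) := by
    rw [norm_smul]
    exact mul_le_mul hinv hD1 (norm_nonneg _) (by positivity)
  have t3 : ‖((((k : ℂ) + 1))⁻¹ * (((k : ℂ) + 1) ^ 2 - (-(p : ℂ) / 2) ^ 2)⁻¹) • DD N0 (DD N0 Y)‖ ≤
      2 / ((k : ℝ) + 1) * ((2 * ‖N0‖) * ((2 * ‖N0‖) * ‖Y‖)) := by
    rw [norm_smul, norm_mul]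
    refine mul_le_mul ?_ hD2 (norm_nonneg _) (by positivity)
    calc ‖(((k : ℂ) + 1))⁻¹‖ * ‖(((k : ℂ) + 1) ^ 2 - (-(p : ℂ) / 2) ^ 2)⁻¹‖ ≤ 1 * (2 / ((k : ℝ) + 1)) :=
          mul_le_mul hinv1 hinv (norm_nonneg _) (by positivity)
      _ = _ := one_mul _
  refine (norm_add_le _ _).trans ((add_le_add (norm_sub_le _ _) le_rfl).trans ?_)
  calc _ ≤ 1 / ((k : ℝ) + 1) * ‖Y‖ + 2 / ((k : ℝ) + 1) * ((2 * ‖N0‖) * ‖Y‖) +
        2 / ((k : ℝ) + 1) * ((2 * ‖N0‖) * ((2 * ‖N0‖) * ‖Y‖)) := add_le_add (add_le_add t1 t2) t3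
    _ = _ := by ring

/-- growth -/
theorem growth' {N1 : Matrix (Fin n) (Fin n) ℂ} {H : ℕ → Matrix (Fin n) (Fin n) ℂ} (hH : Sol N0 N1 H)
    {p : ℕ} (hp : Odd p) (h : N0 * N0 = (-(p : ℂ) / 2) • N0) (i j : Fin n) : PG fun k => H k i j := by
  obtain ⟨K, hK0, hK⟩ := RI_norm (N0 := N0) hp
  set K1 : ℝ := K * ‖N1 - 1‖ with hK1
  have hK10 : 0 ≤ K1 := by positivity
  set q : ℕ := ⌈K1⌉₊ with hq
  have hstep : ∀ k, ‖H (k + 1)‖ ≤ (1 + K1 / ((k : ℝ) + 1)) * ‖H k‖ := by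
    intro k
    have h1 : ((k : ℂ) + 1) ≠ 0 := by exact_mod_cast Nat.succ_ne_zero k
    have h2 : ((k : ℂ) + 1) • (H (k + 1) - H k) + DD N0 (H (k + 1) - H k) = (N1 - 1) * H k := by
      have h3 := hH.step k
      rw [DD_apply, sub_mul, mul_sub, sub_mul, one_mul]
      have h4 : ((k : ℂ) + 1) • (H (k + 1) - H k) = ((k : ℂ) + 1) • H (k + 1) - ((k : ℂ) • H k + H k) := by
        rw [smul_sub, add_smul (k : ℂ) 1 (H k), one_smul]
      rw [h4]
      calc _ = (((k : ℂ) + 1) • H (k + 1) + (H (k + 1) * N0 - N0 * H (k + 1))) - (k : ℂ) • H k - H k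
            - (H k * N0 - N0 * H k) := by abel
        _ = _ := by rw [h3]; abel
    have h5 := RI_left h h1 (half_ne hp k) (H (k + 1) - H k)
    rw [h2] at h5
    have h6 : ‖H (k + 1) - H k‖ ≤ K1 / ((k : ℝ) + 1) * ‖H k‖ := by
      rw [← h5]
      refine (hK k _).trans ?_
      calc K / ((k : ℝ) + 1) * ‖(N1 - 1) * H k‖ ≤ K / ((k : ℝ) + 1) * (‖N1 - 1‖ * ‖H k‖) :=
            mul_le_mul_of_nonneg_left (norm_mul_le _ _) (by positivity)
        _ = _ := by rw [hK1]; ring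
    calc ‖H (k + 1)‖ = ‖H k + (H (k + 1) - H k)‖ := by rw [add_sub_cancel]
      _ ≤ ‖H k‖ + ‖H (k + 1) - H k‖ := norm_add_le _ _
      _ ≤ _ := by linarith
  have hbd : ∀ k : ℕ, ‖H k‖ ≤ ‖H 0‖ * ((k : ℝ) + 1) ^ q := by
    intro k
    induction k with
    | zero => simp
    | succ k ih =>
      have hk : (0 : ℝ) < (k : ℝ) + 1 := by positivity
      have h1 : 1 + K1 / ((k : ℝ) + 1) ≤ (1 + 1 / ((k : ℝ) + 1)) ^ q := by
        have h2 := one_add_mul_le_pow (a := 1 / ((k : ℝ) + 1)) (by have : (0 : ℝ) ≤ 1 / ((k : ℝ) + 1) := by positivity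
                                                                   linarith) q
        refine le_trans ?_ h2
        have : K1 ≤ q := Nat.le_ceil _
        rw [mul_one_div]
        gcongr
      calc ‖H (k + 1)‖ ≤ (1 + K1 / ((k : ℝ) + 1)) * ‖H k‖ := hstep k
        _ ≤ (1 + 1 / ((k : ℝ) + 1)) ^ q * (‖H 0‖ * ((k : ℝ) + 1) ^ q) :=
          mul_le_mul h1 ih (norm_nonneg _) (by positivity)
        _ = ‖H 0‖ * ((1 + 1 / ((k : ℝ) + 1)) * ((k : ℝ) + 1)) ^ q := by rw [mul_pow]; ring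
        _ = ‖H 0‖ * (((k + 1 : ℕ) : ℝ) + 1) ^ q := by
          congr 2
          push_cast
          field_simp
  exact ⟨‖H 0‖, q, fun k => (entry_le _ i j).trans (hbd k)⟩

end growth

variable {N0 N1 : Matrix (Fin n) (Fin n) ℂ} {H : ℕ → Matrix (Fin n) (Fin n) ℂ}

/-- the differential equation of the holomorphic part, for solutions of polynomial growth -/
lemma Hf_ode' (hH : Sol N0 N1 H) (hg : ∀ i j, PG fun k => H k i j) {z : ℂ} (hz : ‖z‖ < 1) (hz0 : z ≠ 0) :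
    HD (Hf H) ((1 / z) • (N0 * Hf H z - Hf H z * N0) + (1 / (1 - z)) • (N1 * Hf H z)) z := by
  intro i j
  have hd : HasDerivAt (ps fun k => H k i j) (deriv (ps fun k => H k i j) z) z :=
    ((ps_an (hg i j)) z (by rwa [Metric.mem_ball, dist_zero_right])).differentiableAt.hasDerivAt
  have h1z : (1 - z) ≠ 0 := by
    intro h0
    have : z = 1 := (sub_eq_zero.1 h0).symm
    rw [this, norm_one] at hz
    exact lt_irrefl _ hz
  refine hd.congr_deriv ?_
  have hgl : PG fun k => (N0 * H k) i j := by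
    simp only [Matrix.mul_apply]
    exact PG.sum _ fun l _ => (hg l j).smul _
  have hgr : PG fun k => (H k * N0) i j := by
    simp only [Matrix.mul_apply]
    refine PG.sum _ fun l _ => ?_
    simp only [mul_comm (H _ i l)]
    exact (hg i l).smul _
  have hg1 : PG fun k => (N1 * H k) i j := by
    simp only [Matrix.mul_apply]
    exact PG.sum _ fun l _ => (hg l j).smul _
  have el : ps (fun k => (N0 * H k) i j) z = (N0 * Hf H z) i j := by
    simp only [Matrix.mul_apply]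
    rw [ps_sum _ (fun l _ => (hg l j).smul _) hz]
    exact Finset.sum_congr rfl fun l _ => ps_smul _ _
  have er : ps (fun k => (H k * N0) i j) z = (Hf H z * N0) i j := by
    simp only [Matrix.mul_apply, mul_comm (H _ i _)]
    rw [ps_sum _ (fun l _ => (hg i l).smul _) hz]
    refine Finset.sum_congr rfl fun l _ => ?_
    rw [ps_smul, mul_comm]
    rfl
  have e1 : ps (fun k => (N1 * H k) i j) z = (N1 * Hf H z) i j := by
    simp only [Matrix.mul_apply]
    rw [ps_sum _ (fun l _ => (hg l j).smul _) hz]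
    exact Finset.sum_congr rfl fun l _ => ps_smul _ _
  set D : ℕ → ℂ := fun k => (k : ℂ) * H k i j + ((H k * N0) i j + (-1) * (N0 * H k) i j) with hD
  have hDg : PG D := (hg i j).nat.add (hgr.add (hgl.smul (-1)))
  have eD : ps D z = z * deriv (ps fun k => H k i j) z + ((Hf H z * N0) i j - (N0 * Hf H z) i j) := by
    rw [hD, ps_add (hg i j).nat (hgr.add (hgl.smul (-1))) hz, ps_add hgr (hgl.smul (-1)) hz, ps_smul, el, er,
      ← ps_deriv (hg i j) hz]
    ring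
  have hD0 : D 0 = 0 := by
    rw [hD]
    simp only
    rw [hH.zero]
    simp
  have hDs : ∀ k, D (k + 1) = D k + (N1 * H k) i j := by
    intro k
    have := congrFun (congrFun (hH.step k) i) j
    simp only [Matrix.add_apply, Matrix.smul_apply, Matrix.sub_apply, smul_eq_mul] at this
    rw [hD]
    simp only
    push_cast
    linear_combination this
  have hfin : ps D z = z * (ps D z + (N1 * Hf H z) i j) := by
    conv_lhs => rw [ps_shift hDg hz, hD0, zero_add]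
    congr 1
    simp only [hDs]
    rw [ps_add hDg hg1 hz, e1]
  simp only [Matrix.add_apply, Matrix.smul_apply, Matrix.sub_apply, smul_eq_mul]
  rw [eD] at hfin
  have h2 : (1 - z) * (z * deriv (ps fun k => H k i j) z + ((Hf H z * N0) i j - (N0 * Hf H z) i j)) =
      z * (N1 * Hf H z) i j := by linear_combination hfin
  field_simp
  linear_combination h2

/-- the semisimple part: `w ^ (-p / 2)` on the image of the projector `P` -/
noncomputable def Sf (P : Matrix (Fin n) (Fin n) ℂ) (a : ℂ) : Matrix (Fin n) (Fin n) ℂ := 1 + (a - 1) • P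

/-- the solution at the semisimple singularity -/
noncomputable def Zf (p : ℕ) (P : Matrix (Fin n) (Fin n) ℂ) (H : ℕ → Matrix (Fin n) (Fin n) ℂ) (w : ℂ) :
    Matrix (Fin n) (Fin n) ℂ := Hf H w * Sf P (Complex.exp (-(p : ℂ) / 2 * Complex.log w))

lemma Sf_mul {P : Matrix (Fin n) (Fin n) ℂ} (hP : P * P = P) (a b : ℂ) : Sf P a * Sf P b = Sf P (a * b) := by
  unfold Sf
  rw [add_mul, one_mul, mul_add, mul_one, smul_mul_smul_comm, hP]
  ext i j
  simp only [Matrix.add_apply, Matrix.smul_apply, smul_eq_mul]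
  ring

lemma Sf_one (P : Matrix (Fin n) (Fin n) ℂ) : Sf P 1 = 1 := by
  unfold Sf
  rw [sub_self, zero_smul, add_zero]

theorem Zf_ode {p : ℕ} {P : Matrix (Fin n) (Fin n) ℂ} (hP : P * P = P) (hH : Sol ((-(p : ℂ) / 2) • P) N1 H)
    (hg : ∀ i j, PG fun k => H k i j) {w : ℂ} (hw : ‖w‖ < 1) (hw0 : w ∈ Complex.slitPlane) :
    HD (Zf p P H) (Gm ((-(p : ℂ) / 2) • P) N1 w * Zf p P H w) w := by
  have hw0' : w ≠ 0 := Complex.slitPlane_ne_zero hw0
  have h1 := Hf_ode' hH hg hw hw0'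
  set a : ℂ := Complex.exp (-(p : ℂ) / 2 * Complex.log w) with ha
  have h2 : HD (fun w => Sf P (Complex.exp (-(p : ℂ) / 2 * Complex.log w))) ((1 / w) • (((-(p : ℂ) / 2) • P) * Sf P a)) w := by
    intro i j
    have h3 : HasDerivAt (fun w => Complex.exp (-(p : ℂ) / 2 * Complex.log w)) (a * (-(p : ℂ) / 2 * w⁻¹)) w :=
      ((Complex.hasDerivAt_log hw0).const_mul (-(p : ℂ) / 2)).cexp
    have h4 : ((1 / w) • (((-(p : ℂ) / 2) • P) * Sf P a)) i j = a * (-(p : ℂ) / 2 * w⁻¹) * P i j := by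
      unfold Sf
      rw [mul_add, mul_one, smul_mul_assoc, mul_smul_comm, hP]
      simp only [Matrix.add_apply, Matrix.smul_apply, smul_eq_mul]
      field_simp
      ring
    rw [h4]
    unfold Sf
    simp only [Matrix.add_apply, Matrix.smul_apply, smul_eq_mul]
    exact ((h3.sub_const 1).mul_const _).const_add _
  refine (h1.mul h2).congr ?_
  show _ = Gm ((-(p : ℂ) / 2) • P) N1 w * (Hf H w * Sf P a)
  unfold Gm
  simp only [add_mul, smul_mul_assoc, sub_mul, mul_smul_comm, Matrix.mul_assoc, smul_sub]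
  abel

/-- the values on the real axis in the coordinate `w = exp (-2u)` -/
lemma Zf_real (p : ℕ) (P : Matrix (Fin n) (Fin n) ℂ) (K : ℕ → Matrix (Fin n) (Fin n) ℂ) {u : ℝ} :
    Zf p P K ((Real.exp (-2 * u) : ℝ) : ℂ) = Hf K (Complex.exp (-2 * u)) * Sf P (Complex.exp (p * u)) := by
  unfold Zf
  have h1 : Complex.log ((Real.exp (-2 * u) : ℝ) : ℂ) = ((-2 * u : ℝ) : ℂ) := by
    rw [← Complex.ofReal_log (Real.exp_pos _).le, Real.log_exp]
  rw [h1, Complex.ofReal_exp]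
  congr 2
  · push_cast; rfl
  · congr 1
    push_cast
    ring

/-- **the monodromy at the semisimple singularity preserves the relations** -/
theorem refl_mem_Gal {p : ℕ} (hp : Odd p) {P : Matrix (Fin n) (Fin n) ℂ} (hP : P * P = P)
    {K : ℕ → Matrix (Fin n) (Fin n) ℂ} (hg : ∀ i j, PG fun k => K k i j) {Y : ℂ → Matrix (Fin n) (Fin n) ℂ}
    {M Mi : Matrix (Fin n) (Fin n) ℂ} (hMi : M * Mi = 1)
    (hY : ∀ x : ℝ, 0 < x → x < 1 → Y x = Zf p P K (1 - (x : ℂ)) * M) : Mi * Sf P (-1) * M ∈ Gal Y := by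
  intro R hR x hx hx1
  -- the function on the half plane
  set F : ℂ → ℂ := fun u => ev R (1 - Complex.exp (-2 * u)) (Complex.log (1 - Complex.exp (-2 * u)))
    (Hf K (Complex.exp (-2 * u)) * Sf P (Complex.exp (p * u)) * M) with hF
  set U : Set ℂ := {u | 0 < u.re} with hU
  have hUo : IsOpen U := isOpen_lt continuous_const Complex.continuous_re
  have hUc : IsPreconnected U := (convex_halfSpace_re_gt 0).isPreconnected
  have hexp : ∀ u ∈ U, ‖Complex.exp (-2 * u)‖ < 1 := by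
    intro u hu
    rw [Complex.norm_exp, Real.exp_lt_one_iff]
    have h1 : (-2 * u).re = -2 * u.re := by simp
    have h2 : 0 < u.re := hu
    rw [h1]
    linarith
  have hslit : ∀ u ∈ U, 1 - Complex.exp (-2 * u) ∈ Complex.slitPlane := by
    intro u hu
    left
    have h1 := hexp u hu
    have h2 : (Complex.exp (-2 * u)).re ≤ ‖Complex.exp (-2 * u)‖ := Complex.re_le_norm _
    rw [Complex.sub_re, Complex.one_re]
    linarith
  have han1 : AnalyticOnNhd ℂ (fun u : ℂ => Complex.exp (-2 * u)) U := fun u _ =>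
    (analyticAt_const.mul analyticAt_id).cexp
  have hFan : AnalyticOnNhd ℂ F U := by
    have hpt : ∀ o : Vr n, AnalyticOnNhd ℂ (fun u => pt (1 - Complex.exp (-2 * u)) (Complex.log (1 - Complex.exp (-2 * u)))
        (Hf K (Complex.exp (-2 * u)) * Sf P (Complex.exp (p * u)) * M) o) U := by
      intro o
      rcases o with _ | _ | x
      · exact analyticOnNhd_const.sub han1
      · exact fun u hu => (analyticAt_const.sub (han1 u hu)).clog (hslit u hu)
      · simp only [pt, Option.elim_some, Matrix.mul_apply]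
        refine Finset.analyticOnNhd_fun_sum _ fun l _ => AnalyticOnNhd.mul ?_ analyticOnNhd_const
        refine Finset.analyticOnNhd_fun_sum _ fun k _ => AnalyticOnNhd.mul ?_ ?_
        · intro u hu
          have h3 : AnalyticAt ℂ (fun w => Hf K w x.1 k) (Complex.exp (-2 * u)) := ps_an (hg x.1 k) _ (by
            rw [Metric.mem_ball, dist_zero_right]
            exact hexp u hu)
          exact AnalyticAt.fun_comp (g := fun w => Hf K w x.1 k) (f := fun u : ℂ => Complex.exp (-2 * u)) h3 (han1 u hu)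
        · unfold Sf
          simp only [Matrix.add_apply, Matrix.smul_apply, smul_eq_mul]
          refine analyticOnNhd_const.add (AnalyticOnNhd.mul ?_ analyticOnNhd_const)
          exact fun u _ => ((analyticAt_const.mul analyticAt_id).cexp).sub analyticAt_const
    rw [hF]
    unfold ev
    clear hF hR
    induction R using MvPolynomial.induction_on with
    | C a => simpa using analyticOnNhd_const
    | add q r hq hr => simp only [map_add]; exact hq.add hr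
    | mul_X q i hq => simp only [map_mul, MvPolynomial.eval_X]; exact hq.mul (hpt i)
  have hzero : ∀ u : ℝ, 0 < u → F u = 0 := by
    intro u hu
    have h1 : 0 < 1 - Real.exp (-2 * u) := by
      have : Real.exp (-2 * u) < 1 := by rw [Real.exp_lt_one_iff]; linarith
      linarith
    have h2 : 1 - Real.exp (-2 * u) < 1 := by linarith [Real.exp_pos (-2 * u)]
    have h3 := hR (1 - Real.exp (-2 * u)) h1 h2
    rw [hY _ h1 h2] at h3
    have e1 : (1 - ((1 - Real.exp (-2 * u) : ℝ) : ℂ)) = ((Real.exp (-2 * u) : ℝ) : ℂ) := by push_cast; ring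
    rw [e1, Zf_real] at h3
    have e2 : ((1 - Real.exp (-2 * u) : ℝ) : ℂ) = 1 - Complex.exp (-2 * u) := by push_cast; rfl
    rw [e2] at h3
    exact h3
  have hall : ∀ u ∈ U, F u = 0 := by
    have h1 : (1 : ℂ) ∈ U := by
      show (0 : ℝ) < (1 : ℂ).re
      simp
    refine hFan.eqOn_zero_of_preconnected_of_frequently_eq_zero hUc h1 ?_
    rw [Filter.frequently_iff]
    intro W hW
    rw [mem_nhdsWithin_iff_exists_mem_nhds_inter] at hW
    obtain ⟨W', hW', hsub⟩ := hW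
    obtain ⟨ε, hε, hball⟩ := Metric.mem_nhds_iff.1 hW'
    refine ⟨((1 + ε / 2 : ℝ) : ℂ), hsub ⟨hball ?_, ?_⟩, hzero _ (by linarith)⟩
    · rw [Metric.mem_ball, dist_eq_norm]
      have : ((1 + ε / 2 : ℝ) : ℂ) - 1 = ((ε / 2 : ℝ) : ℂ) := by push_cast; ring
      rw [this, Complex.norm_real, Real.norm_of_nonneg (by linarith)]
      linarith
    · intro h2
      have h3 : ((1 + ε / 2 : ℝ) : ℂ) = 1 := h2
      have h4 : (1 + ε / 2 : ℝ) = 1 := by exact_mod_cast h3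
      linarith
  -- the value at the other side
  set u : ℝ := -(1 / 2) * Real.log (1 - x) with hu
  have hu0 : 0 < u := by
    have : Real.log (1 - x) < 0 := Real.log_neg (by linarith) (by linarith)
    rw [hu]
    linarith
  have hux : Real.exp (-2 * u) = 1 - x := by
    have : -2 * u = Real.log (1 - x) := by rw [hu]; ring
    rw [this, Real.exp_log (by linarith)]
  have h1 := hall (u + Complex.I * Real.pi) (by
    show (0 : ℝ) < ((u : ℂ) + Complex.I * Real.pi).re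
    simpa using hu0)
  have e1 : Complex.exp (-2 * ((u : ℂ) + Complex.I * Real.pi)) = 1 - (x : ℂ) := by
    have h2 : -2 * ((u : ℂ) + Complex.I * Real.pi) = ((-2 * u : ℝ) : ℂ) - 2 * Real.pi * Complex.I := by push_cast; ring
    rw [h2, Complex.exp_sub, Complex.exp_two_pi_mul_I, div_one, ← Complex.ofReal_exp, hux]
    push_cast
    rfl
  have e2 : Complex.exp (p * ((u : ℂ) + Complex.I * Real.pi)) = -Complex.exp (p * u) := by
    rw [mul_add, Complex.exp_add]
    have h2 : Complex.exp ((p : ℂ) * (Complex.I * Real.pi)) = -1 := by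
      rw [Complex.exp_nat_mul, mul_comm Complex.I, Complex.exp_pi_mul_I]
      exact hp.neg_one_pow
    rw [h2]
    ring
  rw [hF] at h1
  simp only [e1, e2] at h1
  rw [sub_sub_cancel] at h1
  -- the matrix
  have e3 : Y x * (Mi * Sf P (-1) * M) = Hf K (1 - (x : ℂ)) * Sf P (-Complex.exp (p * u)) * M := by
    rw [hY x hx hx1]
    have e4 : (1 - (x : ℂ)) = ((Real.exp (-2 * u) : ℝ) : ℂ) := by rw [hux]; push_cast; rfl
    have e5 : Complex.exp (-2 * (u : ℂ)) = ((Real.exp (-2 * u) : ℝ) : ℂ) := by push_cast; rfl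
    rw [e4, Zf_real, e5]
    calc _ = Hf K ((Real.exp (-2 * u) : ℝ) : ℂ) * Sf P (Complex.exp (p * u)) * (M * Mi) * Sf P (-1) * M := by
          simp only [Matrix.mul_assoc]
      _ = Hf K ((Real.exp (-2 * u) : ℝ) : ℂ) * (Sf P (Complex.exp (p * u)) * Sf P (-1)) * M := by
          rw [hMi, mul_one, Matrix.mul_assoc (Hf K _)]
      _ = _ := by rw [Sf_mul hP, mul_neg_one]
  rw [e3]
  exact h1

end Run7.h893.HO
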