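import Pool.Agent.Run7.h893.HO.Grp
import Pool.Agent.Run7.h893.HO.Loc

/-!
# Systems with a regular unipotent monodromy at `0` and a reflection at `1`: all relations are invariant under the
orthogonal group
-/

set_option autoImplicit false

open Filter Topology Matrix Polynomial Pool.Agent.Y119.HY

namespace Run7.h893.HO

variable {n : ℕ}

/-! ### closedness of the group of the relations -/

lemma homog (x L : ℂ) (Y : Matrix (Fin n) (Fin n) ℂ) (M : Matrix (Fin n) (Fin n) ℂ[X]) (d : ℂ[X]) (R : MvPolynomial (Vr n) ℂ) :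
    ∃ (D : ℕ) (q : ℂ[X]), ∀ c, d.eval c ≠ 0 →
      q.eval c = (d.eval c) ^ D * ev R x L (Y * ((d.eval c)⁻¹ • M.map (Polynomial.eval c))) := by
  unfold ev
  induction R using MvPolynomial.induction_on with
  | C a => exact ⟨0, C a, fun c _ => by simp⟩
  | add p r hp hr =>
    obtain ⟨D1, q1, h1⟩ := hp
    obtain ⟨D2, q2, h2⟩ := hr
    refine ⟨D1 + D2, q1 * d ^ D2 + q2 * d ^ D1, fun c hc => ?_⟩
    rw [eval_add, eval_mul, eval_mul, eval_pow, eval_pow, h1 c hc, h2 c hc, map_add]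
    ring
  | mul_X p i hp =>
    obtain ⟨D1, q1, h1⟩ := hp
    have hi : ∃ a : ℂ[X], ∀ c, d.eval c ≠ 0 →
        a.eval c = d.eval c * pt x L (Y * ((d.eval c)⁻¹ • M.map (Polynomial.eval c))) i := by
      rcases i with _ | _ | ⟨i, j⟩
      · exact ⟨C x * d, fun c _ => by
          rw [eval_mul, eval_C, mul_comm]
          rfl⟩
      · exact ⟨C L * d, fun c _ => by
          rw [eval_mul, eval_C, mul_comm]
          rfl⟩
      · refine ⟨∑ k, C (Y i k) * M k j, fun c hc => ?_⟩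
        show _ = d.eval c * (Y * ((d.eval c)⁻¹ • M.map (Polynomial.eval c))) i j
        rw [Matrix.mul_smul, Matrix.smul_apply, smul_eq_mul, ← mul_assoc, mul_inv_cancel₀ hc, one_mul, Matrix.mul_apply,
          eval_finsetSum]
        refine Finset.sum_congr rfl fun k _ => ?_
        rw [eval_mul, eval_C, Matrix.map_apply]
    obtain ⟨a, ha⟩ := hi
    refine ⟨D1 + 1, q1 * a, fun c hc => ?_⟩
    rw [eval_mul, h1 c hc, ha c hc, map_mul, MvPolynomial.eval_X]
    ring

lemma Gal_ZC (Y : ℂ → Matrix (Fin n) (Fin n) ℂ) : ZC (Gal Y : Set (Matrix (Fin n) (Fin n) ℂ)) := by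
  intro M d T hT h c hc R hR x hx hx1
  obtain ⟨D, q, hq⟩ := homog (x : ℂ) (Complex.log x) (Y (x : ℂ)) M d R
  have h0 : q = 0 := by
    refine Polynomial.eq_zero_of_infinite_isRoot q (hT.mono ?_)
    intro c hc
    obtain ⟨h1, h2⟩ := h c hc
    show q.eval c = 0
    rw [hq c h1, h2 R hR x hx hx1, mul_zero]
  have h1 := hq c hc
  rw [h0, eval_zero] at h1
  exact (mul_eq_zero.1 h1.symm).resolve_left (pow_ne_zero _ hc)

/-! ### a form which depends linearly on the variable -/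

/-- the form -/
def Bz (J0 J1 : Matrix (Fin n) (Fin n) ℂ) (z : ℂ) : Matrix (Fin n) (Fin n) ℂ := J0 - z • J1

variable {J0 J1 A B : Matrix (Fin n) (Fin n) ℂ}

/-- the relation -/
noncomputable def fr (J0 J1 : Matrix (Fin n) (Fin n) ℂ) (i j : Fin n) : MvPolynomial (Vr n) ℂ :=
  (∑ a, ∑ b, MvPolynomial.X (some (some (a, i))) * (MvPolynomial.C (J0 a b) - MvPolynomial.X none * MvPolynomial.C (J1 a b)) *
    MvPolynomial.X (some (some (b, j)))) - MvPolynomial.C (J0 i j)

lemma ev_fr (i j : Fin n) (z L : ℂ) (X : Matrix (Fin n) (Fin n) ℂ) :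
    ev (fr J0 J1 i j) z L X = (X.transpose * Bz J0 J1 z * X) i j - J0 i j := by
  unfold ev fr Bz
  simp only [map_sub, map_sum, map_mul, MvPolynomial.eval_X, MvPolynomial.eval_C]
  congr 1
  simp only [Matrix.mul_apply, Matrix.transpose_apply, Matrix.sub_apply, Matrix.smul_apply, smul_eq_mul]
  rw [Finset.sum_comm]
  refine Finset.sum_congr rfl fun b _ => ?_
  rw [Finset.sum_mul]
  refine Finset.sum_congr rfl fun a _ => ?_
  rfl

/-- elements of the group preserve the form -/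
lemma Gal_form {Y : ℂ → Matrix (Fin n) (Fin n) ℂ}
    (hY : ∀ x : ℝ, 0 < x → x < 1 → (Y x).transpose * Bz J0 J1 x * Y x = J0) {g : Matrix (Fin n) (Fin n) ℂ}
    (hg : g ∈ Gal Y) : g.transpose * J0 * g = J0 := by
  ext i j
  have h1 : fr J0 J1 i j ∈ Rel Y := by
    intro x hx hx1
    rw [ev_fr, hY x hx hx1, sub_self]
  have h2 := hg _ h1 (1 / 2) (by norm_num) (by norm_num)
  rw [ev_fr] at h2
  have h3 := hY (1 / 2) (by norm_num) (by norm_num)
  have h4 : (Y ((1 / 2 : ℝ) : ℂ) * g).transpose * Bz J0 J1 ((1 / 2 : ℝ) : ℂ) * (Y ((1 / 2 : ℝ) : ℂ) * g) =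
      g.transpose * J0 * g := by
    calc _ = g.transpose * ((Y ((1 / 2 : ℝ) : ℂ)).transpose * Bz J0 J1 ((1 / 2 : ℝ) : ℂ) * Y ((1 / 2 : ℝ) : ℂ)) * g := by
          rw [transpose_mul]
          simp only [Matrix.mul_assoc]
      _ = _ := by rw [h3]
  rw [h4] at h2
  exact sub_eq_zero.1 h2

/-- the compatibility of the form with the connection -/
structure Comp (J0 J1 A B : Matrix (Fin n) (Fin n) ℂ) : Prop where
  nil : A ^ n = 0
  symm : J0.transpose = J0
  det : J0.det ≠ 0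
  zero : A.transpose * J0 + J0 * A = 0
  one : B.transpose * J0 + J0 * B = A.transpose * J1 + J1 * A + J1
  two : B.transpose * J1 + J1 * B = A.transpose * J1 + J1 * A + J1

lemma Comp.ode (h : Comp J0 J1 A B) {z : ℂ} (hz : z ≠ 0) (hz1 : 1 - z ≠ 0) :
    (Gm A B z).transpose * Bz J0 J1 z - J1 + Bz J0 J1 z * Gm A B z = 0 := by
  unfold Gm Bz
  have e0 : A.transpose * J0 = -(J0 * A) := eq_neg_of_add_eq_zero_left h.zero
  have e1 : B.transpose * J0 = A.transpose * J1 + J1 * A + J1 - J0 * B := eq_sub_of_add_eq h.one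
  have e2 : B.transpose * J1 = A.transpose * J1 + J1 * A + J1 - J1 * B := eq_sub_of_add_eq h.two
  rw [transpose_add, transpose_smul, transpose_smul, add_mul, mul_add, smul_mul_assoc, smul_mul_assoc, mul_smul_comm,
    mul_smul_comm, mul_sub, mul_sub, sub_mul, sub_mul, mul_smul_comm, mul_smul_comm, smul_mul_assoc, smul_mul_assoc, e0, e1, e2]
  ext i j
  simp only [Matrix.add_apply, Matrix.sub_apply, Matrix.smul_apply, Matrix.neg_apply, Matrix.zero_apply, smul_eq_mul]
  field_simp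
  ring

/-- the pairing of two solutions is constant -/
lemma Comp.pair (h : Comp J0 J1 A B) {Y Z : ℂ → Matrix (Fin n) (Fin n) ℂ} {z : ℂ} (hz : z ≠ 0) (hz1 : 1 - z ≠ 0)
    (hY : HD Y (Gm A B z * Y z) z) (hZ : HD Z (Gm A B z * Z z) z) :
    HD (fun w => (Y w).transpose * Bz J0 J1 w * Z w) 0 z := by
  have hB : HD (fun w => Bz J0 J1 w) (-J1) z := by
    intro i j
    unfold Bz
    simp only [Matrix.sub_apply, Matrix.smul_apply, Matrix.neg_apply, smul_eq_mul]
    have := ((hasDerivAt_id z).mul_const (J1 i j)).const_sub (J0 i j)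
    rw [one_mul] at this
    exact this
  refine ((hY.transpose.mul hB).mul hZ).congr ?_
  rw [transpose_mul]
  calc ((Y z).transpose * (Gm A B z).transpose * Bz J0 J1 z + (Y z).transpose * -J1) * Z z +
        (Y z).transpose * Bz J0 J1 z * (Gm A B z * Z z)
      = (Y z).transpose * ((Gm A B z).transpose * Bz J0 J1 z - J1 + Bz J0 J1 z * Gm A B z) * Z z := by
        simp only [Matrix.mul_assoc, mul_add, add_mul, mul_sub, sub_mul, mul_neg, neg_mul]
        abel
    _ = 0 := by rw [h.ode hz hz1, mul_zero, zero_mul]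

lemma Lens_ne {z : ℂ} (h : z ∈ Lens) : z ≠ 0 ∧ 1 - z ≠ 0 :=
  ⟨Complex.slitPlane_ne_zero (slit_Lens h), Complex.slitPlane_ne_zero (slit_Lens (symm_Lens h))⟩

variable {H : ℕ → Matrix (Fin n) (Fin n) ℂ}

/-- **the form is preserved** -/
theorem self_pair' (h : Comp J0 J1 A B) (hH : Sol A B H) {z : ℂ} (hz : z ∈ Lens) :
    (Yf A H z).transpose * Bz J0 J1 z * Yf A H z = J0 := by
  have h0 := h.nil
  have hhalf : ((1 / 2 : ℝ) : ℂ) ∈ Lens := real_mem_Lens (by norm_num) (by norm_num)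
  set S := (Yf A H ((1 / 2 : ℝ) : ℂ)).transpose * Bz J0 J1 ((1 / 2 : ℝ) : ℂ) * Yf A H ((1 / 2 : ℝ) : ℂ) with hS
  have hconst : ∀ w ∈ Lens, (Yf A H w).transpose * Bz J0 J1 w * Yf A H w = S := by
    intro w hw
    refine const_Lens (F := fun w => (Yf A H w).transpose * Bz J0 J1 w * Yf A H w) (fun x hx => ?_) hw hhalf
    have h1 := Yf_ode hH h0 (mem_Lens.1 hx).1 (slit_Lens hx)
    exact h.pair (Lens_ne hx).1 (Lens_ne hx).2 h1 h1
  rw [hconst z hz]
  have hHan : ∀ i j, AnalyticOnNhd ℂ (fun z => ((Hf H z).transpose * Bz J0 J1 z * Hf H z) i j) (Metric.ball 0 1) := by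
    intro i j
    simp only [Matrix.mul_apply, Matrix.transpose_apply]
    refine Finset.analyticOnNhd_fun_sum _ fun l _ => AnalyticOnNhd.mul ?_ (Hf_an hH h0 l j)
    refine Finset.analyticOnNhd_fun_sum _ fun k _ => ?_
    refine (Hf_an hH h0 k i).mul ?_
    unfold Bz
    simp only [Matrix.sub_apply, Matrix.smul_apply, smul_eq_mul]
    exact analyticOnNhd_const.sub (analyticOnNhd_id.mul analyticOnNhd_const)
  have hlog : ∀ i j : Fin n, ∀ w ∈ Metric.ball (0 : ℂ) 1, C (((Hf H w).transpose * Bz J0 J1 w * Hf H w) i j) +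
      -(((Ep (-A)).transpose * S.map C * Ep (-A)) i j) = 0 := by
    intro i j
    refine PA.log_zero (f := fun w => C (((Hf H w).transpose * Bz J0 J1 w * Hf H w) i j) +
      -(((Ep (-A)).transpose * S.map C * Ep (-A)) i j)) ((PA.ofFun (hHan i j)).add (PA.const _)) fun x hx hx1 => ?_
    have h1 := hconst x (real_mem_Lens hx hx1)
    have h2 : ((Ep (-A)).transpose * S.map C * Ep (-A)).map (Polynomial.eval ((Real.log x : ℝ) : ℂ)) =
        (Hf H x).transpose * Bz J0 J1 x * Hf H x := by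
      rw [map_mul_eval, map_mul_eval, Matrix.transpose_map, map_C_eval, Ep_eval, E_neg, ← h1]
      unfold Yf
      rw [← Complex.ofReal_log hx.le, transpose_mul]
      set L : ℂ := ((Real.log x : ℝ) : ℂ)
      have h3 : E A L * E A (-L) = 1 := E_mul_neg h0 L
      have h4 : (E A (-L)).transpose * (E A L).transpose = 1 := by
        rw [← transpose_mul, h3, transpose_one]
      calc (E A (-L)).transpose * ((E A L).transpose * (Hf H x).transpose * Bz J0 J1 x * (Hf H x * E A L)) * E A (-L)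
          = ((E A (-L)).transpose * (E A L).transpose) * (Hf H x).transpose * Bz J0 J1 x * Hf H x * (E A L * E A (-L)) := by
            simp only [Matrix.mul_assoc]
        _ = _ := by rw [h3, h4, one_mul, mul_one]
    rw [eval_add, eval_neg, eval_C, ← h2]
    simp only [Matrix.map_apply]
    ring
  ext i j
  have h5 := congrArg (Polynomial.eval 0) (hlog i j 0 (Metric.mem_ball_self one_pos))
  have hB0 : Bz J0 J1 0 = J0 := by unfold Bz; rw [zero_smul, sub_zero]
  rw [eval_add, eval_neg, eval_C, Hf_zero hH, transpose_one, one_mul, mul_one, eval_zero, hB0] at h5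
  have h6 : ((Ep (-A)).transpose * S.map C * Ep (-A)).map (Polynomial.eval 0) = S := by
    rw [map_mul_eval, map_mul_eval, Matrix.transpose_map, map_C_eval, Ep_eval, E_zero (by
      rw [neg_pow, h0, mul_zero]), transpose_one, one_mul, mul_one]
  have h7 := congrFun (congrFun h6 i) j
  rw [Matrix.map_apply] at h7
  rw [h7] at h5
  linear_combination -h5

/-- **Connection.** -/
theorem connect' (h : Comp J0 J1 A B) {p : ℕ} {P : Matrix (Fin n) (Fin n) ℂ} (hP : P * P = P)
    (hB : B = ((p : ℂ) / 2) • P) (hH : Sol A B H) {K : ℕ → Matrix (Fin n) (Fin n) ℂ} (hK : Sol (-B) (-A) K)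
    (hg : ∀ i j, PG fun k => K k i j) :
    ∃ M Mi : Matrix (Fin n) (Fin n) ℂ, M * Mi = 1 ∧ Mi * M = 1 ∧ ∀ z ∈ Lens, Yf A H z = Zf p P K (1 - z) * M := by
  have hB' : -B = (-(p : ℂ) / 2) • P := by rw [hB, ← neg_smul, neg_div]
  rw [hB'] at hK
  have hhalf : ((1 / 2 : ℝ) : ℂ) ∈ Lens := real_mem_Lens (by norm_num) (by norm_num)
  have hu : IsUnit J0.det := Ne.isUnit h.det
  set Z : ℂ → Matrix (Fin n) (Fin n) ℂ := fun z => Zf p P K (1 - z) with hZ
  have hYd : ∀ z ∈ Lens, HD (Yf A H) (Gm A B z * Yf A H z) z := fun z hz =>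
    Yf_ode hH h.nil (mem_Lens.1 hz).1 (slit_Lens hz)
  have hZd : ∀ z ∈ Lens, HD Z (Gm A B z * Z z) z := by
    intro z hz
    have hz' := symm_Lens hz
    have h1 := Zf_ode hP hK hg (mem_Lens.1 hz').1 (slit_Lens hz')
    have h2 : HasDerivAt (fun w : ℂ => 1 - w) (-1) z := by
      simpa using (hasDerivAt_id z).const_sub 1
    refine (h1.comp h2).congr ?_
    rw [hZ, ← smul_mul_assoc]
    congr 1
    rw [← hB']
    unfold Gm
    rw [sub_sub_cancel, smul_neg, smul_neg]
    rw [← neg_add, neg_smul, one_smul, neg_neg, add_comm]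
  set W := (Yf A H ((1 / 2 : ℝ) : ℂ)).transpose * Bz J0 J1 ((1 / 2 : ℝ) : ℂ) * Z ((1 / 2 : ℝ) : ℂ) with hW
  have hWc : ∀ z ∈ Lens, (Yf A H z).transpose * Bz J0 J1 z * Z z = W := fun z hz =>
    const_Lens (F := fun z => (Yf A H z).transpose * Bz J0 J1 z * Z z)
      (fun x hx => h.pair (Lens_ne hx).1 (Lens_ne hx).2 (hYd x hx) (hZd x hx)) hz hhalf
  have hinv : ∀ z ∈ Lens, Yf A H z * (J0⁻¹ * (Yf A H z).transpose * Bz J0 J1 z) = 1 := by
    intro z hz
    have h1 : (J0⁻¹ * (Yf A H z).transpose * Bz J0 J1 z) * Yf A H z = 1 := by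
      rw [Matrix.mul_assoc, Matrix.mul_assoc, ← Matrix.mul_assoc _ (Bz J0 J1 z), self_pair' h hH hz,
        nonsing_inv_mul _ hu]
    exact mul_eq_one_comm.1 h1
  have hZC : ∀ z ∈ Lens, Z z = Yf A H z * (J0⁻¹ * W) := by
    intro z hz
    rw [← hWc z hz]
    calc Z z = Yf A H z * (J0⁻¹ * (Yf A H z).transpose * Bz J0 J1 z) * Z z := by rw [hinv z hz, one_mul]
      _ = _ := by simp only [Matrix.mul_assoc]
  -- a point where `Z` is invertible
  obtain ⟨w, hw0, hw1, hwdet⟩ : ∃ w : ℝ, 0 < w ∧ w < 1 ∧ (Hf K (w : ℂ)).det ≠ 0 := by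
    have hcont : ContinuousAt (fun w : ℂ => (Hf K w).det) 0 := by
      have h1 : ContinuousAt (fun w : ℂ => Hf K w) 0 := by
        refine continuousAt_pi.2 fun i => continuousAt_pi.2 fun j => ?_
        exact ((ps_an (hg i j)) 0 (Metric.mem_ball_self one_pos)).continuousAt
      exact (Continuous.matrix_det continuous_id).continuousAt.comp h1
    have h1 : (Hf K 0).det ≠ 0 := by
      rw [Hf_zero hK, det_one]
      exact one_ne_zero
    obtain ⟨ε, hε, hball⟩ := Metric.eventually_nhds_iff.1 (hcont.eventually_ne h1)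
    refine ⟨min (ε / 2) (1 / 2), by positivity, lt_of_le_of_lt (min_le_right _ _) (by norm_num), hball ?_⟩
    have h2 : 0 < min (ε / 2) (1 / 2) := by positivity
    rw [dist_zero_right, Complex.norm_real, Real.norm_of_nonneg h2.le]
    exact lt_of_le_of_lt (min_le_left _ _) (by linarith)
  have hz1 : (((1 - w : ℝ)) : ℂ) ∈ Lens := real_mem_Lens (by linarith) (by linarith)
  have hC : (J0⁻¹ * W).det ≠ 0 := by
    intro h0
    have h1 := congrArg Matrix.det (hZC _ hz1)
    rw [det_mul, h0, mul_zero] at h1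
    have e1 : Z (((1 - w : ℝ)) : ℂ) = Hf K (w : ℂ) * Sf P (Complex.exp (-(p : ℂ) / 2 * Complex.log w)) := by
      have : (1 - (((1 - w : ℝ)) : ℂ)) = (w : ℂ) := by push_cast; ring
      show Zf p P K (1 - (((1 - w : ℝ)) : ℂ)) = _
      rw [this]
      rfl
    rw [e1, det_mul] at h1
    have h2 : (Sf P (Complex.exp (-(p : ℂ) / 2 * Complex.log w))).det ≠ 0 := by
      set a : ℂ := Complex.exp (-(p : ℂ) / 2 * Complex.log w)
      have ha : a ≠ 0 := Complex.exp_ne_zero _
      have h3 := congrArg Matrix.det (Sf_mul hP a a⁻¹)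
      rw [mul_inv_cancel₀ ha, Sf_one, det_one, det_mul] at h3
      intro h4
      rw [h4, zero_mul] at h3
      exact zero_ne_one h3
    exact mul_ne_zero hwdet h2 h1
  have hCu : IsUnit (J0⁻¹ * W).det := Ne.isUnit hC
  refine ⟨(J0⁻¹ * W)⁻¹, J0⁻¹ * W, nonsing_inv_mul _ hCu, mul_nonsing_inv _ hCu, fun z hz => ?_⟩
  show Yf A H z = Z z * (J0⁻¹ * W)⁻¹
  rw [hZC z hz, Matrix.mul_assoc, mul_nonsing_inv _ hCu, mul_one]

/-- **All relations between the solutions are invariant under the orthogonal group.** -/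
theorem invar' (h : Comp J0 J1 A B) {p : ℕ} (hp : Odd p) {u φ e : Fin n → ℂ} (hφu : φ ⬝ᵥ u = 1)
    (hB : B = ((p : ℂ) / 2) • vecMulVec u φ) (hH : Sol A B H) (hAe : A *ᵥ e = 0)
    (hcyc : ∀ v, om J0 v e ≠ 0 → (A ^ (n - 1)) *ᵥ v ≠ 0) (i0 : Fin n)
    (hsing : ∀ g : ℂ → ℂ, AnalyticOnNhd ℂ g (Metric.ball 1 1) → (∀ z ∈ Lens, (Hf H z *ᵥ e) i0 = g z) → False)
    (g : Matrix (Fin n) (Fin n) ℂ) (hg : g.transpose * J0 * g = J0) : g ∈ Gal (Yf A H) := by
  set P : Matrix (Fin n) (Fin n) ℂ := vecMulVec u φ with hPd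
  have hP : P * P = P := by
    rw [hPd, vecMulVec_mul_vecMulVec, hφu, one_smul]
  have hB' : -B = (-(p : ℂ) / 2) • P := by rw [hB, ← neg_smul, neg_div]
  have hBB : (-B) * (-B) = (-(p : ℂ) / 2) • (-B) := by
    rw [hB', smul_mul_smul_comm, hP, smul_smul]
  obtain ⟨K, hK⟩ := exists_sol' hp hBB (-A)
  have hKg : ∀ i j, PG fun k => K k i j := fun i j => growth' hK hp hBB i j
  obtain ⟨M, Mi, hMMi, hMiM, hconn⟩ := connect' h hP hB hH hK hKg
  have hform : ∀ x : ℝ, 0 < x → x < 1 → (Yf A H x).transpose * Bz J0 J1 x * Yf A H x = J0 := fun x hx hx1 =>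
    self_pair' h hH (real_mem_Lens hx hx1)
  have hRmem : Mi * Sf P (-1) * M ∈ Gal (Yf A H) :=
    refl_mem_Gal hp hP hKg hMMi fun x hx hx1 => hconn x (real_mem_Lens hx hx1)
  set v : Fin n → ℂ := Mi *ᵥ u with hv
  set ψ : Fin n → ℂ := φ ᵥ* M with hψ
  have hR : ∀ x : Fin n → ℂ, (Mi * Sf P (-1) * M) *ᵥ x = x - (2 * (ψ ⬝ᵥ x)) • v := by
    intro x
    have e1 : Mi * Sf P (-1) * M = 1 + (-2 : ℂ) • vecMulVec v ψ := by
      unfold Sf
      rw [mul_add, mul_one, add_mul, hMiM, mul_smul_comm, smul_mul_assoc, hPd, mul_vecMulVec, vecMulVec_mul]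
      norm_num
      rfl
    rw [e1, add_mulVec, one_mulVec, smul_mulVec, vecMulVec_mulVec]
    ext i
    simp only [Pi.add_apply, Pi.sub_apply, Pi.smul_apply, MulOpposite.smul_eq_mul_unop, MulOpposite.unop_op, smul_eq_mul]
    ring
  have hψv : ψ ⬝ᵥ v = 1 := by
    rw [hψ, hv, ← dotProduct_mulVec, mulVec_mulVec, hMMi, one_mulVec, hφu]
  have hRJ := Gal_form hform hRmem
  have hsub : ∀ (x y : Fin n → ℂ) (c : ℂ), om J0 (x - c • v) y = om J0 x y - c * om J0 v y := by
    intro x y c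
    rw [sub_eq_add_neg, ← neg_smul, om_add_left, om_smul_left]
    ring
  have hsub' : ∀ (x y : Fin n → ℂ) (c : ℂ), om J0 x (y - c • v) = om J0 x y - c * om J0 x v := by
    intro x y c
    rw [sub_eq_add_neg, ← neg_smul, om_add, om_smul]
    ring
  have hrel : ∀ x : Fin n → ℂ, (ψ ⬝ᵥ x) * om J0 v v = om J0 v x := by
    intro x
    have h1 := om_isom hRJ x v
    rw [hR, hR, hψv, hsub, hsub', hsub', om_symm h.symm v x] at h1
    linear_combination (1 / 2 : ℂ) * h1
  have hv0 : v ≠ 0 := by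
    intro h0
    rw [h0, dotProduct_zero] at hψv
    exact zero_ne_one hψv
  have hvv : om J0 v v ≠ 0 := by
    intro h0
    apply hv0
    apply Matrix.eq_zero_of_vecMul_eq_zero h.det
    funext j
    have h1 := hrel (Pi.single j 1)
    rw [h0, mul_zero, om_eq, dotProduct_single, mul_one] at h1
    exact h1.symm
  have hRrf : Mi * Sf P (-1) * M = rf J0 v := by
    apply Matrix.toLin'.injective
    refine LinearMap.ext fun x => ?_
    rw [toLin'_apply, toLin'_apply, hR, rf_mulVec, ← hrel x]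
    congr 2
    field_simp
  rw [hRrf] at hRmem
  refine o_all h.symm h.det (Gal (Yf A H)) (Gal_ZC _) h.nil h.zero (hcyc v ?_) hvv (fun c g hg => conj_E h.nil hH c g hg)
    hRmem g hg
  intro h0
  have h1 : φ ⬝ᵥ (M *ᵥ e) = 0 := by
    have h2 := hrel e
    rw [h0, hψ, ← dotProduct_mulVec] at h2
    exact (mul_eq_zero.1 h2).resolve_right hvv
  have hPe : ∀ a : ℂ, Sf P a *ᵥ (M *ᵥ e) = M *ᵥ e := by
    intro a
    unfold Sf
    rw [add_mulVec, one_mulVec, smul_mulVec, hPd, vecMulVec_mulVec, h1]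
    simp
  refine hsing (fun z => (Hf K (1 - z) *ᵥ (M *ᵥ e)) i0) ?_ fun z hz => ?_
  · simp only [Matrix.mulVec, dotProduct]
    refine Finset.analyticOnNhd_fun_sum _ fun j _ => AnalyticOnNhd.mul ?_ analyticOnNhd_const
    intro z hz
    have h3 : AnalyticAt ℂ (fun w => Hf K w i0 j) (1 - z) := ps_an (hKg i0 j) (1 - z) (by
      rw [Metric.mem_ball, dist_comm, dist_eq_norm] at hz
      rwa [Metric.mem_ball, dist_zero_right])
    have h4 : AnalyticAt ℂ (fun w : ℂ => 1 - w) z := analyticAt_const.sub analyticAt_id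
    exact h3.fun_comp h4
  · have h3 := congrArg (fun X : Matrix (Fin n) (Fin n) ℂ => X *ᵥ e) (hconn z hz)
    unfold Yf Zf at h3
    rw [← mulVec_mulVec, E_fix hAe, ← mulVec_mulVec, ← mulVec_mulVec, hPe] at h3
    rw [h3]

end Run7.h893.HO
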