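import Pool.Agent.Run7.h893.HO.Gen2
import Pool.Agent.Run7.h893.HO.Inv

/-!
# The quadratic form of a hypergeometric equation of odd order
-/

set_option autoImplicit false

open Matrix Polynomial Pool.Agent.Y119.HY

namespace Run7.h893.HO

/-- monic polynomials of odd degree `n ≥ 3` with `Q(-1-x) = -Q(x)`, without roots at the natural numbers -/
structure QO (n : ℕ) (Q : ℚ[X]) : Prop extends QG n Q where
  odd : Odd n
  sym : Q.comp (-(X + 1)) = -Q
  half : Q.coeff (n - 1) = (n : ℚ) / 2

/-- the quotient of `Q(x) + Q(y)` by `x + y + 1` -/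
noncomputable def bez (Q : ℚ[X]) : ℚ[X][X] := (C Q + Q.map C) /ₘ (X + C (X + 1))

variable {n : ℕ} {Q : ℚ[X]}

lemma bez_mul (hQ : QO n Q) : (X + C (X + 1)) * bez Q = C Q + Q.map C := by
  have e1 : (X + C (X + 1) : ℚ[X][X]) = X - C (-(X + 1)) := by rw [map_neg, sub_neg_eq_add]
  unfold bez
  rw [e1]
  rw [mul_divByMonic_eq_iff_isRoot]
  show eval (-(X + 1)) (C Q + Q.map C) = 0
  rw [eval_add, eval_C, eval_map]
  have h1 : eval₂ C (-(X + 1)) Q = Q.comp (-(X + 1)) := rfl
  rw [h1, hQ.sym, add_neg_cancel]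

/-- the coefficient of `x ^ i y ^ j` -/
noncomputable def kk (Q : ℚ[X]) (i j : ℕ) : ℚ := ((bez Q).coeff j).coeff i

/-- the right hand side -/
noncomputable def rr (Q : ℚ[X]) (i j : ℕ) : ℚ := (if j = 0 then Q.coeff i else 0) + if i = 0 then Q.coeff j else 0

lemma kk_rel (hQ : QO n Q) (i j : ℕ) : (if j = 0 then 0 else kk Q i (j - 1)) + (if i = 0 then 0 else kk Q (i - 1) j) +
    kk Q i j = rr Q i j := by
  have h1 : (((X + C (X + 1)) * bez Q : ℚ[X][X]).coeff j).coeff i = ((C Q + Q.map C : ℚ[X][X]).coeff j).coeff i := by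
    rw [bez_mul hQ]
  have e1 : ((X + C (X + 1)) * bez Q : ℚ[X][X]) = X * bez Q + C (X + 1) * bez Q := by ring
  have e2 : ((X * bez Q).coeff j).coeff i = if j = 0 then 0 else kk Q i (j - 1) := by
    rcases j with _ | j
    · simp
    · rw [coeff_X_mul, if_neg (Nat.succ_ne_zero j)]
      rfl
  have e3 : ((C (X + 1) * bez Q).coeff j).coeff i = (if i = 0 then 0 else kk Q (i - 1) j) + kk Q i j := by
    rw [coeff_C_mul, add_mul, one_mul, coeff_add]
    congr 1
    rcases i with _ | i
    · simp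
    · rw [coeff_X_mul, if_neg (Nat.succ_ne_zero i)]
      rfl
  have e4 : ((C Q + Q.map C : ℚ[X][X]).coeff j).coeff i = rr Q i j := by
    unfold rr
    rw [coeff_add, coeff_add, coeff_C, coeff_map, coeff_C]
    congr 1
    split_ifs <;> simp
  rw [e1, coeff_add, coeff_add, e2, e3, e4] at h1
  rw [add_assoc]
  exact h1

lemma kk_symm (hQ : QO n Q) (i j : ℕ) : kk Q i j = kk Q j i := by
  have key : ∀ s : ℕ, ∀ i j : ℕ, i + j = s → kk Q i j = kk Q j i := by
    intro s
    induction s using Nat.strong_induction_on with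
    | _ s ih =>
      intro i j hij
      have h1 := kk_rel hQ i j
      have h2 := kk_rel hQ j i
      have h3 : rr Q i j = rr Q j i := by
        unfold rr
        rw [add_comm]
      have h4 : (if j = 0 then 0 else kk Q i (j - 1)) = if j = 0 then 0 else kk Q (j - 1) i := by
        split_ifs with h
        · rfl
        · exact ih (i + (j - 1)) (by omega) _ _ rfl
      have h5 : (if i = 0 then 0 else kk Q (i - 1) j) = if i = 0 then 0 else kk Q j (i - 1) := by
        split_ifs with h
        · rfl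
        · exact ih (i - 1 + j) (by omega) _ _ rfl
      rw [h4, h5] at h1
      linear_combination h1 - h2 + h3
  exact key _ i j rfl

lemma bez_deg (hQ : QO n Q) : (bez Q).natDegree = n - 1 := by
  unfold bez
  have hm : (X + C (X + 1) : ℚ[X][X]).Monic := monic_X_add_C _
  rw [natDegree_divByMonic _ hm, natDegree_X_add_C]
  congr 1
  have h1 : (Q.map C : ℚ[X][X]).natDegree = n := by
    rw [natDegree_map_eq_of_injective C_injective, hQ.deg]
  have hn := hQ.two
  rw [natDegree_add_eq_right_of_natDegree_lt]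
  · exact h1
  · rw [natDegree_C, h1]
    omega

lemma bez_lead (hQ : QO n Q) : (bez Q).coeff (n - 1) = 1 := by
  have hn := hQ.two
  have h1 : ((X + C (X + 1)) * bez Q : ℚ[X][X]).coeff n = (C Q + Q.map C : ℚ[X][X]).coeff n := by
    rw [bez_mul hQ]
  have e1 : ((X + C (X + 1)) * bez Q : ℚ[X][X]) = X * bez Q + C (X + 1) * bez Q := by ring
  obtain ⟨m, rfl⟩ := Nat.exists_eq_succ_of_ne_zero (show n ≠ 0 by omega)
  rw [e1, coeff_add, coeff_X_mul, coeff_C_mul, coeff_eq_zero_of_natDegree_lt (n := m + 1) (by rw [bez_deg hQ]; omega), mul_zero, add_zero,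
    coeff_add, coeff_C, if_neg (Nat.succ_ne_zero m), coeff_map, zero_add] at h1
  have h2 : Q.coeff (m + 1) = 1 := by
    have := hQ.monic.coeff_natDegree
    rwa [hQ.deg] at this
  rw [h2, C_1] at h1
  exact h1

lemma kk_last (hQ : QO n Q) (i : ℕ) : kk Q i (n - 1) = if i = 0 then 1 else 0 := by
  unfold kk
  rw [bez_lead hQ, coeff_one]

lemma kk_last' (hQ : QO n Q) (j : ℕ) : kk Q (n - 1) j = if j = 0 then 1 else 0 := by
  rw [kk_symm hQ, kk_last hQ]

/-- the form at `z = 0` -/
def J0m (n : ℕ) : Matrix (Fin n) (Fin n) ℚ := Matrix.of fun i j => if (i : ℕ) + j + 1 = n then (-1) ^ (i : ℕ) else 0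

/-- the coefficient of `- z` in the form -/
noncomputable def J1m (n : ℕ) (Q : ℚ[X]) : Matrix (Fin n) (Fin n) ℚ := Matrix.of fun i j => kk Q i j

lemma trans_Am_mul (M : Matrix (Fin n) (Fin n) ℚ) (i j : Fin n) : ((Am n).transpose * M) i j =
    if h : (i : ℕ) = 0 then 0 else M ⟨i - 1, by omega⟩ j := by
  have h1 : ((Am n).transpose * M) i j = (M.transpose * Am n) j i := by
    rw [← Matrix.transpose_apply (M.transpose * Am n), Matrix.transpose_mul, Matrix.transpose_transpose]
  rw [h1, mul_Am]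
  rfl

lemma J0m_symm (hn : Odd n) : (J0m n).transpose = J0m n := by
  ext i j
  rw [Matrix.transpose_apply]
  unfold J0m
  rw [Matrix.of_apply, Matrix.of_apply]
  by_cases h : (i : ℕ) + j + 1 = n
  · rw [if_pos h, if_pos (by omega)]
    obtain ⟨m, hm⟩ := hn
    have h1 : Even ((i : ℕ) + j) := ⟨m, by omega⟩
    rcases Nat.even_or_odd (i : ℕ) with h2 | h2
    · have h3 : Even (j : ℕ) := (Nat.even_add.1 h1).1 h2
      rw [h2.neg_one_pow, h3.neg_one_pow]
    · have h3 : Odd (j : ℕ) := by
        rw [← Nat.not_even_iff_odd] at h2 ⊢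
        exact fun h => h2 ((Nat.even_add.1 h1).2 h)
      rw [h2.neg_one_pow, h3.neg_one_pow]
  · rw [if_neg h, if_neg (by omega)]

lemma J0m_det : (J0m n).det ≠ 0 := by
  have h1 := Matrix.det_permute' (Fin.revPerm : Equiv.Perm (Fin n)) (J0m n)
  have h2 : ((J0m n).submatrix id (Fin.revPerm : Equiv.Perm (Fin n))).det = ∏ i : Fin n, (-1) ^ (i : ℕ) := by
    rw [Matrix.det_of_isLowerTriangular]
    · refine Finset.prod_congr rfl fun i _ => ?_
      rw [Matrix.submatrix_apply]
      unfold J0m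
      simp only [Matrix.of_apply, id, Fin.revPerm_apply, Fin.val_rev]
      have := i.2
      rw [if_pos (by omega)]
    · intro i j hij
      have hij' : (i : ℕ) < j := hij
      rw [Matrix.submatrix_apply]
      unfold J0m
      simp only [Matrix.of_apply, id, Fin.revPerm_apply, Fin.val_rev]
      have := j.2
      rw [if_neg (by omega)]
  have h3 : ((J0m n).submatrix id (Fin.revPerm : Equiv.Perm (Fin n))).det ≠ 0 := by
    rw [h2]
    exact Finset.prod_ne_zero_iff.2 fun i _ => pow_ne_zero _ (by norm_num)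
  intro h0
  rw [h0, mul_zero] at h1
  exact h3 h1

lemma J0m_rel : (Am n).transpose * J0m n + J0m n * Am n = 0 := by
  ext i j
  rw [Matrix.add_apply, Matrix.zero_apply, mul_Am, trans_Am_mul]
  have hi := i.2
  have hj := j.2
  unfold J0m
  simp only [Matrix.of_apply]
  by_cases hi0 : (i : ℕ) = 0
  · rw [dif_pos hi0, zero_add]
    by_cases hj0 : (j : ℕ) = 0
    · rw [dif_pos hj0]
    · rw [dif_neg hj0, if_neg (by omega)]
  · rw [dif_neg hi0]
    by_cases hj0 : (j : ℕ) = 0
    · rw [dif_pos hj0, if_neg (by omega), add_zero]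
    · rw [dif_neg hj0]
      by_cases h : (i : ℕ) + j = n
      · rw [if_pos (by omega), if_pos (by omega)]
        obtain ⟨r, hr⟩ := Nat.exists_eq_succ_of_ne_zero hi0
        rw [hr]
        simp only [Nat.succ_eq_add_one, Nat.add_sub_cancel, pow_succ]
        ring
      · rw [if_neg (by omega), if_neg (by omega), add_zero]

lemma K_rel (hQ : QO n Q) (i j : Fin n) : ((Am n).transpose * J1m n Q + J1m n Q * Am n + J1m n Q) i j = rr Q i j := by
  rw [Matrix.add_apply, Matrix.add_apply, mul_Am, trans_Am_mul, ← kk_rel hQ]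
  unfold J1m
  simp only [Matrix.of_apply]
  split_ifs <;> ring

/-- the product with the last row -/
lemma tBm_mul (hn : 1 ≤ n) (M : Matrix (Fin n) (Fin n) ℚ) (i j : Fin n) :
    ((Bm n Q).transpose * M) i j = Q.coeff i * M ⟨n - 1, by omega⟩ j := by
  rw [Matrix.mul_apply, Finset.sum_eq_single ⟨n - 1, by omega⟩]
  · rw [Matrix.transpose_apply]
    unfold Bm
    rw [Matrix.of_apply, if_pos (by simp only; omega)]
  · intro b _ hb
    rw [Matrix.transpose_apply]
    unfold Bm
    rw [Matrix.of_apply, if_neg, zero_mul]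
    intro h'
    exact hb (Fin.ext (by simp only; omega))
  · intro h'
    exact absurd (Finset.mem_univ _) h'

lemma mul_Bm' (hn : 1 ≤ n) (M : Matrix (Fin n) (Fin n) ℚ) (i j : Fin n) :
    (M * Bm n Q) i j = M i ⟨n - 1, by omega⟩ * Q.coeff j := by
  have h1 : (M * Bm n Q) i j = ((Bm n Q).transpose * M.transpose) j i := by
    rw [← Matrix.transpose_mul, Matrix.transpose_apply]
  rw [h1, tBm_mul hn, Matrix.transpose_apply, mul_comm]

lemma one_q (hQ : QO n Q) : (Bm n Q).transpose * J0m n + J0m n * Bm n Q =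
    (Am n).transpose * J1m n Q + J1m n Q * Am n + J1m n Q := by
  have hn := hQ.two
  ext i j
  rw [K_rel hQ, Matrix.add_apply, tBm_mul (by omega), mul_Bm' (by omega)]
  have h1 : Even (n - 1) := by
    obtain ⟨m, hm⟩ := hQ.odd
    exact ⟨m, by omega⟩
  have hi := i.2
  have hj := j.2
  unfold J0m rr
  simp only [Matrix.of_apply]
  rw [h1.neg_one_pow]
  congr 1
  · by_cases h : (j : ℕ) = 0
    · rw [if_pos (by omega), if_pos h, mul_one]
    · rw [if_neg (by omega), if_neg h, mul_zero]
  · by_cases h : (i : ℕ) = 0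
    · rw [if_pos (by omega), if_pos h, h, pow_zero, one_mul]
    · rw [if_neg (by omega), if_neg h, zero_mul]

lemma two_q (hQ : QO n Q) : (Bm n Q).transpose * J1m n Q + J1m n Q * Bm n Q =
    (Am n).transpose * J1m n Q + J1m n Q * Am n + J1m n Q := by
  have hn := hQ.two
  ext i j
  rw [K_rel hQ, Matrix.add_apply, tBm_mul (by omega), mul_Bm' (by omega)]
  unfold J1m rr
  simp only [Matrix.of_apply]
  rw [kk_last hQ, kk_last' hQ]
  congr 1
  · split_ifs <;> ring
  · split_ifs <;> ring

/-- the compatibility -/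
lemma comp_q (hQ : QO n Q) : Comp (cm (J0m n)) (cm (J1m n Q)) (cm (Am n)) (cm (Bm n Q)) where
  nil := Ac_nil
  symm := by rw [← cm_transpose, J0m_symm hQ.odd]
  det := by
    have h : (cm (J0m n)).det = (((J0m n).det : ℚ) : ℂ) := by
      unfold cm
      rw [← RingHom.map_det]
      rfl
    rw [h]
    exact_mod_cast J0m_det
  zero := by
    rw [← cm_transpose, ← cm_mul, ← cm_mul, ← cm_add, J0m_rel, cm_zero]
  one := by
    rw [← cm_transpose, ← cm_transpose, ← cm_mul, ← cm_mul, ← cm_add, one_q hQ, cm_add, cm_add, cm_mul, cm_mul]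
  two := by
    rw [← cm_transpose, ← cm_transpose, ← cm_mul, ← cm_mul, ← cm_add, two_q hQ, cm_add, cm_add, cm_mul, cm_mul]

/-! ### invariance of the relations -/

/-- the row -/
noncomputable def phi (n : ℕ) (Q : ℚ[X]) : Fin n → ℂ := fun j => (2 / (n : ℂ)) * ((Q.coeff j : ℚ) : ℂ)

lemma phi_uc (hQ : QO n Q) : phi n Q ⬝ᵥ uc n = 1 := by
  have hn := hQ.two
  unfold phi uc dotProduct
  rw [Finset.sum_eq_single ⟨n - 1, by omega⟩]
  · simp only
    rw [if_pos (by omega), hQ.half]
    have : (n : ℂ) ≠ 0 := by exact_mod_cast (show n ≠ 0 by omega)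
    push_cast
    field_simp
  · intro b _ hb
    simp only
    rw [if_neg, mul_zero]
    intro h'
    exact hb (Fin.ext (by simp only; omega))
  · intro h'
    exact absurd (Finset.mem_univ _) h'

lemma Bm_phi (hQ : QO n Q) : cm (Bm n Q) = ((n : ℂ) / 2) • vecMulVec (uc n) (phi n Q) := by
  have hn := hQ.two
  have hn0 : (n : ℂ) ≠ 0 := by exact_mod_cast (show n ≠ 0 by omega)
  ext i j
  rw [cm_apply, Matrix.smul_apply, vecMulVec_apply]
  unfold Bm uc phi
  rw [Matrix.of_apply]
  split_ifs
  · rw [one_mul, smul_eq_mul]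
    field_simp
  · simp

/-- `(v, e_0)` is the last coordinate of `v`, up to sign -/
lemma om_e0 (hn : 1 ≤ n) (v : Fin n → ℂ) : om (cm (J0m n)) v (ec n) = v ⟨n - 1, by omega⟩ * (-1) ^ (n - 1) := by
  unfold om
  rw [dotProduct, Finset.sum_eq_single ⟨n - 1, by omega⟩]
  · congr 1
    rw [mv_apply, Finset.sum_eq_single ⟨0, by omega⟩]
    · unfold ec J0m
      rw [cm_apply, Matrix.of_apply, if_pos (by simp only; omega), if_pos rfl, mul_one]
      push_cast
      rfl
    · intro b _ hb
      unfold ec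
      rw [if_neg, mul_zero]
      intro h'
      exact hb (Fin.ext h')
    · intro h'
      exact absurd (Finset.mem_univ _) h'
  · intro b _ hb
    rw [mv_apply, Finset.sum_eq_zero, mul_zero]
    intro c _
    unfold ec J0m
    rw [cm_apply, Matrix.of_apply]
    by_cases hc : (c : ℕ) = 0
    · rw [if_neg]
      · simp
      · intro h'
        exact hb (Fin.ext (by simp only; omega))
    · rw [if_neg hc, mul_zero]
  · intro h'
    exact absurd (Finset.mem_univ _) h'

/-- **The relations between the solutions of the hypergeometric system of odd order are invariant under the orthogonal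
group.** -/
theorem hyp_invar_o (hQ : QO n Q) (g : Matrix (Fin n) (Fin n) ℂ)
    (hg : g.transpose * cm (J0m n) * g = cm (J0m n)) : g ∈ Gal (Yf (cm (Am n)) (Hc n Q)) := by
  have hn := hQ.two
  refine invar' (comp_q hQ) hQ.odd (phi_uc hQ) (Bm_phi hQ) (sol_c_g hQ.toQG) (Ac_ec n) (fun v hv => ?_) ⟨0, by omega⟩
    (fun g hg hext => sing_g hQ.toQG g hg hext) g hg
  rw [Ac_last hn]
  rw [om_e0 (by omega)] at hv
  intro h0
  rcases smul_eq_zero.1 h0 with h1 | h1
  · rw [h1, zero_mul] at hv
    exact hv rfl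
  · have h2 := congrFun h1 ⟨0, by omega⟩
    unfold ec at h2
    simp at h2

end Run7.h893.HO
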