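import Pool.Agent.Y119.HY.Main

/-!
# Density in the orthogonal group

`J` is an invertible symmetric matrix, `N` a nilpotent element of its Lie algebra, `v` a vector with `N ^ (n - 1) v ≠ 0` and
`(v, v) ≠ 0`. A monoid of matrices which is closed under specialisation of rational families and under conjugation by
`exp (c N)` and which contains the reflection in `v` contains the orthogonal group.
-/

set_option autoImplicit false

open Matrix Pool.Agent.Y119.HY

namespace Run7.h893.HO

variable {n : ℕ} {J : Matrix (Fin n) (Fin n) ℂ}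

lemma om_symm (hJ : J.transpose = J) (u v : Fin n → ℂ) : om J v u = om J u v := by
  unfold om
  have h1 : v ⬝ᵥ (J *ᵥ u) = u ⬝ᵥ (J.transpose *ᵥ v) := by
    rw [mulVec_transpose, dotProduct_comm u, ← dotProduct_mulVec]
  rw [h1, hJ]

lemma om_add_left (u v w : Fin n → ℂ) : om J (u + v) w = om J u w + om J v w := by
  unfold om; rw [add_dotProduct]

lemma om_smul_left (c : ℂ) (u v : Fin n → ℂ) : om J (c • u) v = c * om J u v := by
  unfold om; rw [smul_dotProduct, smul_eq_mul]

lemma om_zero_left (v : Fin n → ℂ) : om J 0 v = 0 := by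
  unfold om; rw [zero_dotProduct]

lemma om_isom {g : Matrix (Fin n) (Fin n) ℂ} (hg : g.transpose * J * g = J) (u v : Fin n → ℂ) :
    om J (g *ᵥ u) (g *ᵥ v) = om J u v := by
  unfold om
  rw [mulVec_mulVec, ← vecMul_transpose, ← dotProduct_mulVec, mulVec_mulVec, ← Matrix.mul_assoc, hg]

/-- the reflection in `w` -/
noncomputable def rf (J : Matrix (Fin n) (Fin n) ℂ) (w : Fin n → ℂ) : Matrix (Fin n) (Fin n) ℂ := tv J w (-2 / om J w w)

lemma rf_mulVec (w x : Fin n → ℂ) : rf J w *ᵥ x = x - (2 * om J w x / om J w w) • w := by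
  unfold rf
  rw [tv_mulVec, sub_eq_add_neg, ← neg_smul]
  congr 2
  ring

lemma rf_self {w : Fin n → ℂ} (hw : om J w w ≠ 0) : rf J w *ᵥ w = -w := by
  rw [rf_mulVec, mul_div_assoc, div_self hw, mul_one, two_smul]
  abel

lemma rf_orth {w x : Fin n → ℂ} (h : om J w x = 0) : rf J w *ᵥ x = x := by
  rw [rf_mulVec, h, mul_zero, zero_div, zero_smul, sub_zero]

lemma tv_isom' (hJ : J.transpose = J) (v : Fin n → ℂ) {s : ℂ} (hs : 2 * s + s ^ 2 * om J v v = 0) :
    (tv J v s).transpose * J * tv J v s = J := by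
  have hT : (vecMulVec v (v ᵥ* J)).transpose = vecMulVec (v ᵥ* J) v := transpose_vecMulVec _ _
  have h1 : vecMulVec (v ᵥ* J) v * J = vecMulVec (v ᵥ* J) (v ᵥ* J) := vecMulVec_mul _ _ _
  have h2 : J * vecMulVec v (v ᵥ* J) = vecMulVec (v ᵥ* J) (v ᵥ* J) := by
    rw [mul_vecMulVec]
    have : J *ᵥ v = v ᵥ* J := by
      rw [← mulVec_transpose, hJ]
    rw [this]
  have h3 : vecMulVec (v ᵥ* J) v * J * vecMulVec v (v ᵥ* J) = om J v v • vecMulVec (v ᵥ* J) (v ᵥ* J) := by
    rw [h1, vecMulVec_mul_vecMulVec, ← om_eq]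
    ext i j
    simp only [vecMulVec_apply, Matrix.smul_apply, Pi.smul_apply, smul_eq_mul]
    ring
  unfold tv
  rw [transpose_add, transpose_one, transpose_smul, hT, add_mul, one_mul, add_mul, smul_mul_assoc, mul_add, mul_one,
    mul_add, mul_one, h1, mul_smul_comm, h2]
  rw [smul_mul_assoc, mul_smul_comm, ← h1, h3, h1]
  have h4 : J + s • vecMulVec (v ᵥ* J) (v ᵥ* J) + (s • vecMulVec (v ᵥ* J) (v ᵥ* J) +
      s • s • om J v v • vecMulVec (v ᵥ* J) (v ᵥ* J)) = J + (2 * s + s ^ 2 * om J v v) • vecMulVec (v ᵥ* J) (v ᵥ* J) := by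
    rw [smul_smul, smul_smul, add_assoc, ← add_smul, ← add_smul]
    congr 2
    ring
  rw [h4, hs, zero_smul, add_zero]

lemma rf_isom (hJ : J.transpose = J) {w : Fin n → ℂ} (hw : om J w w ≠ 0) : (rf J w).transpose * J * rf J w = J := by
  refine tv_isom' hJ w ?_
  field_simp
  ring

lemma rf_sq {w : Fin n → ℂ} (hw : om J w w ≠ 0) : rf J w * rf J w = 1 := by
  apply Matrix.toLin'.injective
  refine LinearMap.ext fun x => ?_
  rw [toLin'_apply, toLin'_apply, ← mulVec_mulVec, one_mulVec, rf_mulVec w x, mulVec_sub, mulVec_smul, rf_self hw,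
    rf_mulVec]
  rw [smul_neg, sub_neg_eq_add, sub_add_cancel]

lemma rf_conj {g h : Matrix (Fin n) (Fin n) ℂ} (hgh : g * h = 1) (hg : g.transpose * J * g = J) (w : Fin n → ℂ) :
    g * rf J w * h = rf J (g *ᵥ w) := by
  unfold rf
  rw [tv_conj g h hgh hg, om_isom hg]

lemma rf_smul {c : ℂ} (hc : c ≠ 0) (w : Fin n → ℂ) : rf J (c • w) = rf J w := by
  unfold rf
  rw [tv_smul, om_smul, om_smul_left]
  congr 1
  by_cases h : om J w w = 0
  · rw [h]; simp
  · field_simp

/-! ### closedness -/

/-- closed under specialisation of rational families -/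
def ZC (S : Set (Matrix (Fin n) (Fin n) ℂ)) : Prop :=
  ∀ (M : Matrix (Fin n) (Fin n) (Polynomial ℂ)) (d : Polynomial ℂ) (T : Set ℂ), T.Infinite →
    (∀ c ∈ T, d.eval c ≠ 0 ∧ (d.eval c)⁻¹ • M.map (Polynomial.eval c) ∈ S) →
    ∀ c, d.eval c ≠ 0 → (d.eval c)⁻¹ • M.map (Polynomial.eval c) ∈ S

/-- families of reflections -/
lemma zc_rf {S : Set (Matrix (Fin n) (Fin n) ℂ)} (hS : ZC S) (x : Fin n → Polynomial ℂ) (T : Set ℂ) (hT : T.Infinite)
    (h : ∀ c ∈ T, om J (fun i => (x i).eval c) (fun i => (x i).eval c) ≠ 0 ∧ rf J (fun i => (x i).eval c) ∈ S) (c : ℂ)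
    (hc : om J (fun i => (x i).eval c) (fun i => (x i).eval c) ≠ 0) : rf J (fun i => (x i).eval c) ∈ S := by
  set A : Polynomial ℂ := ∑ i, x i * ∑ j, Polynomial.C (J i j) * x j with hA
  set M : Matrix (Fin n) (Fin n) (Polynomial ℂ) :=
    Matrix.of fun i j => (if i = j then A else 0) - Polynomial.C 2 * (x i * ∑ k, x k * Polynomial.C (J k j)) with hM
  have hAe : ∀ c, A.eval c = om J (fun i => (x i).eval c) (fun i => (x i).eval c) := by
    intro c
    rw [hA]
    unfold om
    simp only [Polynomial.eval_finsetSum, Polynomial.eval_mul, Polynomial.eval_C, dotProduct, mulVec]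
  have hMe : ∀ c, A.eval c ≠ 0 → (A.eval c)⁻¹ • M.map (Polynomial.eval c) = rf J (fun i => (x i).eval c) := by
    intro c hc
    unfold rf tv
    rw [← hAe]
    ext i j
    rw [Matrix.smul_apply, Matrix.map_apply, hM, Matrix.of_apply, Matrix.add_apply, Matrix.smul_apply, vecMulVec_apply,
      Matrix.one_apply]
    simp only [Polynomial.eval_sub, Polynomial.eval_mul, Polynomial.eval_C, Polynomial.eval_finsetSum, smul_eq_mul,
      vecMul, dotProduct]
    by_cases hij : i = j
    · rw [if_pos hij, if_pos hij]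
      field_simp
      ring
    · rw [if_neg hij, if_neg hij, Polynomial.eval_zero]
      field_simp
      ring
  have h1 := hS M A T hT (fun c hc => by
    obtain ⟨h1, h2⟩ := h c hc
    rw [← hAe] at h1
    exact ⟨h1, by rw [hMe c h1]; exact h2⟩) c (by rw [hAe]; exact hc)
  rwa [hMe c (by rw [hAe]; exact hc)] at h1

/-! ### the recursion -/

/-- homogeneous Chebyshev polynomials -/
def hh {R : Type*} [CommRing R] (D T : R) : ℕ → R
  | 0 => 0
  | 1 => 1
  | (k + 2) => T * hh D T (k + 1) - D ^ 2 * hh D T k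

lemma hh_map {R R' : Type*} [CommRing R] [CommRing R'] (f : R →+* R') (D T : R) (k : ℕ) :
    f (hh D T k) = hh (f D) (f T) k := by
  induction k using Nat.twoStepInduction with
  | zero => simp [hh]
  | one => simp [hh]
  | more k h1 h2 => simp only [hh, map_sub, map_mul, map_pow, h1, h2]

lemma hh_scale {R : Type*} [CommRing R] (c D T : R) (k : ℕ) : hh (c * D) (c * T) (k + 1) = c ^ k * hh D T (k + 1) := by
  induction k using Nat.twoStepInduction with
  | zero => simp [hh]
  | one => simp [hh]
  | more k h1 h2 =>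
    rw [show hh (c * D) (c * T) (k + 2 + 1) = (c * T) * hh (c * D) (c * T) (k + 1 + 1) -
      (c * D) ^ 2 * hh (c * D) (c * T) (k + 1) from rfl, h1, h2,
      show hh D T (k + 2 + 1) = T * hh D T (k + 1 + 1) - D ^ 2 * hh D T (k + 1) from rfl]
    ring

lemma hh_two {R : Type*} [CommRing R] (D : R) (k : ℕ) : hh D (2 * D) (k + 1) = (k + 1) * D ^ k := by
  induction k using Nat.twoStepInduction with
  | zero => simp [hh]
  | one => simp [hh]; ring
  | more k h1 h2 =>
    rw [show hh D (2 * D) (k + 2 + 1) = (2 * D) * hh D (2 * D) (k + 1 + 1) -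
      D ^ 2 * hh D (2 * D) (k + 1) from rfl, h1, h2]
    push_cast
    ring

/-! ### planes -/

section plane

variable (hJ : J.transpose = J) (S : Submonoid (Matrix (Fin n) (Fin n) ℂ)) (hS : ZC (S : Set (Matrix (Fin n) (Fin n) ℂ)))

include hJ hS in
/-- a plane with a rotation of infinite order -/
lemma plane {x y : Fin n → ℂ} (hx : om J x x ≠ 0) (hy : om J y y ≠ 0) (hxS : rf J x ∈ S) (hyS : rf J y ∈ S)
    (hli : ∀ a b : ℂ, a • x + b • y = 0 → b = 0) (hm : om J x y ≠ 0)
    (hgood : ∀ k, hh (om J x x * om J y y) (4 * om J x y ^ 2 - 2 * (om J x x * om J y y)) (k + 1) ≠ 0) (α β : ℂ)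
    (hαβ : om J (α • x + β • y) (α • x + β • y) ≠ 0) : rf J (α • x + β • y) ∈ S := by
  set a := om J x x with ha
  set b := om J y y with hb
  set m := om J x y with hmd
  set τ : ℂ := 4 * m ^ 2 / (a * b) - 2 with hτ
  have hyx : om J y x = m := om_symm hJ x y
  have hx0 : x ≠ 0 := by
    rintro rfl
    exact hx (om_zero_left _)
  have hli' : ∀ c d : ℂ, c • x + d • y = 0 → c = 0 := by
    intro c d h
    have h1 := hli c d h
    rw [h1, zero_smul, add_zero] at h
    exact (smul_eq_zero.1 h).resolve_right hx0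
  -- the powers
  have hp : ∀ k, hh 1 τ (k + 1) ≠ 0 := by
    intro k h0
    apply hgood k
    have h1 := hh_scale (a * b) 1 τ k
    rw [h0, mul_zero, mul_one] at h1
    rw [← h1]
    congr 1
    rw [hτ]
    field_simp
  set ρ : Matrix (Fin n) (Fin n) ℂ := rf J x * rf J y with hρ
  set ρi : Matrix (Fin n) (Fin n) ℂ := rf J y * rf J x with hρi
  have hρρi : ρ * ρi = 1 := by
    rw [hρ, hρi, Matrix.mul_assoc, ← Matrix.mul_assoc (rf J y), rf_sq hy, one_mul, rf_sq hx]
  have hρiρ : ρi * ρ = 1 := by
    rw [hρ, hρi, Matrix.mul_assoc, ← Matrix.mul_assoc (rf J x), rf_sq hx, one_mul, rf_sq hy]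
  have hcomm : Commute ρ ρi := by rw [Commute, SemiconjBy, hρρi, hρiρ]
  have hρS : ρ ∈ S := S.mul_mem hxS hyS
  have hρiS : ρi ∈ S := S.mul_mem hyS hxS
  have hρJ : ρ.transpose * J * ρ = J := by
    have h1 := rf_isom hJ hx
    have h2 := rf_isom hJ hy
    calc ρ.transpose * J * ρ = (rf J y).transpose * ((rf J x).transpose * J * rf J x) * rf J y := by
          rw [hρ, transpose_mul]; simp only [Matrix.mul_assoc]
      _ = J := by rw [h1, h2]
  have hpowJ : ∀ k : ℕ, (ρ ^ k).transpose * J * ρ ^ k = J := by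
    intro k
    induction k with
    | zero => rw [pow_zero, transpose_one, one_mul, mul_one]
    | succ k ih =>
      calc (ρ ^ (k + 1)).transpose * J * ρ ^ (k + 1) = ρ.transpose * ((ρ ^ k).transpose * J * ρ ^ k) * ρ := by
            rw [pow_succ, transpose_mul]; simp only [Matrix.mul_assoc]
        _ = J := by rw [ih, hρJ]
  have hpow1 : ∀ k : ℕ, ρ ^ k * ρi ^ k = 1 := fun k => by rw [← hcomm.mul_pow, hρρi, one_pow]
  have hpow2 : ∀ k : ℕ, ρi ^ k * ρ ^ k = 1 := fun k => by rw [← hcomm.symm.mul_pow, hρiρ, one_pow]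
  -- the action
  have e1 : rf J y *ᵥ x = x - (2 * m / b) • y := by rw [rf_mulVec, hyx]
  have e2 : rf J x *ᵥ y = y - (2 * m / a) • x := rf_mulVec _ _
  have e3 : ρ *ᵥ x = (4 * m ^ 2 / (a * b) - 1) • x - (2 * m / b) • y := by
    rw [hρ, ← mulVec_mulVec, e1, mulVec_sub, mulVec_smul, e2, rf_self hx]
    ext i
    simp only [Pi.sub_apply, Pi.neg_apply, Pi.smul_apply, smul_eq_mul]
    field_simp
    ring
  have e4 : ρ *ᵥ y = (2 * m / a) • x - y := by
    rw [hρ, ← mulVec_mulVec, rf_self hy, mulVec_neg, e2]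
    ext i
    simp only [Pi.sub_apply, Pi.neg_apply, Pi.smul_apply, smul_eq_mul]
    ring
  have e5 : ρ *ᵥ (ρ *ᵥ x) = τ • (ρ *ᵥ x) - x := by
    rw [e3, mulVec_sub, mulVec_smul, mulVec_smul, e3, e4, hτ]
    ext i
    simp only [Pi.sub_apply, Pi.smul_apply, smul_eq_mul]
    field_simp
    ring
  have hpowx : ∀ k : ℕ, (ρ ^ (k + 1)) *ᵥ x = hh 1 τ (k + 1) • (ρ *ᵥ x) - hh 1 τ k • x := by
    intro k
    induction k with
    | zero => simp [hh]
    | succ k ih =>
      rw [pow_succ' ρ (k + 1), ← mulVec_mulVec, ih, mulVec_sub, mulVec_smul, mulVec_smul, e5,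
        show hh 1 τ (k + 1 + 1) = τ * hh 1 τ (k + 1) - 1 ^ 2 * hh 1 τ k from rfl]
      ext i
      simp only [Pi.sub_apply, Pi.smul_apply, smul_eq_mul]
      ring
  have hcoef : ∀ k : ℕ, ∃ c d : ℂ, (ρ ^ k) *ᵥ x = c • x + d • y ∧ (k ≠ 0 → d ≠ 0) := by
    intro k
    rcases k with _ | k
    · exact ⟨1, 0, by simp, fun h => absurd rfl h⟩
    · refine ⟨hh 1 τ (k + 1) * (4 * m ^ 2 / (a * b) - 1) - hh 1 τ k, hh 1 τ (k + 1) * (-(2 * m / b)), ?_, fun _ => ?_⟩
      · rw [hpowx, e3]
        ext i
        simp only [Pi.sub_apply, Pi.add_apply, Pi.smul_apply, smul_eq_mul]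
        ring
      · exact mul_ne_zero (hp k) (neg_ne_zero.2 (div_ne_zero (mul_ne_zero two_ne_zero hm) hy))
  choose cc dd hcd hdd using hcoef
  -- two powers are never parallel
  have hnp : ∀ j k : ℕ, j < k → ∀ μ : ℂ, (ρ ^ k) *ᵥ x ≠ μ • ((ρ ^ j) *ᵥ x) := by
    intro j k hjk μ h
    obtain ⟨i, rfl⟩ := Nat.exists_eq_add_of_lt hjk
    have h1 : (ρ ^ (i + 1)) *ᵥ x = μ • x := by
      have h2 := congrArg (fun w => (ρi ^ j) *ᵥ w) h
      simp only [mulVec_smul, mulVec_mulVec] at h2
      rw [hpow2, one_mulVec, add_assoc, pow_add, ← Matrix.mul_assoc, hpow2, one_mul] at h2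
      exact h2
    rw [hcd] at h1
    have h2 : (cc (i + 1) - μ) • x + dd (i + 1) • y = 0 := by
      rw [sub_smul, ← h1]
      abel
    exact hdd (i + 1) (Nat.succ_ne_zero i) (hli _ _ h2)
  have hnz : ∀ k, cc k ≠ 0 ∨ dd k ≠ 0 := by
    intro k
    by_contra hcon
    push Not at hcon
    have h1 := hcd k
    rw [hcon.1, hcon.2, zero_smul, zero_smul, add_zero] at h1
    have h2 := congrArg (fun w => (ρi ^ k) *ᵥ w) h1
    simp only [mulVec_mulVec] at h2
    rw [hpow2, one_mulVec, mulVec_zero] at h2
    exact hx0 h2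
  -- the reflections in the orbit
  have hrfS : ∀ k, om J (cc k • x + dd k • y) (cc k • x + dd k • y) ≠ 0 ∧ rf J (cc k • x + dd k • y) ∈ S := by
    intro k
    rw [← hcd k, om_isom (hpowJ k), ← rf_conj (hpow1 k) (hpowJ k)]
    exact ⟨hx, S.mul_mem (S.mul_mem (S.pow_mem hρS k) hxS) (S.pow_mem hρiS k)⟩
  set T : Set ℂ := {s | om J (x + s • y) (x + s • y) ≠ 0 ∧ rf J (x + s • y) ∈ S} with hT
  have hTinf : T.Infinite := by
    classical
    set f : ℕ → Option ℂ := fun k => if cc k = 0 then none else some (dd k / cc k) with hf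
    have hinj : Function.Injective f := by
      have key : ∀ j k : ℕ, j < k → f j ≠ f k := by
        intro j k hjk h
        rw [hf] at h
        simp only at h
        by_cases h1 : cc j = 0
        · rw [if_pos h1] at h
          by_cases h2 : cc k = 0
          · have h3 := (hnz j).resolve_left (not_not.2 h1)
            apply hnp j k hjk (dd k / dd j)
            rw [hcd, hcd, h1, h2, zero_smul, zero_add, zero_add, smul_smul, div_mul_cancel₀ _ h3]
          · rw [if_neg h2] at h
            exact Option.some_ne_none _ h.symm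
        · rw [if_neg h1] at h
          by_cases h2 : cc k = 0
          · rw [if_pos h2] at h
            exact Option.some_ne_none _ h
          · rw [if_neg h2] at h
            have h3 := Option.some.inj h
            apply hnp j k hjk (cc k / cc j)
            rw [hcd, hcd, smul_add, smul_smul, smul_smul, div_mul_cancel₀ _ h1]
            congr 2
            field_simp at h3 ⊢
            linear_combination -h3
      intro j k hjk
      rcases lt_trichotomy j k with h | h | h
      · exact absurd hjk (key j k h)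
      · exact h
      · exact absurd hjk.symm (key k j h)
    have hmem : ∀ k, f k ∈ insert none (some '' T) := by
      intro k
      rw [hf]
      simp only
      split_ifs with h1
      · exact Set.mem_insert _ _
      · refine Set.mem_insert_of_mem _ ⟨_, ?_, rfl⟩
        have h2 := hrfS k
        have h3 : cc k • x + dd k • y = cc k • (x + (dd k / cc k) • y) := by
          rw [smul_add, smul_smul, mul_div_cancel₀ _ h1]
        rw [h3, rf_smul h1, om_smul, om_smul_left] at h2
        exact ⟨right_ne_zero_of_mul (right_ne_zero_of_mul h2.1), h2.2⟩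
    have h1 := Set.infinite_of_injective_forall_mem hinj hmem
    intro hfin
    exact h1 ((hfin.image _).insert _)
  have hfam : ∀ s : ℂ, om J (x + s • y) (x + s • y) ≠ 0 → rf J (x + s • y) ∈ S := by
    intro s hs
    have e : ∀ s : ℂ, (fun i => (Polynomial.C (x i) + Polynomial.X * Polynomial.C (y i)).eval s) = x + s • y := by
      intro s
      funext i
      simp only [Polynomial.eval_add, Polynomial.eval_C, Polynomial.eval_mul, Polynomial.eval_X, Pi.add_apply,
        Pi.smul_apply, smul_eq_mul]
    have := zc_rf (J := J) hS (fun i => Polynomial.C (x i) + Polynomial.X * Polynomial.C (y i)) T hTinf (fun c hc => by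
      rw [e]; exact hc) s (by rw [e]; exact hs)
    rwa [e] at this
  by_cases hα : α = 0
  · rw [hα, zero_smul, zero_add] at hαβ ⊢
    have hβ : β ≠ 0 := by
      rintro rfl
      rw [zero_smul] at hαβ
      exact hαβ (om_zero_left _)
    rw [rf_smul hβ]
    exact hyS
  · have h3 : α • x + β • y = α • (x + (β / α) • y) := by
      rw [smul_add, smul_smul, mul_div_cancel₀ _ hα]
    rw [h3, om_smul, om_smul_left] at hαβ
    rw [h3, rf_smul hα]
    exact hfam _ (right_ne_zero_of_mul (right_ne_zero_of_mul hαβ))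

/-- the complement of countably many polynomial conditions is infinite -/
lemma inf_good (q : ℕ → Polynomial ℂ) (hq : ∀ k, q k ≠ 0) : {c : ℂ | ∀ k, (q k).eval c ≠ 0}.Infinite := by
  intro hfin
  have h1 : ({c : ℂ | ∀ k, (q k).eval c ≠ 0}ᶜ).Countable := by
    have h2 : {c : ℂ | ∀ k, (q k).eval c ≠ 0}ᶜ ⊆ ⋃ k, ((q k).rootSet ℂ : Set ℂ) := by
      intro c hc
      rw [Set.mem_compl_iff, Set.mem_ofPred_eq] at hc
      push Not at hc
      obtain ⟨k, hk⟩ := hc
      refine Set.mem_iUnion.2 ⟨k, ?_⟩
      rw [Polynomial.mem_rootSet]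
      refine ⟨hq k, ?_⟩
      rw [Polynomial.coe_aeval_eq_eval]
      exact hk
    exact (Set.countable_iUnion fun k => ((q k).rootSet_finite ℂ).countable).mono h2
  have h3 : (Set.univ : Set ℂ).Countable := by
    rw [← Set.union_compl_self {c : ℂ | ∀ k, (q k).eval c ≠ 0}]
    exact hfin.countable.union h1
  exact not_countable_complex h3

lemma inf_good_inv (q : ℕ → Polynomial ℂ) (hq : ∀ k, q k ≠ 0) :
    {c : ℂ | c ≠ 0 ∧ ∀ k, (q k).eval c⁻¹ ≠ 0}.Infinite := by
  have h1 := inf_good (fun k => match k with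
    | 0 => Polynomial.X
    | (k + 1) => q k) (fun k => by
      rcases k with _ | k
      · exact Polynomial.X_ne_zero
      · exact hq k)
  have h2 : ((fun c : ℂ => c⁻¹) '' {c : ℂ | ∀ k, (match k with
    | 0 => Polynomial.X
    | (k + 1) => q k : Polynomial ℂ).eval c ≠ 0}).Infinite := h1.image (inv_injective.injOn)
  refine h2.mono ?_
  rintro _ ⟨c, hc, rfl⟩
  have h3 := hc 0
  simp only [Polynomial.eval_X] at h3
  refine ⟨inv_ne_zero h3, fun k => ?_⟩
  rw [inv_inv]
  exact hc (k + 1)

/-- the polynomial `(v + s x, w)` in `s` -/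
noncomputable def lp (J : Matrix (Fin n) (Fin n) ℂ) (v x w : Fin n → ℂ) : Polynomial ℂ :=
  Polynomial.C (om J v w) + Polynomial.C (om J x w) * Polynomial.X

/-- the polynomial `(v + s x, v + s x)` in `s` -/
noncomputable def qp (J : Matrix (Fin n) (Fin n) ℂ) (v x : Fin n → ℂ) : Polynomial ℂ :=
  Polynomial.C (om J v v) + Polynomial.C (2 * om J v x) * Polynomial.X + Polynomial.C (om J x x) * Polynomial.X ^ 2

lemma lp_eval (v x w : Fin n → ℂ) {s : ℂ} (hs : s ≠ 0) : om J (x + s • v) w = s * (lp J v x w).eval s⁻¹ := by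
  unfold lp
  rw [om_add_left, om_smul_left, Polynomial.eval_add, Polynomial.eval_mul, Polynomial.eval_C, Polynomial.eval_C,
    Polynomial.eval_X]
  field_simp
  ring

include hJ in
lemma qp_eval (v x : Fin n → ℂ) {s : ℂ} (hs : s ≠ 0) : om J (x + s • v) (x + s • v) = s ^ 2 * (qp J v x).eval s⁻¹ := by
  unfold qp
  rw [om_add_left, om_smul_left, om_add, om_add, om_smul, om_smul, om_symm hJ v x]
  simp only [Polynomial.eval_add, Polynomial.eval_mul, Polynomial.eval_C, Polynomial.eval_X, Polynomial.eval_pow]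
  field_simp
  ring

include hJ hS in
/-- one more dimension -/
lemma step_dim {v w : Fin n → ℂ} {U : Submodule ℂ (Fin n → ℂ)} (hvU : v ∈ U) (hv : om J v v ≠ 0) (hw : om J w w ≠ 0)
    (hwS : rf J w ∈ S) (hwU : w ∉ U) (hU : ∀ x ∈ U, om J x x ≠ 0 → rf J x ∈ S) (hm : om J v w ≠ 0)
    (hgood : ∀ k, hh (om J v v * om J w w) (4 * om J v w ^ 2 - 2 * (om J v v * om J w w)) (k + 1) ≠ 0)
    {x : Fin n → ℂ} (hx : x ∈ U) (α : ℂ) (hz : om J (x + α • w) (x + α • w) ≠ 0) : rf J (x + α • w) ∈ S := by
  set b := om J w w with hb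
  set z := x + α • w with hzd
  -- the conditions
  let D : Polynomial ℂ := qp J v x * Polynomial.C b
  let T' : Polynomial ℂ := 4 * lp J v x w ^ 2 - 2 * D
  let q : ℕ → Polynomial ℂ := fun k => match k with
    | 0 => qp J v x
    | 1 => lp J v x w
    | 2 => qp J v z
    | (k + 3) => hh D T' (k + 1)
  have hq : ∀ k, (q k).eval 0 ≠ 0 := by
    intro k
    rcases k with _ | _ | _ | k
    · show (qp J v x).eval 0 ≠ 0
      unfold qp
      simpa using hv
    · show (lp J v x w).eval 0 ≠ 0
      unfold lp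
      simpa using hm
    · show (qp J v z).eval 0 ≠ 0
      unfold qp
      simpa using hv
    · show (hh D T' (k + 1)).eval 0 ≠ 0
      rw [← Polynomial.coe_evalRingHom, hh_map, Polynomial.coe_evalRingHom]
      have e1 : D.eval 0 = om J v v * b := by
        show (qp J v x * Polynomial.C b).eval 0 = _
        unfold qp
        simp
      have e2 : T'.eval 0 = 4 * om J v w ^ 2 - 2 * (om J v v * b) := by
        show (4 * lp J v x w ^ 2 - 2 * D).eval 0 = _
        rw [Polynomial.eval_sub, Polynomial.eval_mul, Polynomial.eval_mul, e1, Polynomial.eval_pow]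
        unfold lp
        simp
      rw [e1, e2]
      exact hgood k
  have hq' : ∀ k, q k ≠ 0 := by
    intro k h0
    apply hq k
    rw [h0, Polynomial.eval_zero]
  have hinf := inf_good_inv q hq'
  have e : ∀ s : ℂ, (fun i => (Polynomial.C (z i) + Polynomial.X * Polynomial.C (v i)).eval s) = z + s • v := by
    intro s
    funext i
    simp only [Polynomial.eval_add, Polynomial.eval_C, Polynomial.eval_mul, Polynomial.eval_X, Pi.add_apply,
      Pi.smul_apply, smul_eq_mul]
  have hfin := zc_rf (J := J) hS (fun i => Polynomial.C (z i) + Polynomial.X * Polynomial.C (v i)) _ hinf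
    (fun s hs => ?_) 0 (by rw [e, zero_smul, add_zero]; exact hz)
  · rw [e, zero_smul, add_zero] at hfin
    exact hfin
  · obtain ⟨hs0, hs⟩ := hs
    rw [e]
    have h0 : (qp J v x).eval s⁻¹ ≠ 0 := hs 0
    have h1 : (lp J v x w).eval s⁻¹ ≠ 0 := hs 1
    have h2 : (qp J v z).eval s⁻¹ ≠ 0 := hs 2
    have h3 : ∀ k, (hh D T' (k + 1)).eval s⁻¹ ≠ 0 := fun k => hs (k + 3)
    have ha : om J (x + s • v) (x + s • v) ≠ 0 := by
      rw [qp_eval hJ v x hs0]
      exact mul_ne_zero (pow_ne_zero _ hs0) h0
    have hm' : om J (x + s • v) w ≠ 0 := by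
      rw [lp_eval v x w hs0]
      exact mul_ne_zero hs0 h1
    have hz' : om J (z + s • v) (z + s • v) ≠ 0 := by
      rw [qp_eval hJ v z hs0]
      exact mul_ne_zero (pow_ne_zero _ hs0) h2
    refine ⟨hz', ?_⟩
    have hxU : x + s • v ∈ U := U.add_mem hx (U.smul_mem _ hvU)
    have hzz : z + s • v = (1 : ℂ) • (x + s • v) + α • w := by
      rw [hzd, one_smul]
      abel
    rw [hzz] at hz' ⊢
    refine plane hJ S hS ha hw (hU _ hxU ha) hwS (fun c d hcd => ?_) hm' (fun k => ?_) 1 α hz'
    · by_contra hd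
      apply hwU
      have h4 : w = (-(c / d)) • (x + s • v) := by
        have h5 : d • w = -(c • (x + s • v)) := by
          rw [eq_neg_iff_add_eq_zero, add_comm]
          exact hcd
        calc w = d⁻¹ • (d • w) := by rw [smul_smul, inv_mul_cancel₀ hd, one_smul]
          _ = _ := by
            rw [h5, smul_neg, smul_smul, neg_smul]
            congr 2
            ring
      rw [h4]
      exact U.smul_mem _ hxU
    · have h4 := h3 k
      rw [← Polynomial.coe_evalRingHom, hh_map, Polynomial.coe_evalRingHom] at h4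
      have e1 : om J (x + s • v) (x + s • v) * b = s ^ 2 * D.eval s⁻¹ := by
        rw [qp_eval hJ v x hs0]
        show _ = s ^ 2 * (qp J v x * Polynomial.C b).eval s⁻¹
        rw [Polynomial.eval_mul, Polynomial.eval_C]
        ring
      have e2 : 4 * om J (x + s • v) w ^ 2 - 2 * (s ^ 2 * D.eval s⁻¹) = s ^ 2 * T'.eval s⁻¹ := by
        rw [lp_eval v x w hs0]
        have e3 : T'.eval s⁻¹ = 4 * (lp J v x w).eval s⁻¹ ^ 2 - 2 * D.eval s⁻¹ := by
          show (4 * lp J v x w ^ 2 - 2 * D).eval s⁻¹ = _
          simp only [Polynomial.eval_sub, Polynomial.eval_mul, Polynomial.eval_pow, Polynomial.eval_ofNat]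
        rw [e3]
        ring
      rw [e1, e2, hh_scale]
      exact mul_ne_zero (pow_ne_zero _ (pow_ne_zero _ hs0)) h4

variable {N : Matrix (Fin n) (Fin n) ℂ} (hN : N ^ n = 0) (hNJ : N.transpose * J + J * N = 0) {v : Fin n → ℂ}
  (hcyc : (N ^ (n - 1)) *ᵥ v ≠ 0) (hv : om J v v ≠ 0)
  (hE : ∀ c : ℂ, ∀ g ∈ S, E N c * g * E N (-c) ∈ S) (hvS : rf J v ∈ S)

include hJ hS hN hNJ hcyc hv hE hvS in
lemma exists_sub' (r : ℕ) (hr1 : 1 ≤ r) (hr : r ≤ n) : ∃ U : Submodule ℂ (Fin n → ℂ), v ∈ U ∧ r ≤ Module.finrank ℂ U ∧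
    ∀ x ∈ U, om J x x ≠ 0 → rf J x ∈ S := by
  have hv0 : v ≠ 0 := by
    rintro rfl
    exact hv (om_zero_left _)
  induction r, hr1 using Nat.le_induction with
  | base =>
    refine ⟨Submodule.span ℂ {v}, Submodule.mem_span_singleton_self v, ?_, fun x hx hxx => ?_⟩
    · rw [finrank_span_singleton hv0]
    · obtain ⟨c, rfl⟩ := Submodule.mem_span_singleton.1 hx
      have hc : c ≠ 0 := by
        rintro rfl
        rw [zero_smul] at hxx
        exact hxx (om_zero_left _)
      rw [rf_smul hc]
      exact hvS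
  | succ r hr1 ih =>
    obtain ⟨U, hvU, hUr, hU⟩ := ih (by omega)
    by_cases hlt : r + 1 ≤ Module.finrank ℂ U
    · exact ⟨U, hvU, hlt, hU⟩
    have hne : U < ⊤ := by
      refine lt_top_iff_ne_top.2 ?_
      rintro rfl
      rw [finrank_top, Module.finrank_fin_fun] at hlt
      omega
    obtain ⟨l, hl0, hlU⟩ := Submodule.exists_le_ker_of_lt_top U hne
    have hp1 : pl N v l ≠ 0 := pl_ne hN hcyc hl0
    -- the form with `v`
    let lv : (Fin n → ℂ) →ₗ[ℂ] ℂ :=
      { toFun := fun x => om J v x
        map_add' := fun x y => om_add v x y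
        map_smul' := fun c x => om_smul c v x }
    let D : Polynomial ℂ := Polynomial.C (om J v v * om J v v)
    let T' : Polynomial ℂ := 4 * pl N v lv ^ 2 - 2 * D
    have hpl0 : (pl N v lv).eval 0 = om J v v := by
      rw [pl_eval, E_zero hN, one_mulVec]
      rfl
    let q : ℕ → Polynomial ℂ := fun k => match k with
      | 0 => pl N v l
      | 1 => pl N v lv
      | (k + 2) => hh D T' (k + 1)
    have hq : ∀ k, q k ≠ 0 := by
      intro k
      rcases k with _ | _ | k
      · exact hp1
      · show pl N v lv ≠ 0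
        intro h0
        rw [h0, Polynomial.eval_zero] at hpl0
        exact hv hpl0.symm
      · show hh D T' (k + 1) ≠ 0
        intro h0
        have h1 := congrArg (Polynomial.eval 0) h0
        rw [← Polynomial.coe_evalRingHom, hh_map, Polynomial.coe_evalRingHom, Polynomial.eval_zero] at h1
        have e1 : D.eval 0 = om J v v * om J v v := Polynomial.eval_C
        have e2 : T'.eval 0 = 2 * (om J v v * om J v v) := by
          show (4 * pl N v lv ^ 2 - 2 * D).eval 0 = _
          rw [Polynomial.eval_sub, Polynomial.eval_mul, Polynomial.eval_mul, e1, Polynomial.eval_pow, hpl0]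
          simp only [Polynomial.eval_ofNat]
          ring
        rw [e1, e2, hh_two] at h1
        refine mul_ne_zero ?_ (pow_ne_zero _ (mul_ne_zero hv hv)) h1
        exact_mod_cast Nat.succ_ne_zero k
    obtain ⟨c, hc⟩ := (inf_good q hq).nonempty
    have hc0 : l (E N c *ᵥ v) ≠ 0 := by
      rw [← pl_eval]
      exact hc 0
    have hc1 : om J v (E N c *ᵥ v) ≠ 0 := by
      have h1 : (pl N v lv).eval c ≠ 0 := hc 1
      rw [pl_eval] at h1
      exact h1
    set w := E N c *ᵥ v with hw
    have hwU : w ∉ U := fun h => hc0 (hlU h)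
    have hww : om J w w = om J v v := om_isom (E_isom hN hNJ c) v v
    have hwS : rf J w ∈ S := by
      rw [hw, ← rf_conj (E_mul_neg hN c) (E_isom hN hNJ c)]
      exact hE c _ hvS
    have hgood : ∀ k, hh (om J v v * om J w w) (4 * om J v w ^ 2 - 2 * (om J v v * om J w w)) (k + 1) ≠ 0 := by
      intro k
      have h1 : (hh D T' (k + 1)).eval c ≠ 0 := hc (k + 2)
      rw [← Polynomial.coe_evalRingHom, hh_map, Polynomial.coe_evalRingHom] at h1
      have e1 : D.eval c = om J v v * om J v v := Polynomial.eval_C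
      have e2 : T'.eval c = 4 * om J v w ^ 2 - 2 * (om J v v * om J v v) := by
        show (4 * pl N v lv ^ 2 - 2 * D).eval c = _
        rw [Polynomial.eval_sub, Polynomial.eval_mul, Polynomial.eval_mul, e1, Polynomial.eval_pow, pl_eval]
        simp only [Polynomial.eval_ofNat]
        rfl
      rw [e1, e2] at h1
      rw [hww]
      exact h1
    refine ⟨U ⊔ Submodule.span ℂ {w}, (le_sup_left : U ≤ _) hvU, ?_, fun x hx hxx => ?_⟩
    · have h1 : U < U ⊔ Submodule.span ℂ {w} := by
        refine lt_of_le_of_ne le_sup_left fun h => hwU ?_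
        rw [h]
        exact (le_sup_right : _ ≤ U ⊔ Submodule.span ℂ {w}) (Submodule.mem_span_singleton_self w)
      have h2 := Submodule.finrank_lt_finrank_of_lt h1
      omega
    · obtain ⟨y, hy, z, hz, rfl⟩ := Submodule.mem_sup.1 hx
      obtain ⟨α, rfl⟩ := Submodule.mem_span_singleton.1 hz
      exact step_dim hJ S hS hvU hv (by rw [hww]; exact hv) hwS hwU hU hc1 hgood hy α hxx

include hJ hS hN hNJ hcyc hv hE hvS in
/-- all reflections -/
lemma all_rf (x : Fin n → ℂ) (hx : om J x x ≠ 0) : rf J x ∈ S := by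
  have hn : 1 ≤ n := by
    rcases n with _ | m
    · exact absurd (Subsingleton.elim x 0 ▸ om_zero_left (J := J) x) (by
        intro h
        have : x = 0 := Subsingleton.elim _ _
        rw [this] at hx
        exact hx (om_zero_left _))
    · omega
  obtain ⟨U, -, hUr, hU⟩ := exists_sub' hJ S hS hN hNJ hcyc hv hE hvS n hn le_rfl
  have htop : U = ⊤ := by
    apply Submodule.eq_top_of_finrank_eq
    rw [Module.finrank_fin_fun]
    refine le_antisymm ?_ hUr
    have := Submodule.finrank_le U
    rwa [Module.finrank_fin_fun] at this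
  exact hU x (by rw [htop]; trivial) hx

end plane

/-! ### generation by reflections -/

/-- an orthogonal basis -/
lemma exists_ob (hJ : J.transpose = J) : ∃ e : Module.Basis (Fin n) ℂ (Fin n → ℂ), ∀ i j, i ≠ j → om J (e i) (e j) = 0 := by
  have hsymm : LinearMap.IsSymm (Matrix.toBilin' J) := by
    refine ⟨fun x y => ?_⟩
    rw [Matrix.toBilin'_apply', Matrix.toBilin'_apply']
    exact om_symm hJ y x
  obtain ⟨e, he⟩ := LinearMap.BilinForm.exists_orthogonal_basis hsymm
  refine ⟨e.reindex (finCongr (Module.finrank_fin_fun ℂ)), fun i j hij => ?_⟩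
  rw [Module.Basis.reindex_apply, Module.Basis.reindex_apply]
  have hne : (finCongr (Module.finrank_fin_fun ℂ)).symm i ≠ (finCongr (Module.finrank_fin_fun ℂ)).symm j :=
    fun h => hij ((finCongr (Module.finrank_fin_fun ℂ)).symm.injective h)
  have h1 := he hne
  simp only [Function.onFun] at h1
  rw [Matrix.toBilin'_apply'] at h1
  exact h1

/-- **the orthogonal group is generated by reflections** -/
theorem gen_rf (hJ : J.transpose = J) (hdet : J.det ≠ 0) (S : Submonoid (Matrix (Fin n) (Fin n) ℂ))
    (hS : ∀ x, om J x x ≠ 0 → rf J x ∈ S) (g : Matrix (Fin n) (Fin n) ℂ) (hg : g.transpose * J * g = J) : g ∈ S := by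
  classical
  obtain ⟨e, hortho⟩ := exists_ob (J := J) hJ
  have haniso : ∀ i, om J (e i) (e i) ≠ 0 := by
    intro i h0
    let lv : (Fin n → ℂ) →ₗ[ℂ] ℂ :=
      { toFun := fun x => om J (e i) x
        map_add' := fun x y => om_add (e i) x y
        map_smul' := fun c x => om_smul c (e i) x }
    have h1 : lv = 0 := by
      refine e.ext fun j => ?_
      by_cases hij : i = j
      · subst hij
        exact h0
      · exact hortho i j hij
    have h2 : (e i) ᵥ* J = 0 := by
      funext j
      have h3 := LinearMap.congr_fun h1 (Pi.single j 1)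
      have h4 : om J (e i) (Pi.single j 1) = 0 := h3
      rw [om_eq, dotProduct_single, mul_one] at h4
      exact h4
    exact e.ne_zero i (Matrix.eq_zero_of_vecMul_eq_zero hdet h2)
  have key : ∀ m : ℕ, m ≤ n → ∀ g : Matrix (Fin n) (Fin n) ℂ, g.transpose * J * g = J →
      (∀ i : Fin n, (i : ℕ) + m < n → g *ᵥ e i = e i) → g ∈ S := by
    intro m
    induction m with
    | zero =>
      intro _ g _ hfix
      have h1 : g = 1 := by
        apply Matrix.toLin'.injective
        refine e.ext fun i => ?_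
        rw [toLin'_apply, toLin'_apply, one_mulVec]
        exact hfix i (by have := i.2; omega)
      rw [h1]
      exact S.one_mem
    | succ m ih =>
      intro hm g hg hfix
      set k : Fin n := ⟨n - (m + 1), by omega⟩ with hk
      set x := e k with hx
      set y := g *ᵥ x with hy
      have hyy : om J y y = om J x x := om_isom hg x x
      have hyx : om J y x = om J x y := om_symm hJ x y
      have hperp : ∀ i : Fin n, (i : ℕ) < k → om J x (e i) = 0 ∧ om J y (e i) = 0 := by
        intro i hi
        have hik : k ≠ i := by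
          intro h
          rw [h] at hi
          exact lt_irrefl _ hi
        refine ⟨hortho k i hik, ?_⟩
        have h1 : g *ᵥ e i = e i := hfix i (by
          have h2 : (k : ℕ) = n - (m + 1) := rfl
          omega)
        have h2 := om_isom hg x (e i)
        rw [h1] at h2
        rw [hy, h2]
        exact hortho k i hik
      have hmain : ∀ r : Matrix (Fin n) (Fin n) ℂ, r.transpose * J * r = J → r *ᵥ y = x →
          (∀ i : Fin n, (i : ℕ) < k → r *ᵥ e i = e i) → r * g ∈ S := by
        intro r hr hry hri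
        refine ih (by omega) (r * g) ?_ fun i hi => ?_
        · calc (r * g).transpose * J * (r * g) = g.transpose * (r.transpose * J * r) * g := by
                rw [transpose_mul]; simp only [Matrix.mul_assoc]
            _ = J := by rw [hr, hg]
        · have h2 : (k : ℕ) = n - (m + 1) := rfl
          rcases lt_or_eq_of_le (show (i : ℕ) ≤ k by omega) with h | h
          · rw [← mulVec_mulVec, hfix i (by omega), hri i h]
          · have h3 : i = k := Fin.ext h
            rw [h3, ← mulVec_mulVec]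
            exact hry
      have hsum : om J (x - y) (x - y) + om J (x + y) (x + y) = 4 * om J x x := by
        rw [sub_eq_add_neg, show -y = (-1 : ℂ) • y by rw [neg_smul, one_smul], om_add, om_add_left, om_add_left, om_smul,
          om_smul, om_smul_left, om_smul_left, om_add, om_add_left, om_add_left, hyy, hyx]
        ring
      have hsub : ∀ u : Fin n → ℂ, om J (x - y) u = om J x u - om J y u := by
        intro u
        rw [sub_eq_add_neg, show -y = (-1 : ℂ) • y by rw [neg_smul, one_smul], om_add_left, om_smul_left]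
        ring
      by_cases hxy : om J (x - y) (x - y) = 0
      · -- the vector `x + y`
        have hxy' : om J (x + y) (x + y) ≠ 0 := by
          rw [hxy, zero_add] at hsum
          rw [hsum]
          exact mul_ne_zero (by norm_num) (haniso k)
        have h1 : rf J (x + y) *ᵥ y = -x := by
          rw [rf_mulVec]
          have h2 : 2 * om J (x + y) y = om J (x + y) (x + y) := by
            rw [om_add, om_add_left, om_add_left, hyy, hyx]
            ring
          rw [h2, div_self hxy', one_smul]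
          abel
        have h2 := hmain (rf J x * rf J (x + y)) (by
          calc (rf J x * rf J (x + y)).transpose * J * (rf J x * rf J (x + y)) =
                (rf J (x + y)).transpose * ((rf J x).transpose * J * rf J x) * rf J (x + y) := by
                rw [transpose_mul]; simp only [Matrix.mul_assoc]
            _ = J := by rw [rf_isom hJ (haniso k), rf_isom hJ hxy']) (by
          rw [← mulVec_mulVec, h1, mulVec_neg, rf_self (haniso k), neg_neg]) (fun i hi => by
          obtain ⟨h3, h4⟩ := hperp i hi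
          have h5 : rf J (x + y) *ᵥ e i = e i := rf_orth (by rw [om_add_left, h3, h4, add_zero])
          rw [← mulVec_mulVec, h5, rf_orth h3])
        have h3 : g = rf J (x + y) * (rf J x * (rf J x * rf J (x + y) * g)) := by
          have e1 := rf_sq (J := J) (haniso k)
          have e2 := rf_sq (J := J) hxy'
          calc g = (rf J (x + y) * rf J (x + y)) * g := by rw [e2, one_mul]
            _ = rf J (x + y) * ((rf J x * rf J x) * (rf J (x + y) * g)) := by rw [e1, one_mul, Matrix.mul_assoc]
            _ = _ := by simp only [Matrix.mul_assoc]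
        rw [h3]
        exact S.mul_mem (hS _ hxy') (S.mul_mem (hS _ (haniso k)) h2)
      · have h1 : rf J (x - y) *ᵥ y = x := by
          rw [rf_mulVec]
          have h2 : 2 * om J (x - y) y = -om J (x - y) (x - y) := by
            have h3 : om J (x - y) (x - y) = om J x (x - y) - om J y (x - y) := hsub _
            have h4 : om J x (x - y) = om J x x - om J x y := by
              rw [om_symm hJ, hsub, hyx]
            have h5 : om J y (x - y) = om J x y - om J x x := by
              rw [om_symm hJ, hsub, hyy]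
            rw [h3, h4, h5, hsub, hyy]
            ring
          rw [h2, neg_div, div_self hxy, neg_smul, one_smul]
          abel
        have h2 := hmain (rf J (x - y)) (rf_isom hJ hxy) h1 (fun i hi => by
          obtain ⟨h3, h4⟩ := hperp i hi
          exact rf_orth (by rw [hsub, h3, h4, sub_zero]))
        have h3 : g = rf J (x - y) * (rf J (x - y) * g) := by
          rw [← Matrix.mul_assoc, rf_sq hxy, one_mul]
        rw [h3]
        exact S.mul_mem (hS _ hxy) h2
  exact key n le_rfl g hg fun i hi => by omega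

/-- **density** -/
theorem o_all (hJ : J.transpose = J) (hdet : J.det ≠ 0) (S : Submonoid (Matrix (Fin n) (Fin n) ℂ))
    (hS : ZC (S : Set (Matrix (Fin n) (Fin n) ℂ))) {N : Matrix (Fin n) (Fin n) ℂ} (hN : N ^ n = 0)
    (hNJ : N.transpose * J + J * N = 0) {v : Fin n → ℂ} (hcyc : (N ^ (n - 1)) *ᵥ v ≠ 0) (hv : om J v v ≠ 0)
    (hE : ∀ c : ℂ, ∀ g ∈ S, E N c * g * E N (-c) ∈ S) (hvS : rf J v ∈ S) (g : Matrix (Fin n) (Fin n) ℂ)
    (hg : g.transpose * J * g = J) : g ∈ S :=
  gen_rf hJ hdet S (fun x hx => all_rf hJ S hS hN hNJ hcyc hv hE hvS x hx) g hg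

end Run7.h893.HO
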