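import Pool.Agent.Run7.h893.HO.Gen2

/-!
# Arithmetic of the coefficients for general rational exponents at infinity
-/

set_option autoImplicit false

open PowerSeries
open Pool.Agent.Y113 hiding Bm
open Pool.Agent.Y119.HZ
open Pool.Agent.Y119.HY (QD Am Jm Bm Hq hq hps Hq_zero cm Hf Hc Yf uq uq_eq aq SL poch_int kx SL_C SL_X SL_coeff sdc_of PG.exp Ac_nil cm_apply)

namespace Run7.h893.HO

variable {n : ℕ} {ι : Type} [Fintype ι]

/-- the polynomial with the roots `- α_j` -/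
noncomputable def QA (α : ι → ℚ) : Polynomial ℚ := ∏ j, (Polynomial.X + Polynomial.C (α j))

lemma aq_QA (hn : Fintype.card ι = n) (α : ι → ℚ) (k : ℕ) : aq n (QA α) k = ∏ i, uq (α i) k := by
  unfold aq uq QA
  rw [Finset.prod_comm]
  refine Finset.prod_congr rfl fun l _ => ?_
  rw [map_prod]
  have h1 : ∀ i : ι, Polynomial.aeval (kx l) (Polynomial.X + Polynomial.C (α i)) = C ((l : ℚ) + α i) + X := by
    intro i
    rw [map_add, Polynomial.aeval_X, Polynomial.aeval_C]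
    have h2 : algebraMap ℚ ℚ⟦X⟧ (α i) = C (α i) := rfl
    rw [h2, map_add]
    unfold kx
    ring
  simp only [h1]
  have h3 : ((kx (l + 1))⁻¹) ^ n = ∏ _i : ι, (kx (l + 1))⁻¹ := by
    rw [Finset.prod_const, Finset.card_univ, hn]
  rw [h3, ← Finset.prod_mul_distrib]

/-- the denominators -/
lemma hq_den_g (hn : Fintype.card ι = n) {α : ι → ℚ} (hα : ∀ i, ∀ l : ℕ, (l : ℚ) + α i ≠ 0) :
    ∃ A : ℝ, ∀ K, ∃ d : ℕ, 0 < d ∧ (d : ℝ) ≤ A ^ (K + 1) ∧ ∀ k ≤ K, ∀ i j : ℕ, j < n →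
      ∃ a : ℤ, (d : ℚ) * hq n (QA α) k i j = a := by
  set Bd : ℕ := 1 + ∑ i, ((α i).den + (α i).num.natAbs) with hBd
  have hBi : ∀ i, (α i).den + (α i).num.natAbs + 1 ≤ Bd := by
    intro i
    have := Finset.single_le_sum (f := fun i => (α i).den + (α i).num.natAbs) (fun _ _ => Nat.zero_le _) (Finset.mem_univ i)
    omega
  set M : ℕ := ∏ i, (α i).den ^ 2 with hM
  have hM1 : 1 ≤ M := by
    rw [hM]
    refine Nat.succ_le_of_lt (Finset.prod_pos fun i _ => ?_)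
    have := (α i).den_pos
    positivity
  refine ⟨(M : ℝ) * ((2 ^ 8) ^ Bd) ^ n, fun K => ?_⟩
  set L : ℕ := Nat.lcmUpto (K * Bd + Bd) with hL
  have hL0 : 0 < L := Nat.lcmUpto_pos _
  have hLd : ∀ γ : ℚ, γ.den + γ.num.natAbs + 1 ≤ Bd → ∀ i : ℕ, 1 ≤ i → i ≤ K * γ.den + γ.num.natAbs + K → i ∣ L := by
    intro γ hγ i h1 h2
    refine Pool.Agent.Y113.dvd_lcmUpto h1 (h2.trans ?_)
    have h3 : K * (γ.den + 1) ≤ K * Bd := Nat.mul_le_mul_left _ (by omega)
    rw [mul_add, mul_one] at h3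
    omega
  refine ⟨M ^ K * L ^ n, by positivity, ?_, fun k hk i j hj => ?_⟩
  · push_cast
    have h1 : (L : ℝ) ≤ (2 ^ 8) ^ (K * Bd + Bd) := Pool.Agent.Y113.lcm_bound _
    have hM1' : (1 : ℝ) ≤ M := by exact_mod_cast hM1
    calc (M : ℝ) ^ K * (L : ℝ) ^ n ≤ (M : ℝ) ^ (K + 1) * ((2 ^ 8) ^ (K * Bd + Bd)) ^ n :=
          mul_le_mul (pow_le_pow_right₀ hM1' (Nat.le_succ K)) (pow_le_pow_left₀ (by positivity) h1 _) (by positivity)
            (by positivity)
      _ = _ := by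
          rw [mul_pow]
          congr 1
          generalize ((2 : ℝ) ^ 8) = B
          rw [← pow_mul, ← pow_mul, ← pow_mul]
          congr 1
          ring
  · -- the factors
    have hm1 : ∀ i, ∃ w ∈ SL L, uq (α i) k = C (∏ l ∈ Finset.range k, (((l : ℚ) + α i) / ((l : ℚ) + 1))) * w := fun i =>
      uq_eq (fun l => hα i l) hk (hLd _ (hBi i))
    choose w1 hw1 hw1' using hm1
    set c : ℚ := ∏ i, (∏ l ∈ Finset.range k, (((l : ℚ) + α i) / ((l : ℚ) + 1))) with hc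
    have haq : aq n (QA α) k = C c * ∏ i, w1 i := by
      rw [aq_QA hn, hc, map_prod, ← Finset.prod_mul_distrib]
      refine Finset.prod_congr rfl fun i _ => ?_
      rw [hw1' i]
    have hcM : ∃ a : ℤ, ((M : ℚ) ^ k) * c = a := by
      choose a ha using fun i => poch_int (α i) k
      refine ⟨∏ i, a i, ?_⟩
      rw [hc, hM]
      push_cast
      rw [← Finset.prod_pow, ← Finset.prod_mul_distrib]
      refine Finset.prod_congr rfl fun i _ => ?_
      rw [← ha i]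
    obtain ⟨a, ha⟩ := hcM
    have hmem : kx k ^ i * ∏ i, w1 i ∈ SL L := by
      refine (SL L).mul_mem ((SL L).pow_mem ((SL L).add_mem ?_ (SL_X L)) _)
        ((SL L).prod_mem fun i _ => hw1 i)
      have := SL_C L (k : ℤ)
      exact_mod_cast this
    obtain ⟨b, hb⟩ := SL_coeff hmem j
    refine ⟨(M : ℤ) ^ (K - k) * a * ((L : ℤ) ^ (n - j) * b), ?_⟩
    unfold hq
    rw [haq, show kx k ^ i * (C c * ∏ i, w1 i) = C c * (kx k ^ i * ∏ i, w1 i) by ring,
      PowerSeries.coeff_C_mul]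
    push_cast
    rw [← ha, ← hb]
    have e1 : (M : ℚ) ^ K = (M : ℚ) ^ (K - k) * (M : ℚ) ^ k := by rw [← pow_add]; congr 1; omega
    have e2 : (L : ℚ) ^ n = (L : ℚ) ^ (n - j) * (L : ℚ) ^ j := by rw [← pow_add]; congr 1; omega
    rw [e1, e2]
    ring

theorem sdc_hps_g (hn : Fintype.card ι = n) {α : ι → ℚ} (hα : ∀ i, ∀ l : ℕ, (l : ℚ) + α i ≠ 0)
    (hQ : QG n (QA α)) (i j : Fin n) : SDc (hps n (QA α) i j) := by
  refine sdc_of ?_ ?_
  · obtain ⟨A, hA⟩ := ((sol_c_g hQ).growth Ac_nil i j).exp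
    refine ⟨A, fun k => ?_⟩
    have h1 := hA k
    unfold Hc at h1
    rw [cm_apply] at h1
    unfold hps
    rw [PowerSeries.coeff_mk]
    refine le_trans (le_of_eq ?_) h1
    have e1 : ((Hq n (QA α) k i j : ℚ) : ℂ) = (((Hq n (QA α) k i j : ℚ) : ℝ) : ℂ) := by push_cast; rfl
    rw [e1, Complex.norm_real, Real.norm_eq_abs]
    rfl
  · obtain ⟨A, hA⟩ := hq_den_g hn hα
    refine ⟨A, fun K => ?_⟩
    obtain ⟨d, hd0, hd, hd'⟩ := hA K
    refine ⟨d, hd0, hd, fun k hk => ?_⟩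
    unfold hps
    rw [PowerSeries.coeff_mk]
    exact hd' k hk i j j.2

end Run7.h893.HO
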