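import Pool.Agent.Run7.h893.HO.Wp
import Pool.Agent.Run7.h893.HO.Ari

/-!
# Self-dual hypergeometric families: for almost all tuples of fibres all relations of bounded degree come from the torsors
-/

set_option autoImplicit false

open PowerSeries
open Pool.Agent.Y113 hiding Bm
open Pool.Agent.Y120.GF Pool.Agent.Y120.GH Pool.Agent.Y119.HZ
open Pool.Agent.Y119.HY (QD Am Jm Bm Hq hq hps Hq_zero Am_nil mul_Am QB cm Ep E Ep_eval E_HD E_neg Hf Hc Yf Vr Rel Gal E_add E_zero E_mul_neg E_isom Ac_nil)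

namespace Run7.h893.HO

/-- The data of a self-dual hypergeometric family: the form `J0` on the space of solutions, the form `B z` on the fibres,
and the invariance of the relations under the isometry group. -/
structure Fam (n : ℕ) (Q : Polynomial ℚ) (J0 : Matrix (Fin n) (Fin n) ℂ) (B : ℂ → Matrix (Fin n) (Fin n) ℂ) : Prop where
  g : QG n Q
  det : J0.det ≠ 0
  zero : (cm (Am n)).transpose * J0 + J0 * cm (Am n) = 0
  form : ∀ x : ℝ, 0 < x → x < 1 →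
    (Yf (cm (Am n)) (Hc n Q) x).transpose * B x * Yf (cm (Am n)) (Hc n Q) x = J0
  inv : ∀ g : Matrix (Fin n) (Fin n) ℂ, g.transpose * J0 * g = J0 → g ∈ Gal (Yf (cm (Am n)) (Hc n Q))
  sdc : ∀ i j, SDc (Hp n Q i j)
  wex : ∃ W : Matrix (Fin n) (Fin n) ℚ⟦X⟧, Hp n Q * W = 1 ∧ ∀ i j, SDc (W i j)

/-- even order -/
theorem Fam.ofD {n : ℕ} {Q : Polynomial ℚ} (hQ : QD n Q) (hH : ∀ i j, SDc (Hp n Q i j)) :
    Fam n Q (cm (Jm n Q)) (fun _ => cm (Jm n Q)) where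
  g := ⟨hQ.two, hQ.monic, hQ.deg, hQ.ne⟩
  det := Pool.Agent.Y119.HY.Jc_det hQ
  zero := Pool.Agent.Y119.HY.Jc_rel
  form := by
    intro x hx hx1
    refine Pool.Agent.Y119.HY.self_pair Ac_nil Pool.Agent.Y119.HY.Jc_rel ?_ (Pool.Agent.Y119.HY.sol_c hQ)
      (Pool.Agent.Y119.HY.real_mem_Lens hx hx1)
    rw [← Pool.Agent.Y119.HY.cm_transpose, ← Pool.Agent.Y119.HY.cm_mul, ← Pool.Agent.Y119.HY.cm_mul,
      ← Pool.Agent.Y119.HY.cm_add, Bm_rel hQ, Pool.Agent.Y119.HY.cm_zero]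
  inv := Pool.Agent.Y119.HY.hyp_invar hQ
  sdc := hH
  wex := ⟨Wp n Q, mul_Wp hQ, SDc_Wp hH⟩

/-- odd order -/
theorem Fam.ofO {n : ℕ} {Q : Polynomial ℚ} (hQ : QO n Q) (hH : ∀ i j, SDc (Hp n Q i j)) :
    Fam n Q (cm (J0m n)) (Bz (cm (J0m n)) (cm (J1m n Q))) where
  g := hQ.toQG
  det := (comp_q hQ).det
  zero := (comp_q hQ).zero
  form := fun x hx hx1 => self_pair' (comp_q hQ) (sol_c_g hQ.toQG) (Pool.Agent.Y119.HY.real_mem_Lens hx hx1)
  inv := hyp_invar_o hQ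
  sdc := hH
  wex := ⟨Wo n Q, mul_Wo hQ, SDc_Wo hH⟩

section one

variable {n : ℕ} {Q : Polynomial ℚ} {J0 : Matrix (Fin n) (Fin n) ℂ} {B : ℂ → Matrix (Fin n) (Fin n) ℂ}

/-- **invariance of the relations between the entries of the holomorphic part** -/
theorem Fam.rel_inv (hF : Fam n Q J0 B) {R : MvPolynomial (Fin (n * n)) (Polynomial ℚ)} (hR : MvPolynomial.aeval (hf n Q) R = 0)
    {x : ℝ} (hx : 0 < x) (hx1 : x < 1) {κ : Matrix (Fin n) (Fin n) ℂ} (hκ : κ.transpose * J0 * κ = J0) :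
    MvPolynomial.eval₂ (evq (x : ℂ)) (fun j => (Hf (Hc n Q) (x : ℂ) * κ) (ix n j).1 (ix n j).2) R = 0 := by
  set N := cm (Am n) with hNd
  have hN : N ^ n = 0 := Pool.Agent.Y119.HY.Ac_nil
  have hNJ : N.transpose * J0 + J0 * N = 0 := hF.zero
  -- the relation
  have hrel : PR N R ∈ Rel (Yf N (Hc n Q)) := by
    intro y hy hy1
    rw [ev_PR]
    have e1 : Yf N (Hc n Q) (y : ℂ) * E N (-Complex.log y) = Hf (Hc n Q) (y : ℂ) := by
      unfold Yf
      rw [Matrix.mul_assoc, E_mul_neg hN, mul_one]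
    rw [e1]
    have hy' : 1 < 1 / y := by rw [lt_div_iff₀ hy]; linarith
    have h1 := (ev_aeval_g hF.g hy' R).2
    rw [hR] at h1
    have h2 : ev (1 / y) (0 : ℚ⟦X⟧) = 0 := by
      unfold ev
      simp
    rw [h2, Complex.ofReal_zero, one_div_one_div] at h1
    have h3 : (fun j => ((ev (1 / y) (hf n Q j) : ℝ) : ℂ)) = fun j => Hf (Hc n Q) (y : ℂ) (ix n j).1 (ix n j).2 := by
      funext j
      unfold hf
      rw [ev_Hp, one_div_one_div]
    rw [h3] at h1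
    exact h1.symm
  set L : ℂ := Complex.log x with hL
  set g : Matrix (Fin n) (Fin n) ℂ := E N (-L) * κ * E N L with hg
  have hgJ : g.transpose * J0 * g = J0 := by
    have i1 := E_isom hN hNJ (-L)
    have i2 := E_isom hN hNJ L
    calc g.transpose * J0 * g = (E N L).transpose * (κ.transpose * ((E N (-L)).transpose * J0 * E N (-L)) * κ) *
          E N L := by
            rw [hg, Matrix.transpose_mul, Matrix.transpose_mul]
            simp only [Matrix.mul_assoc]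
      _ = _ := by rw [i1, hκ, i2]
  have h1 := hF.inv g hgJ _ hrel x hx hx1
  rw [ev_PR] at h1
  have e2 : Yf N (Hc n Q) (x : ℂ) * g * E N (-L) = Hf (Hc n Q) (x : ℂ) * κ := by
    unfold Yf
    have e3 : E N L * E N (-L) = 1 := E_mul_neg hN L
    calc Hf (Hc n Q) (x : ℂ) * E N (Complex.log x) * g * E N (-L) =
          Hf (Hc n Q) (x : ℂ) * (E N L * E N (-L)) * κ * (E N L * E N (-L)) := by
            rw [hg]
            simp only [Matrix.mul_assoc]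
            rfl
      _ = _ := by rw [e3, mul_one, mul_one]
  rw [← hL, e2] at h1
  exact h1

end one

variable {k : ℕ} {n : Fin k → ℕ} {Q : Fin k → Polynomial ℚ} {J0 : ∀ i, Matrix (Fin (n i)) (Fin (n i)) ℂ}
  {B : ∀ i, ℂ → Matrix (Fin (n i)) (Fin (n i)) ℂ}

theorem relI_vanish_g (hQ : ∀ i, Fam (n i) (Q i) (J0 i) (B i)) {δ : ℕ} {t : Fin k → ℕ} (ht : ∀ i, 2 ≤ t i)
    {κ : ∀ i, Matrix (Fin (n i)) (Fin (n i)) ℂ}
    (hκ : ∀ i, (κ i).transpose * J0 i * κ i = J0 i) (l : Fin k → ℂ)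
    {P : MvPolynomial (Vx n) ℂ} (hP : P ∈ relI δ (fun i => hf (n i) (Q i)) t) :
    MvPolynomial.aeval (pt (fun i j => (Hf (Hc (n i) (Q i)) (((1 / (t i : ℝ) : ℝ)) : ℂ) * κ i) (ix (n i) j).1 (ix (n i) j).2) l) P = 0 := by
  set θ := pt (fun i j => (Hf (Hc (n i) (Q i)) (((1 / (t i : ℝ) : ℝ)) : ℂ) * κ i) (ix (n i) j).1 (ix (n i) j).2) l with hθ
  have h1 : relI δ (fun i => hf (n i) (Q i)) t ≤ RingHom.ker (MvPolynomial.aeval (R := ℂ) θ).toRingHom := by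
    unfold relI
    rw [Ideal.span_le]
    rintro _ ⟨i, R, -, hR, rfl⟩
    show (MvPolynomial.aeval θ) (MvPolynomial.rename (fun j => (⟨i, some j⟩ : Vx n)) (MvPolynomial.map (spec (t i)) R)) = 0
    rw [MvPolynomial.aeval_rename, MvPolynomial.aeval_def, MvPolynomial.eval₂_map]
    have h2 : (algebraMap ℂ ℂ).comp (spec (t i)) = evq (((1 / (t i : ℝ) : ℝ)) : ℂ) := by
      rw [← spec_eq]
      rfl
    rw [h2]
    have h3 : (2 : ℝ) ≤ t i := by exact_mod_cast ht i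
    have h4 := (hQ i).rel_inv (R := R) hR (x := 1 / (t i : ℝ)) (by positivity) (by rw [div_lt_one (by linarith)]; linarith)
      (hκ i)
    have h5 : (θ ∘ fun j => (⟨i, some j⟩ : Vx n)) = fun j : Fin (n i * n i) =>
        (Hf (Hc (n i) (Q i)) (((1 / (t i : ℝ) : ℝ)) : ℂ) * κ i) (ix (n i) j).1 (ix (n i) j).2 := by
      funext j
      rfl
    rw [h5]
    exact h4
  exact h1 hP

/-- the period matrix is in the torsor -/
theorem Fam.Yt_form {n : ℕ} {Q : Polynomial ℚ} {J0 : Matrix (Fin n) (Fin n) ℂ} {B : ℂ → Matrix (Fin n) (Fin n) ℂ}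
    (hF : Fam n Q J0 B) {t : ℕ} (ht : 2 ≤ t) :
    (Yt n Q t).transpose * B (((1 / (t : ℝ) : ℝ)) : ℂ) * Yt n Q t = J0 := by
  have ht0 : (2 : ℝ) ≤ t := by exact_mod_cast ht
  rw [Yt_eq (by omega)]
  exact hF.form _ (by positivity) (by rw [div_lt_one (by linarith)]; linarith)

/-- the holomorphic part is in the torsor and invertible -/
lemma Fam.Hf_form {n : ℕ} {Q : Polynomial ℚ} {J0 : Matrix (Fin n) (Fin n) ℂ} {B : ℂ → Matrix (Fin n) (Fin n) ℂ}
    (hF : Fam n Q J0 B) {t : ℕ} (ht : 2 ≤ t) :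
    (Hf (Hc n Q) (((1 / (t : ℝ) : ℝ)) : ℂ)).transpose * B (((1 / (t : ℝ) : ℝ)) : ℂ) *
      Hf (Hc n Q) (((1 / (t : ℝ) : ℝ)) : ℂ) = J0 := by
  have hN : (cm (Am n)) ^ n = 0 := Pool.Agent.Y119.HY.Ac_nil
  have h1 := E_isom hN hF.zero ((Real.log t : ℝ) : ℂ)
  have h2 : Yt n Q t * E (cm (Am n)) ((Real.log t : ℝ) : ℂ) = Hf (Hc n Q) (((1 / (t : ℝ) : ℝ)) : ℂ) := by
    unfold Yt
    have h3 : E (cm (Am n)) (-((Real.log t : ℝ) : ℂ)) * E (cm (Am n)) ((Real.log t : ℝ) : ℂ) = 1 := by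
      have := E_mul_neg hN (-((Real.log t : ℝ) : ℂ))
      rwa [neg_neg] at this
    rw [Matrix.mul_assoc, h3, mul_one]
  rw [← h2, Matrix.transpose_mul]
  calc _ = (E (cm (Am n)) ((Real.log t : ℝ) : ℂ)).transpose * ((Yt n Q t).transpose * B (((1 / (t : ℝ) : ℝ)) : ℂ) *
        Yt n Q t) * E (cm (Am n)) ((Real.log t : ℝ) : ℂ) := by simp only [Matrix.mul_assoc]
    _ = J0 := by rw [hF.Yt_form ht, h1]

/-- points of the torsor are translates of a point -/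
lemma torsor_inv {n : ℕ} {J0 B Z X : Matrix (Fin n) (Fin n) ℂ} (hdet : J0.det ≠ 0) (hZ : Z.transpose * B * Z = J0)
    (hX : X.transpose * B * X = J0) : ∃ g : Matrix (Fin n) (Fin n) ℂ, g.transpose * J0 * g = J0 ∧ Z * g = X := by
  have h1 : (J0⁻¹ * Z.transpose * B) * Z = 1 := by
    rw [Matrix.mul_assoc, Matrix.mul_assoc, ← Matrix.mul_assoc Z.transpose, hZ]
    exact Matrix.nonsing_inv_mul _ (Ne.isUnit hdet)
  have h2 : Z * (J0⁻¹ * Z.transpose * B) = 1 := mul_eq_one_comm.1 h1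
  refine ⟨(J0⁻¹ * Z.transpose * B) * X, ?_, by rw [← Matrix.mul_assoc, h2, one_mul]⟩
  set W := J0⁻¹ * Z.transpose * B
  have h3 : W.transpose * Z.transpose = 1 := by rw [← Matrix.transpose_mul, h2, Matrix.transpose_one]
  calc (W * X).transpose * J0 * (W * X) = X.transpose * (W.transpose * (Z.transpose * B * Z) * W) * X := by
        rw [hZ, Matrix.transpose_mul]
        simp only [Matrix.mul_assoc]
    _ = X.transpose * ((W.transpose * Z.transpose) * B * (Z * W)) * X := by simp only [Matrix.mul_assoc]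
    _ = J0 := by rw [h2, h3, one_mul, mul_one, hX]

/-- **Few exceptional tuples.** -/
theorem tuples_log (k δ D : ℕ) (n : Fin k → ℕ) (Q : Fin k → Polynomial ℚ) (J0 : ∀ i, Matrix (Fin (n i)) (Fin (n i)) ℂ)
    (B : ∀ i, ℂ → Matrix (Fin (n i)) (Fin (n i)) ℂ) (hQ : ∀ i, Fam (n i) (Q i) (J0 i) (B i)) :
    ∃ c C : ℝ, 0 < c ∧ 0 ≤ C ∧ ∀ (V : Submodule ℚ ℂ) [Module.Finite ℚ V], Module.finrank ℚ V ≤ D →
      ∀ Ω : (∀ i, Matrix (Fin (n i)) (Fin (n i)) ℂ), ∀ (x : Fin k → ℕ) (N : ℕ), (∀ i, 1 ≤ x i) → 1 ≤ N →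
      ∀ S : Finset (Fin k → ℕ), (∀ t ∈ S, (∀ i, x i < t i ∧ t i ≤ x i + N) ∧ ∃ P : MvPolynomial (Jx n) ℂ,
        P.totalDegree ≤ δ ∧ (∀ s, P.coeff s ∈ V) ∧
        MvPolynomial.aeval (pw (fun i => ((Real.log (t i) : ℝ) : ℂ)) fun i => Yt (n i) (Q i) (t i) * Ω i) P = 0 ∧
        ∃ (l : Fin k → ℂ) (g : ∀ i, Matrix (Fin (n i)) (Fin (n i)) ℂ),
          (∀ i, (g i).transpose * B i (((1 / (t i : ℝ) : ℝ)) : ℂ) * g i = J0 i) ∧
          MvPolynomial.aeval (pw l fun i => g i * Ω i) P ≠ 0) →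
      (S.card : ℝ) ≤ C * (N : ℝ) ^ (k - 1) * ∑ i, (1 + N / ((x i : ℝ) + N) ^ c) := by
  classical
  obtain ⟨c, C, hc, hC, hmain⟩ := tuples k (δ * dg n) ((Fintype.card (Option (Ix n))) ^ δ * D) (fun i => n i * n i)
    (fun i => hf (n i) (Q i)) (fun i => by
      obtain ⟨C₁, -, hs, -⟩ := Pool.Agent.Y119.HY.SDc.unif
        (y := fun p : Fin (n i) × Fin (n i) => Hp (n i) (Q i) p.1 p.2) fun p => (hQ i).sdc p.1 p.2
      exact ⟨C₁, fun j m => hs (ix (n i) j) m⟩) (fun i => by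
      obtain ⟨W, hW1, hW2⟩ := (hQ i).wex
      exact hfam_hf_g (hQ i).g (hQ i).sdc hW1 hW2 _)
  refine ⟨c, C, hc, hC, ?_⟩
  intro V _ hV Ω x N hx hN S hS
  obtain ⟨hfin, hrank⟩ := Vn_fin Ω V δ
  refine hmain (Vn Ω V δ) (hrank.trans (Nat.mul_le_mul_left _ hV)) x N hN S fun t htS => ?_
  obtain ⟨hbox, P, hPd, hPV, hP0, l, g, hg, hPg⟩ := hS t htS
  refine ⟨hbox, MvPolynomial.aeval (sub' Ω) P, (aeval_MV' Ω hPd hPV).2, (aeval_MV' Ω hPd hPV).1, ?_, ?_⟩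
  · -- the value
    have h1 : valpt (fun i => hf (n i) (Q i)) t =
        pt (fun i j => Hf (Hc (n i) (Q i)) (((1 / (t i : ℝ) : ℝ)) : ℂ) (ix (n i) j).1 (ix (n i) j).2)
          (fun i => ((Real.log (t i) : ℝ) : ℂ)) := by
      unfold valpt
      congr 1
      funext i j
      exact ev_Hp _ _ _
    have h2 : MvPolynomial.aeval (valpt (fun i => hf (n i) (Q i)) t) (MvPolynomial.aeval (sub' Ω) P) =
        MvPolynomial.aeval (fun v => MvPolynomial.aeval (valpt (fun i => hf (n i) (Q i)) t) (sub' Ω v)) P :=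
      MvPolynomial.aeval_bind₁ _ _ _
    rw [h2, h1]
    have h3 := fun v => aeval_sub' Ω (fun i => Hf (Hc (n i) (Q i)) (((1 / (t i : ℝ) : ℝ)) : ℂ)) (fun i => ((Real.log (t i) : ℝ) : ℂ)) v
    simp only [h3]
    exact hP0
  · intro hmem
    apply hPg
    set N' := fun i => cm (Am (n i)) with hN'
    have ht2 : ∀ i, 2 ≤ t i := fun i => by
      have := (hbox i).1
      have := hx i
      omega
    have hN : ∀ i, (N' i) ^ n i = 0 := fun i => Pool.Agent.Y119.HY.Ac_nil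
    have hEiso : ∀ i (s : ℂ), (E (N' i) s).transpose * J0 i * E (N' i) s = J0 i :=
      fun i s => E_isom (hN i) (hQ i).zero s
    have hinv := fun i => torsor_inv (hQ i).det ((hQ i).Hf_form (ht2 i)) (hg i)
    choose κ₀ hκ₀ hκ₀g using hinv
    let κ : ∀ i, Matrix (Fin (n i)) (Fin (n i)) ℂ := fun i => κ₀ i * E (N' i) (l i)
    have hκ : ∀ i, (κ i).transpose * J0 i * κ i = J0 i := fun i => isom_mul (hκ₀ i) (hEiso i (l i))
    have h1 := relI_vanish_g hQ ht2 hκ l hmem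
    have h2 : MvPolynomial.aeval (pt (fun i j => (Hf (Hc (n i) (Q i)) (((1 / (t i : ℝ) : ℝ)) : ℂ) * κ i)
        (ix (n i) j).1 (ix (n i) j).2) l) (MvPolynomial.aeval (sub' Ω) P) =
        MvPolynomial.aeval (fun v => MvPolynomial.aeval (pt (fun i j => (Hf (Hc (n i) (Q i)) (((1 / (t i : ℝ) : ℝ)) : ℂ) * κ i)
          (ix (n i) j).1 (ix (n i) j).2) l) (sub' Ω v)) P := MvPolynomial.aeval_bind₁ _ _ _
    rw [h2] at h1
    have h3 := fun v => aeval_sub' Ω (fun i => Hf (Hc (n i) (Q i)) (((1 / (t i : ℝ) : ℝ)) : ℂ) * κ i) l v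
    simp only [h3] at h1
    have h4 : (fun i => Hf (Hc (n i) (Q i)) (((1 / (t i : ℝ) : ℝ)) : ℂ) * κ i * E (cm (Am (n i))) (-l i) * Ω i) =
        fun i => g i * Ω i := by
      funext i
      have e1 : E (N' i) (l i) * E (N' i) (-l i) = 1 := E_mul_neg (hN i) (l i)
      calc Hf (Hc (n i) (Q i)) (((1 / (t i : ℝ) : ℝ)) : ℂ) * κ i * E (N' i) (-l i) * Ω i =
          (Hf (Hc (n i) (Q i)) (((1 / (t i : ℝ) : ℝ)) : ℂ) * κ₀ i) * (E (N' i) (l i) * E (N' i) (-l i)) * Ω i := by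
            show Hf (Hc (n i) (Q i)) (((1 / (t i : ℝ) : ℝ)) : ℂ) * (κ₀ i * E (N' i) (l i)) * E (N' i) (-l i) * Ω i = _
            simp only [Matrix.mul_assoc]
        _ = g i * Ω i := by rw [e1, mul_one, hκ₀g]
    rw [h4] at h1
    exact h1

end Run7.h893.HO
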