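import Pool.Agent.Y119.HY.Fin2

/-!
# Hypergeometric systems with exponents `0, …, 0` at `0`: general exponents at infinity
-/

set_option autoImplicit false

open Filter Topology Matrix Pool.Agent.Y119.HY

namespace Run7.h893.HO

/-- monic polynomials of degree `n` without roots at the natural numbers -/
structure QG (n : ℕ) (Q : Polynomial ℚ) : Prop where
  two : 2 ≤ n
  monic : Q.Monic
  deg : Q.natDegree = n
  ne : ∀ l : ℕ, Q.eval (l : ℚ) ≠ 0

variable {n : ℕ} {Q : Polynomial ℚ}

lemma Bm_mul_g (k : ℕ) (hQ : QG n Q) (i j : Fin n) : (Bm n Q * Hq n Q k) i j = if (i : ℕ) + 1 = n then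
    PowerSeries.coeff (j : ℕ) (Polynomial.aeval (kx k) Q * aq n Q k) -
      PowerSeries.coeff (j : ℕ) (kx k ^ n * aq n Q k) else 0 := by
  rw [Matrix.mul_apply]
  unfold Bm
  simp only [Matrix.of_apply, ite_mul, zero_mul]
  split_ifs with h
  · have h1 : Polynomial.aeval (kx k) Q = ∑ l ∈ Finset.range n, PowerSeries.C (Q.coeff l) * kx k ^ l + kx k ^ n := by
      rw [Polynomial.aeval_eq_sum_range, hQ.deg, Finset.sum_range_succ]
      have h2 : Q.coeff n = 1 := by
        rw [← hQ.deg]
        exact hQ.monic.coeff_natDegree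
      rw [h2, one_smul]
      congr 1
      refine Finset.sum_congr rfl fun l _ => ?_
      rw [PowerSeries.smul_eq_C_mul]
    rw [h1, add_mul, map_add, add_sub_cancel_right, Finset.sum_mul, map_sum, Finset.sum_range]
    refine Finset.sum_congr rfl fun l _ => ?_
    rw [mul_assoc, PowerSeries.coeff_C_mul]
    rfl
  · exact Finset.sum_const_zero

theorem step_q_g (hQ : QG n Q) (k : ℕ) (i j : Fin n) :
    ((k : ℚ) + 1) * Hq n Q (k + 1) i j + ((Hq n Q (k + 1) * Am n) i j - (Am n * Hq n Q (k + 1)) i j) =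
    (k : ℚ) * Hq n Q k i j + ((Hq n Q k * Am n) i j - (Am n * Hq n Q k) i j) + (Bm n Q * Hq n Q k) i j := by
  have e1 := lin_eq (n := n) (Q := Q) (k + 1) i j
  have e2 := lin_eq (n := n) (Q := Q) k i j
  push_cast at e1
  rw [add_sub_assoc', add_sub_assoc', e1, e2, Am_mul, Am_mul, Bm_mul_g k hQ]
  by_cases h : (i : ℕ) + 1 < n
  · rw [dif_pos h, dif_pos h, if_neg (by omega)]
    unfold Hq hq
    simp only [Matrix.of_apply, sub_self, add_zero]
  · have h' : (i : ℕ) + 1 = n := by have := i.2; omega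
    rw [dif_neg h, dif_neg h, if_pos h', h', sub_zero, sub_zero, add_sub_cancel, aq_succ]

lemma sol_c_g (hQ : QG n Q) : Sol (cm (Am n)) (cm (Bm n Q)) (Hc n Q) := by
  refine ⟨?_, fun k => ?_⟩
  · unfold Hc
    rw [Hq_zero, cm_one]
  · ext i j
    have h := step_q_g hQ k i j
    unfold Hc
    rw [← cm_mul, ← cm_mul, ← cm_mul, ← cm_mul, ← cm_mul]
    simp only [Matrix.add_apply, Matrix.smul_apply, Matrix.sub_apply, smul_eq_mul, cm_apply]
    exact_mod_cast h

lemma a0_ne_g (hQ : QG n Q) (k : ℕ) : a0 n Q k ≠ 0 := by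
  induction k with
  | zero =>
    unfold a0 aq
    simp
  | succ k ih =>
    rw [a0_succ]
    refine mul_ne_zero ih (div_ne_zero (hQ.ne k) (pow_ne_zero _ ?_))
    exact_mod_cast Nat.succ_ne_zero k

lemma ratio_g (hQ : QG n Q) : Tendsto (fun k : ℕ => (((Q.eval (k : ℚ) / ((k : ℚ) + 1) ^ n : ℚ)) : ℝ)) atTop (𝓝 1) := by
  set P : Polynomial ℝ := Q.map (algebraMap ℚ ℝ) with hP
  set R : Polynomial ℝ := (Polynomial.X + Polynomial.C 1) ^ n with hR
  have hRm : R.Monic := (Polynomial.monic_X_add_C (1 : ℝ)).pow n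
  have hPm : P.Monic := hQ.monic.map _
  have hdeg : P.degree = R.degree := by
    rw [Polynomial.degree_eq_natDegree hPm.ne_zero, Polynomial.degree_eq_natDegree hRm.ne_zero, hP,
      Polynomial.natDegree_map, hQ.deg, hR, Polynomial.natDegree_pow, Polynomial.natDegree_X_add_C, mul_one]
  have h1 := Polynomial.div_tendsto_atTop_leadingCoeff_div_of_degree_eq P R hdeg
  rw [hPm.leadingCoeff, hRm.leadingCoeff, div_one] at h1
  have h2 := h1.comp (tendsto_natCast_atTop_atTop (R := ℝ))
  refine h2.congr fun k => ?_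
  simp only [Function.comp]
  rw [hR, Polynomial.eval_pow, Polynomial.eval_add, Polynomial.eval_X, Polynomial.eval_C, hP]
  push_cast
  congr 1
  rw [Polynomial.eval_map, ← Polynomial.aeval_def]
  have := Polynomial.aeval_algebraMap_apply ℝ (k : ℚ) Q
  simp only [map_natCast] at this
  rw [this, Polynomial.aeval_def]
  rfl

/-- the first solution is singular at one -/
lemma sing_g (hQ : QG n Q) (g : ℂ → ℂ) (hg : AnalyticOnNhd ℂ g (Metric.ball 1 1))
    (hext : ∀ z ∈ Lens, (Hf (Hc n Q) z *ᵥ ec n) ⟨0, by have := hQ.two; omega⟩ = g z) : False := by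
  have hn := hQ.two
  have e1 : ∀ z, (Hf (Hc n Q) z *ᵥ ec n) ⟨0, by omega⟩ = ps (fun k => (((a0 n Q k : ℚ) : ℝ) : ℂ)) z := by
    intro z
    rw [mv_apply]
    unfold ec
    rw [Finset.sum_eq_single ⟨0, by omega⟩]
    · rw [if_pos rfl, mul_one]
      unfold Hf
      rw [Matrix.of_apply]
      congr 1
      funext k
      unfold Hc
      rw [cm_apply]
      unfold Hq hq a0
      rw [Matrix.of_apply]
      simp
    · intro b _ hb
      rw [if_neg, mul_zero]
      intro h'
      exact hb (Fin.ext h')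
    · intro h'
      exact absurd (Finset.mem_univ _) h'
  have hpg : PG fun k => (((a0 n Q k : ℚ) : ℝ) : ℂ) := by
    have h := (sol_c_g hQ).growth Ac_nil ⟨0, by omega⟩ ⟨0, by omega⟩
    refine (congrArg PG ?_).mp h
    funext k
    unfold Hc
    rw [cm_apply]
    unfold Hq hq a0
    rw [Matrix.of_apply]
    simp
  obtain ⟨K₀, hK₀⟩ := Filter.eventually_atTop.1 ((ratio_g hQ).eventually (lt_mem_nhds (show (9 / 10 : ℝ) < 1 by norm_num)))
  have hstep : ∀ k, ((a0 n Q (k + 1) : ℚ) : ℝ) = ((a0 n Q k : ℚ) : ℝ) * ((Q.eval (k : ℚ) / ((k : ℚ) + 1) ^ n : ℚ) : ℝ) := by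
    intro k
    rw [a0_succ]
    push_cast
    rfl
  rcases lt_or_gt_of_ne (a0_ne_g hQ K₀) with h0 | h0
  · -- negative
    have hpos : ∀ k ≥ K₀, ((a0 n Q k : ℚ) : ℝ) < 0 := by
      intro k hk
      induction k, hk using Nat.le_induction with
      | base => exact_mod_cast h0
      | succ k hk ih =>
        rw [hstep]
        exact mul_neg_of_neg_of_pos ih (by linarith [hK₀ k hk])
    refine no_ext (a := fun k => -((a0 n Q k : ℚ) : ℝ)) (K₀ := K₀) ?_ (fun k hk => by linarith [hpos k hk]) (fun k hk => ?_)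
      (g := fun z => -g z) hg.neg fun z hz => ?_
    · have := hpg.smul (-1)
      refine (congrArg PG ?_).mp this
      funext k
      push_cast
      ring
    · rw [hstep]
      nlinarith [hpos k hk, hK₀ k hk]
    · rw [← hext z hz, e1 z]
      have := ps_smul (c := fun k => (((a0 n Q k : ℚ) : ℝ) : ℂ)) (-1) z
      rw [neg_one_mul] at this
      rw [← this]
      congr 1
      funext k
      push_cast
      ring
  · have hpos : ∀ k ≥ K₀, 0 < ((a0 n Q k : ℚ) : ℝ) := by
      intro k hk
      induction k, hk using Nat.le_induction with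
      | base => exact_mod_cast h0
      | succ k hk ih =>
        rw [hstep]
        exact mul_pos ih (by linarith [hK₀ k hk])
    refine no_ext hpg hpos (fun k hk => ?_) hg fun z hz => ?_
    · rw [hstep]
      nlinarith [hpos k hk, hK₀ k hk]
    · rw [← hext z hz, e1 z]

end Run7.h893.HO
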