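import Pool.Agent.Run7.h893.HO.Gen

/-!
# Hypergeometric systems: the G-system of the holomorphic part
-/

set_option autoImplicit false

open PowerSeries
open Pool.Agent.Y113 hiding Bm
open Pool.Agent.Y120.GF Pool.Agent.Y120.GH Pool.Agent.Y119.HZ
open Pool.Agent.Y119.HY (QD Am Jm Bm Hq hq hps Hq_zero step_q Jm_rel Jm_det Am_nil mul_Am QB cm Ep E Ep_eval E_HD E_neg Hf Hc Yf Vr Rel Gal E_add E_zero E_mul_neg E_isom)

namespace Run7.h893.HO

variable {n : ℕ} {Q : Polynomial ℚ}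

/-- the system at the origin -/
theorem ode_Hp_g (hQ : QG n Q) : (1 - X : ℚ⟦X⟧) • (th (Hp n Q) + Hp n Q * km (Am n)) =
    ((1 - X : ℚ⟦X⟧) • km (Am n) + (X : ℚ⟦X⟧) • km (Bm n Q)) * Hp n Q := by
  have hS : (1 - X : ℚ⟦X⟧) • (th (Hp n Q) + Hp n Q * km (Am n) - km (Am n) * Hp n Q) = (X : ℚ⟦X⟧) • (km (Bm n Q) * Hp n Q) := by
    have hc : ∀ k, cf (th (Hp n Q) + Hp n Q * km (Am n) - km (Am n) * Hp n Q) k =
        (k : ℚ) • Hq n Q k + (Hq n Q k * Am n - Am n * Hq n Q k) := by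
      intro k
      have h1 : cf (th (Hp n Q) + Hp n Q * km (Am n) - km (Am n) * Hp n Q) k =
          cf (th (Hp n Q)) k + cf (Hp n Q * km (Am n)) k - cf (km (Am n) * Hp n Q) k := by
        ext i j
        unfold cf
        simp only [Matrix.map_apply, Matrix.sub_apply, Matrix.add_apply, map_sub, map_add]
      rw [h1, cf_th, cf_mul_km, cf_km_mul, cf_Hp, add_sub_assoc]
    ext i j k
    rw [Matrix.smul_apply, Matrix.smul_apply, smul_eq_mul, smul_eq_mul, sub_mul, one_mul, map_sub]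
    have h2 : ∀ k, coeff k ((th (Hp n Q) + Hp n Q * km (Am n) - km (Am n) * Hp n Q) i j) =
        ((k : ℚ) • Hq n Q k + (Hq n Q k * Am n - Am n * Hq n Q k)) i j := fun k => congrFun (congrFun (hc k) i) j
    have h3 : ∀ k, coeff k ((km (Bm n Q) * Hp n Q) i j) = (Bm n Q * Hq n Q k) i j := by
      intro k
      have := congrFun (congrFun (cf_km_mul (Bm n Q) (Hp n Q) k) i) j
      rw [cf_Hp] at this
      exact this
    rcases k with _ | k
    · rw [coeff_zero_X_mul, coeff_zero_X_mul, h2, Hq_zero]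
      simp
    · rw [coeff_succ_X_mul, coeff_succ_X_mul, h2, h2, h3]
      have h4 := step_q_g hQ k i j
      simp only [Matrix.add_apply, Matrix.smul_apply, Matrix.sub_apply, smul_eq_mul]
      push_cast
      linear_combination h4
  rw [smul_sub] at hS
  rw [add_mul, smul_mul_assoc, smul_mul_assoc, ← hS]
  abel

lemma ode_int_g (hQ : QG n Q) {D : ℕ} {b : Fin n → Fin n → ℤ} (hb : ∀ i j, (b i j : ℚ) = D * Bm n Q i j) (i j : Fin n) :
    ps (T1 D) * (X * d⁄dX ℚ (Hp n Q i j) + ∑ k, Hp n Q i k * C (Am n k j)) = ∑ k, ps (A1 n D b i k) * Hp n Q k j := by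
  have h1 := congrFun (congrFun (ode_Hp_g hQ) i) j
  rw [Matrix.smul_apply, Matrix.add_apply, Matrix.mul_apply, Matrix.mul_apply, smul_eq_mul] at h1
  rw [ps_T1, mul_assoc]
  have h2 : X * d⁄dX ℚ (Hp n Q i j) = th (Hp n Q) i j := rfl
  have h3 : ∑ k, Hp n Q i k * C (Am n k j) = ∑ k, Hp n Q i k * km (Am n) k j := rfl
  rw [h2, h3, h1, Finset.mul_sum]
  refine Finset.sum_congr rfl fun k _ => ?_
  rw [ps_A1 hb, Matrix.add_apply, Matrix.smul_apply, Matrix.smul_apply, smul_eq_mul, smul_eq_mul, km_apply, km_apply]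
  ring

/-- **the entries of the holomorphic part form a G-system** -/
theorem gsys_Hp_g (hQ : QG n Q) (hH : ∀ i j, SDc (Hp n Q i j)) {W : Matrix (Fin n) (Fin n) ℚ⟦X⟧} (hHW : Hp n Q * W = 1)
    (hW : ∀ i j, SDc (W i j)) {D : ℕ} {b : Fin n → Fin n → ℤ}
    (hb : ∀ i j, (b i j : ℚ) = D * Bm n Q i j) :
    ∃ (q : ℕ) (C : ℝ), GSys q C (Polynomial.X * T1 D) (fun p : Fin n × Fin n => Hp n Q p.1 p.2) :=
  gsysL (N := Am n) Am_nil hHW (ode_int_g hQ hb) hH hW

lemma ode_A2_g (hQ : QG n Q) {D : ℕ} {b : Fin n → Fin n → ℤ} (hb : ∀ i j, (b i j : ℚ) = D * Pool.Agent.Y119.HY.Bm n Q i j)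
    (p : Fin n × Fin n) : ps (Polynomial.X * T1 D) * d⁄dX ℚ (Hp n Q p.1 p.2) =
      ∑ q, ps (A2 n D b p q) * Hp n Q q.1 q.2 := by
  have h1 := sum_A2 psR D b p (fun q => Hp n Q q.1 q.2)
  simp only [psR_Ni] at h1
  simp only [psR_apply] at h1
  rw [h1, ← ode_int_g hQ hb, ps_X_mul]
  have h2 : ∑ l, C (Am n l p.2) * Hp n Q p.1 l = ∑ k, Hp n Q p.1 k * C (Am n k p.2) :=
    Finset.sum_congr rfl fun l _ => mul_comm _ _
  rw [h2]
  ring

theorem Phi_ode_g (hQ : QG n Q) {D : ℕ} {b : Fin n → Fin n → ℤ} (hb : ∀ i j, (b i j : ℚ) = D * Pool.Agent.Y119.HY.Bm n Q i j)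
    (p q : Fin n × Fin n) (k : ℕ) : cxR (T1 D) * ((X : PowerSeries ℂ) * PowerSeries.derivative ℂ ((Phi n Q p q).coeff k) +
      ((k : PowerSeries ℂ) + 1) * (Phi n Q p q).coeff (k + 1)) = ∑ l, cxR (A2 n D b p l) * (Phi n Q l q).coeff k := by
  have hN : cm (Am n) ^ n = 0 := Pool.Agent.Y119.HY.Ac_nil
  set N := cm (Am n) with hNd
  obtain ⟨i, j⟩ := p
  obtain ⟨a, c'⟩ := q
  -- the equation over the complex numbers
  have hode : ∀ i j, cxR (T1 D) * (X * PowerSeries.derivative ℂ (cx (Hp n Q i j)) + ∑ k, cx (Hp n Q i k) * C (N k j)) =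
      ∑ k, cxR (A1 n D b i k) * cx (Hp n Q k j) := by
    intro i j
    have h1 := congrArg cx (ode_int_g hQ hb i j)
    rw [map_mul, map_add, map_mul, map_sum, map_sum, cx_der] at h1
    have h2 : cx (X : ℚ⟦X⟧) = X := by rw [cx, map_X]
    rw [h2] at h1
    simp only [map_mul, cx_C] at h1
    exact h1
  rw [sum_A2]
  simp only [cxR_Ni]
  simp only [Phi_coeff]
  -- the derivative of the coefficients
  have hd : PowerSeries.derivative ℂ (∑ c, cx (Hp n Q i c) * C ((pE N c a c' j).coeff k)) =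
      ∑ c, PowerSeries.derivative ℂ (cx (Hp n Q i c)) * C ((pE N c a c' j).coeff k) := by
    rw [map_sum]
    refine Finset.sum_congr rfl fun c _ => ?_
    rw [Derivation.leibniz, PowerSeries.derivative_C]
    simp only [smul_eq_mul]
    ring
  have hk : ((k : PowerSeries ℂ) + 1) * ∑ c, cx (Hp n Q i c) * C ((pE N c a c' j).coeff (k + 1)) =
      ∑ c, (∑ d, cx (Hp n Q i d) * C (N d c)) * C ((pE N c a c' j).coeff k) -
      ∑ l, C (N l j) * ∑ c, cx (Hp n Q i c) * C ((pE N c a c' l).coeff k) := by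
    have e1 : ((k : PowerSeries ℂ) + 1) = C ((k : ℂ) + 1) := by rw [map_add, map_one, map_natCast]
    have e2 : ∀ c, C ((k : ℂ) + 1) * (cx (Hp n Q i c) * C ((pE N c a c' j).coeff (k + 1))) =
        cx (Hp n Q i c) * (∑ d, C (N c d) * C ((pE N d a c' j).coeff k)) -
        cx (Hp n Q i c) * ∑ d, C (N d j) * C ((pE N c a c' d).coeff k) := by
      intro c
      have e3 : C ((k : ℂ) + 1) * C ((pE N c a c' j).coeff (k + 1)) =
          (∑ d, C (N c d) * C ((pE N d a c' j).coeff k)) - ∑ d, C (N d j) * C ((pE N c a c' d).coeff k) := by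
        rw [← map_mul, pE_deriv hN, map_sub, map_sum, map_sum]
        simp only [map_mul]
      rw [← mul_sub, ← e3]
      ring
    rw [e1, Finset.mul_sum, Finset.sum_congr rfl fun c _ => e2 c, Finset.sum_sub_distrib]
    congr 1
    · simp only [Finset.mul_sum, Finset.sum_mul]
      rw [Finset.sum_comm]
      exact Finset.sum_congr rfl fun c _ => Finset.sum_congr rfl fun d _ => by ring
    · simp only [Finset.mul_sum]
      rw [Finset.sum_comm]
      exact Finset.sum_congr rfl fun c _ => Finset.sum_congr rfl fun d _ => by ring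
  rw [hd, hk]
  have hmain : cxR (T1 D) * ((X : PowerSeries ℂ) * ∑ c, PowerSeries.derivative ℂ (cx (Hp n Q i c)) * C ((pE N c a c' j).coeff k) +
      ∑ c, (∑ d, cx (Hp n Q i d) * C (N d c)) * C ((pE N c a c' j).coeff k)) =
      ∑ k', cxR (A1 n D b i k') * ∑ c, cx (Hp n Q k' c) * C ((pE N c a c' j).coeff k) := by
    have e1 : (X : PowerSeries ℂ) * ∑ c, PowerSeries.derivative ℂ (cx (Hp n Q i c)) * C ((pE N c a c' j).coeff k) +
        ∑ c, (∑ d, cx (Hp n Q i d) * C (N d c)) * C ((pE N c a c' j).coeff k) =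
        ∑ c, (X * PowerSeries.derivative ℂ (cx (Hp n Q i c)) + ∑ d, cx (Hp n Q i d) * C (N d c)) *
          C ((pE N c a c' j).coeff k) := by
      rw [Finset.mul_sum, ← Finset.sum_add_distrib]
      exact Finset.sum_congr rfl fun c _ => by ring
    rw [e1, Finset.mul_sum]
    have e2 : ∀ c, cxR (T1 D) * ((X * PowerSeries.derivative ℂ (cx (Hp n Q i c)) + ∑ d, cx (Hp n Q i d) * C (N d c)) *
          C ((pE N c a c' j).coeff k)) = ∑ k', cxR (A1 n D b i k') * (cx (Hp n Q k' c) * C ((pE N c a c' j).coeff k)) := by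
      intro c
      rw [← mul_assoc, hode i c, Finset.sum_mul]
      exact Finset.sum_congr rfl fun k' _ => by ring
    rw [Finset.sum_congr rfl fun c _ => e2 c, Finset.sum_comm]
    exact Finset.sum_congr rfl fun k' _ => by rw [Finset.mul_sum]
  rw [← hmain]
  ring

theorem qu_hf_g (hQ : QG n Q) (hH : ∀ i j, SDc (Hp n Q i j)) {D : ℕ} {b : Fin n → Fin n → ℤ}
    (hb : ∀ i j, (b i j : ℚ) = D * Pool.Agent.Y119.HY.Bm n Q i j) :
    QU0 (Polynomial.X * T1 D) (fun a c : Fin (n * n) => A2 n D b (ix n a) (ix n c)) := by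
  classical
  obtain ⟨B, hB0, hB⟩ := pE_bound (cm (Am n))
  obtain ⟨C₁, hC₁, hs, -⟩ := Pool.Agent.Y119.HY.SDc.unif (y := fun p : Fin n × Fin n => Hp n Q p.1 p.2) fun p => hH p.1 p.2
  refine ⟨1, one_ne_zero, 0, (n * B + 1) * C₁, Matrix.of fun a c => Phi n Q (ix n a) (ix n c), fun a c k m => ?_,
    fun a c k => ?_, ?_⟩
  · rw [Matrix.of_apply, Phi_coeff, map_sum]
    have h1 : ∀ d, ‖coeff m (cx (Hp n Q (ix n a).1 d) * C ((pE (cm (Am n)) d (ix n c).1 (ix n c).2 (ix n a).2).coeff k))‖ ≤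
        C₁ ^ (m + 1) * B := by
      intro d
      rw [coeff_mul_C, norm_mul, norm_coeff_cx]
      exact mul_le_mul (hs (_, d) m) (hB _ _ _ _ _) (norm_nonneg _) (by positivity)
    refine (norm_sum_le _ _).trans ((Finset.sum_le_sum fun d _ => h1 d).trans ?_)
    rw [Finset.sum_const, Finset.card_univ, Fintype.card_fin, nsmul_eq_mul, mul_pow]
    have h2 : (n : ℝ) * B ≤ (n * B + 1) ^ (m + 1) := by
      have h3 : 0 ≤ (n : ℝ) * B := by positivity
      exact le_trans (by linarith) (le_self_pow₀ (by linarith) (by omega))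
    calc (n : ℝ) * (C₁ ^ (m + 1) * B) = (n * B) * C₁ ^ (m + 1) := by ring
      _ ≤ _ := mul_le_mul_of_nonneg_right h2 (by positivity)
  · have h1 := Phi_ode_g hQ hb (ix n a) (ix n c) k
    simp only [expand_poly one_ne_zero, Polynomial.expand_one]
    simp only [← cxR_apply]
    rw [Nat.cast_zero, zero_mul, sub_zero, Nat.cast_one, one_mul, pow_one]
    have h2 : ∑ l : Fin (n * n), cxR (A2 n D b (ix n a) (ix n l)) * ((Matrix.of fun a c => Phi n Q (ix n a) (ix n c)) l c).coeff k =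
        ∑ l, cxR (A2 n D b (ix n a) l) * (Phi n Q l (ix n c)).coeff k :=
      Equiv.sum_comp (ix n) fun l => cxR (A2 n D b (ix n a) l) * (Phi n Q l (ix n c)).coeff k
    rw [h2, ← h1, map_mul]
    have h3 : cxR Polynomial.X = (X : PowerSeries ℂ) := by
      rw [cxR_apply, Polynomial.map_X, Polynomial.coe_X]
    rw [h3, mul_assoc]
    rfl
  · intro h0
    have h1 := congrArg rho h0
    rw [RingHom.map_det, map_zero] at h1
    have h2 : rho.mapMatrix (Matrix.of fun a c : Fin (n * n) => Phi n Q (ix n a) (ix n c)) = 1 := by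
      ext a c
      rw [RingHom.mapMatrix_apply, Matrix.map_apply, Matrix.of_apply, rho_Phi, Matrix.one_apply]
      by_cases h3 : a = c
      · rw [if_pos h3, if_pos (by rw [h3])]
      · rw [if_neg h3, if_neg fun h4 => h3 ((ix n).injective h4)]
    rw [h2, Matrix.det_one] at h1
    exact one_ne_zero h1

/-- **the hypothesis of the theorem on tuples** -/
theorem hfam_hf_g (hQ : QG n Q) (hH : ∀ i j, SDc (Hp n Q i j)) {W : Matrix (Fin n) (Fin n) ℚ⟦X⟧} (hHW : Hp n Q * W = 1)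
    (hW : ∀ i j, SDc (W i j)) (δ : ℕ) :
    ∃ (B : Finset (Fin δ → Option (Fin (n * n)))) (a : Polynomial ℤ)
      (M : (Fin δ → Option (Fin (n * n))) → B → Polynomial ℤ), a ≠ 0 ∧
      (∀ b, ps a * yw (hf n Q) b = ∑ β, ps (M b β) * yw (hf n Q) β.1) ∧ One (XF δ fun β : B => yw (hf n Q) β.1) := by
  obtain ⟨D, b, hD, hb⟩ := exists_b n Q
  obtain ⟨q, C, hG⟩ := gsys_Hp_g hQ hH hHW hW hb
  have hG' := hG.reindex (ix n)
  have hT : Polynomial.X * T1 D ≠ 0 := by
    refine mul_ne_zero Polynomial.X_ne_zero (mul_ne_zero (Polynomial.C_ne_zero.2 (by exact_mod_cast hD)) ?_)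
    intro h0
    have := congrArg (Polynomial.eval 0) h0
    simp at this
  refine family_gsys (h := hf n Q) (A := fun a c => A2 n D b (ix n a) (ix n c)) hT (fun i => ?_) hG' (qu_hf_g hQ hH hb) δ
  have h1 := ode_A2_g hQ hb (ix n i)
  have h2 : ∑ j : Fin (n * n), ps (A2 n D b (ix n i) (ix n j)) * hf n Q j =
      ∑ q, ps (A2 n D b (ix n i) q) * Hp n Q q.1 q.2 :=
    Equiv.sum_comp (ix n) fun q => ps (A2 n D b (ix n i) q) * Hp n Q q.1 q.2
  exact h1.trans h2.symm

/-- the entries converge for `t > 1` -/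
lemma Cv_Hp_g (hQ : QG n Q) {t : ℝ} (ht : 1 < t) (i j : Fin n) : Cv t (Hp n Q i j) := by
  have h1 := ((Run7.h893.HO.sol_c_g hQ).growth Pool.Agent.Y119.HY.Ac_nil i j).summable
    (r := 1 / t) (by positivity) (by rw [div_lt_one (by linarith)]; exact ht)
  refine h1.congr fun m => ?_
  congr 1
  unfold Hc
  rw [Pool.Agent.Y119.HY.cm_apply]
  have h2 : coeff m (Hp n Q i j) = Pool.Agent.Y119.HY.Hq n Q m i j := congrFun (congrFun (cf_Hp (Q := Q) m) i) j
  rw [h2]
  have h3 : ((Pool.Agent.Y119.HY.Hq n Q m i j : ℚ) : ℂ) = (((Pool.Agent.Y119.HY.Hq n Q m i j : ℚ) : ℝ) : ℂ) := by push_cast; rfl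
  rw [h3, Complex.norm_real, Real.norm_eq_abs]

lemma ev_aeval_g (hQ : QG n Q) {t : ℝ} (ht : 1 < t) (R : MvPolynomial (Fin (n * n)) (Polynomial ℚ)) :
    Cv t (MvPolynomial.aeval (hf n Q) R) ∧ ((ev t (MvPolynomial.aeval (hf n Q) R) : ℝ) : ℂ) =
      MvPolynomial.eval₂ (evq (((1 / t : ℝ)) : ℂ)) (fun j => ((ev t (hf n Q j) : ℝ) : ℂ)) R := by
  have ht0 : 0 < t := by linarith
  induction R using MvPolynomial.induction_on with
  | C p =>
    have h1 : MvPolynomial.aeval (hf n Q) (MvPolynomial.C p) = (p : ℚ⟦X⟧) := by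
      rw [MvPolynomial.aeval_C, PowerSeries.algebraMap_apply']
      simp
    rw [h1, MvPolynomial.eval₂_C]
    refine ⟨Cv.coe p, ?_⟩
    rw [ev_coe]
    unfold evq
    have h2 : (((1 / t : ℝ)) : ℂ) = algebraMap ℝ ℂ (1 / t) := rfl
    rw [h2]
    show _ = Polynomial.aeval (algebraMap ℝ ℂ (1 / t)) p
    rw [Polynomial.aeval_algebraMap_apply]
    rfl
  | add p q hp hq =>
    rw [map_add, MvPolynomial.eval₂_add, ← hp.2, ← hq.2, Cv.ev_add ht0 hp.1 hq.1]
    refine ⟨Cv.add ht0 hp.1 hq.1, ?_⟩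
    push_cast
    rfl
  | mul_X p j hp =>
    have h1 : Cv t (hf n Q j) := Cv_Hp_g hQ ht _ _
    rw [map_mul, MvPolynomial.aeval_X, MvPolynomial.eval₂_mul, MvPolynomial.eval₂_X, ← hp.2, Cv.ev_mul ht0 hp.1 h1]
    refine ⟨Cv.mul ht0 hp.1 h1, ?_⟩
    push_cast
    rfl

end Run7.h893.HO
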