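import Pool.Agent.Run7.h893.HO.Form

/-!
# The bilinear relations of the power series, the inverse matrix, and the arithmetic of the coefficients
-/

set_option autoImplicit false

open PowerSeries
open Pool.Agent.Y113 hiding Bm
open Pool.Agent.Y119.HZ
open Pool.Agent.Y119.HY (QD Am Jm Bm Hq hq hps Hq_zero step_q Jm_rel Jm_det Am_nil mul_Am QB cm Ep E Ep_eval E_HD E_neg Hf Hc Yf Vr Rel Gal E_add E_zero E_mul_neg E_isom uq uq_eq aq SL poch_int kx SL_C SL_X SL_coeff sdc_of PG.exp Ac_nil cm_apply)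

namespace Run7.h893.HO

variable {n : ℕ} {Q : Polynomial ℚ}

/-- the form over the power series -/
noncomputable def BX (n : ℕ) (Q : Polynomial ℚ) : Matrix (Fin n) (Fin n) ℚ⟦X⟧ :=
  km (J0m n) - (X : ℚ⟦X⟧) • km (J1m n Q)

/-- the bilinear relations -/
theorem form_Hp_o (hQ : QO n Q) : (Hp n Q).transpose * BX n Q * Hp n Q = km (J0m n) := by
  set Z := (Hp n Q).transpose * BX n Q * Hp n Q with hZ
  set H := Hp n Q with hH
  set J := BX n Q with hJ
  set G : Matrix (Fin n) (Fin n) ℚ⟦X⟧ := (1 - X : ℚ⟦X⟧) • km (Am n) + (X : ℚ⟦X⟧) • km (Bm n Q) with hG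
  have hkm : ∀ M : Matrix (Fin n) (Fin n) ℚ, km M.transpose = (km M).transpose := fun M => rfl
  have hthJ : th J = -((X : ℚ⟦X⟧) • km (J1m n Q)) := by
    ext1 i j
    unfold th
    rw [Matrix.of_apply, hJ, BX, Matrix.sub_apply, Matrix.smul_apply, km_apply, km_apply, Matrix.neg_apply,
      Matrix.smul_apply, km_apply, smul_eq_mul, map_sub, Derivation.leibniz, PowerSeries.derivative_C,
      PowerSeries.derivative_C, PowerSeries.derivative_X]
    simp only [smul_eq_mul]
    ring
  have hGJ : G.transpose * J + J * G + (1 - X : ℚ⟦X⟧) • th J = 0 := by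
    have e0 : (km (Am n)).transpose * km (J0m n) = -(km (J0m n) * km (Am n)) := by
      rw [eq_neg_iff_add_eq_zero, ← hkm]
      unfold km
      rw [← map_mul, ← map_mul, ← map_add, J0m_rel, map_zero]
    have e1 : (km (Bm n Q)).transpose * km (J0m n) = (km (Am n)).transpose * km (J1m n Q) + km (J1m n Q) * km (Am n) +
        km (J1m n Q) - km (J0m n) * km (Bm n Q) := by
      rw [eq_sub_iff_add_eq, ← hkm, ← hkm]
      unfold km
      rw [← map_mul, ← map_mul, ← map_add, one_q hQ, map_add, map_add, map_mul, map_mul]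
    have e2 : (km (Bm n Q)).transpose * km (J1m n Q) = (km (Am n)).transpose * km (J1m n Q) + km (J1m n Q) * km (Am n) +
        km (J1m n Q) - km (J1m n Q) * km (Bm n Q) := by
      rw [eq_sub_iff_add_eq, ← hkm, ← hkm]
      unfold km
      rw [← map_mul, ← map_mul, ← map_add, two_q hQ, map_add, map_add, map_mul, map_mul]
    rw [hthJ, hG, hJ, BX, Matrix.transpose_add, Matrix.transpose_smul, Matrix.transpose_smul, add_mul, mul_add,
      smul_mul_assoc, smul_mul_assoc, mul_smul_comm, mul_smul_comm, mul_sub, mul_sub, sub_mul, sub_mul, mul_smul_comm,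
      mul_smul_comm, smul_mul_assoc, smul_mul_assoc, e0, e1, e2]
    ext1 i j
    simp only [Matrix.add_apply, Matrix.sub_apply, Matrix.smul_apply, Matrix.neg_apply, Matrix.zero_apply, smul_eq_mul]
    ring
  have hode := ode_Hp_g hQ.toQG
  rw [← hH, ← hG] at hode
  have hth : (1 - X : ℚ⟦X⟧) • th H = G * H - (1 - X : ℚ⟦X⟧) • (H * km (Am n)) := by
    rw [← hode, smul_add]
    abel
  have hthZ : th Z = (th H).transpose * J * H + H.transpose * th J * H + H.transpose * J * th H := by
    rw [hZ, th_mul, th_mul, th_transpose, Matrix.add_mul]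
  have h1 : (1 - X : ℚ⟦X⟧) • (th Z + ((km (Am n)).transpose * Z + Z * km (Am n))) = 0 := by
    have e1 : (1 - X : ℚ⟦X⟧) • ((th H).transpose * J * H) =
        (H.transpose * G.transpose - (1 - X : ℚ⟦X⟧) • ((km (Am n)).transpose * H.transpose)) * J * H := by
      rw [← smul_mul_assoc, ← smul_mul_assoc, ← Matrix.transpose_smul, hth, Matrix.transpose_sub, Matrix.transpose_smul,
        Matrix.transpose_mul, Matrix.transpose_mul]
    have e2 : (1 - X : ℚ⟦X⟧) • (H.transpose * J * th H) = H.transpose * J * (G * H - (1 - X : ℚ⟦X⟧) • (H * km (Am n))) := by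
      rw [← mul_smul_comm, hth]
    have e2' : (1 - X : ℚ⟦X⟧) • (H.transpose * th J * H) = H.transpose * ((1 - X : ℚ⟦X⟧) • th J) * H := by
      rw [mul_smul_comm, smul_mul_assoc]
    rw [smul_add, hthZ, smul_add, smul_add, e1, e2, e2', smul_add, hZ]
    have e3 : (H.transpose * G.transpose - (1 - X : ℚ⟦X⟧) • ((km (Am n)).transpose * H.transpose)) * J * H =
        H.transpose * (G.transpose * J) * H - (1 - X : ℚ⟦X⟧) • ((km (Am n)).transpose * (H.transpose * J * H)) := by
      rw [sub_mul, sub_mul, smul_mul_assoc, smul_mul_assoc]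
      simp only [Matrix.mul_assoc]
    have e4 : H.transpose * J * (G * H - (1 - X : ℚ⟦X⟧) • (H * km (Am n))) =
        H.transpose * (J * G) * H - (1 - X : ℚ⟦X⟧) • ((H.transpose * J * H) * km (Am n)) := by
      rw [mul_sub, mul_smul_comm]
      simp only [Matrix.mul_assoc]
    rw [e3, e4]
    have e5 : H.transpose * (G.transpose * J) * H + H.transpose * (J * G) * H +
        H.transpose * ((1 - X : ℚ⟦X⟧) • th J) * H = 0 := by
      rw [← add_mul, ← add_mul, ← mul_add, ← mul_add, hGJ, Matrix.mul_zero, Matrix.zero_mul]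
    calc _ = H.transpose * (G.transpose * J) * H + H.transpose * (J * G) * H +
          H.transpose * ((1 - X : ℚ⟦X⟧) • th J) * H := by abel
      _ = 0 := e5
  have h1X : (1 - X : ℚ⟦X⟧) ≠ 0 := by
    intro h0
    have := congrArg (coeff 0) h0
    simp at this
  have h2 : th Z + ((km (Am n)).transpose * Z + Z * km (Am n)) = 0 := by
    ext1 i j
    have h3 := congrFun (congrFun h1 i) j
    rw [Matrix.smul_apply, smul_eq_mul, Matrix.zero_apply] at h3
    exact (mul_eq_zero.1 h3).resolve_left h1X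
  refine cf_ext fun k => ?_
  have h3 : (k : ℚ) • cf Z k + ((Am n).transpose * cf Z k + cf Z k * Am n) = 0 := by
    have e1 : cf (th Z + ((km (Am n)).transpose * Z + Z * km (Am n))) k =
        cf (th Z) k + (cf ((km (Am n)).transpose * Z) k + cf (Z * km (Am n)) k) := by
      ext i j
      unfold cf
      simp only [Matrix.map_apply, Matrix.add_apply, map_add]
    rw [h2, cf_th, ← hkm, cf_km_mul, cf_mul_km] at e1
    rw [← e1]
    ext i j
    unfold cf
    simp
  rcases k with _ | k
  · have h4 : ∀ M N : Matrix (Fin n) (Fin n) ℚ⟦X⟧, cf (M * N) 0 = cf M 0 * cf N 0 := by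
      intro M N
      ext i j
      unfold cf
      rw [Matrix.map_apply, Matrix.mul_apply, Matrix.mul_apply, map_sum]
      refine Finset.sum_congr rfl fun l _ => ?_
      rw [Matrix.map_apply, Matrix.map_apply, coeff_zero_eq_constantCoeff_apply, coeff_zero_eq_constantCoeff_apply,
        coeff_zero_eq_constantCoeff_apply, map_mul]
    have h5 : cf H.transpose 0 = (cf H 0).transpose := rfl
    have h6 : cf J 0 = J0m n := by
      ext i j
      unfold cf
      rw [Matrix.map_apply, hJ, BX, Matrix.sub_apply, Matrix.smul_apply, km_apply, km_apply, smul_eq_mul, map_sub,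
        coeff_zero_X_mul, sub_zero, coeff_C, if_pos rfl]
    have h7 : cf (km (J0m n)) 0 = J0m n := by
      ext i j
      unfold cf
      rw [Matrix.map_apply, km_apply, coeff_C, if_pos rfl]
    rw [hZ, h4, h4, h5, hH, cf_Hp, Hq_zero, Matrix.transpose_one, one_mul, mul_one, h6, h7]
  · rw [nil_zero (by exact_mod_cast Nat.succ_ne_zero k) h3]
    ext i j
    unfold cf
    rw [Matrix.map_apply, km_apply, coeff_C, if_neg (Nat.succ_ne_zero k), Matrix.zero_apply]

/-! ### the inverse -/

/-- the inverse of the holomorphic part -/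
noncomputable def Wo (n : ℕ) (Q : Polynomial ℚ) : Matrix (Fin n) (Fin n) ℚ⟦X⟧ :=
  km (J0m n)⁻¹ * ((Hp n Q).transpose * BX n Q)

lemma Wo_mul (hQ : QO n Q) : Wo n Q * Hp n Q = 1 := by
  unfold Wo
  rw [Matrix.mul_assoc, form_Hp_o hQ]
  unfold km
  rw [← map_mul, Matrix.nonsing_inv_mul _ (Ne.isUnit J0m_det), map_one]

lemma mul_Wo (hQ : QO n Q) : Hp n Q * Wo n Q = 1 := mul_eq_one_comm.1 (Wo_mul hQ)

lemma SDc_X : SDc (X : ℚ⟦X⟧) := by
  refine sdc_of ⟨2, fun m => ?_⟩ ⟨2, fun m => ⟨1, one_pos, ?_, fun j _ => ?_⟩⟩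
  · rw [coeff_X]
    have h0 : (1 : ℝ) ≤ 2 ^ (m + 1) := one_le_pow₀ (by norm_num)
    split_ifs
    · simpa using h0
    · simp
  · have h0 : (1 : ℝ) ≤ 2 ^ (m + 1) := one_le_pow₀ (by norm_num)
    exact_mod_cast h0
  · rw [coeff_X]
    split_ifs
    · exact ⟨1, by simp⟩
    · exact ⟨0, by simp⟩

lemma SDc_BX (i j : Fin n) : SDc (BX n Q i j) := by
  have e : BX n Q i j = C (J0m n i j) + X * C (-J1m n Q i j) := by
    unfold BX
    rw [Matrix.sub_apply, Matrix.smul_apply, km_apply, km_apply, smul_eq_mul, map_neg]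
    ring
  rw [e]
  exact (SDc_C _).add (SDc_X.mul (SDc_C _))

lemma SDc_Wo (h : ∀ i j, SDc (Hp n Q i j)) (i j : Fin n) : SDc (Wo n Q i j) :=
  SDc_matmul (SDc_km _) (SDc_matmul (fun i j => h j i) SDc_BX) i j

end Run7.h893.HO
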